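import Pool.Agent.Work.MP_d1698a_pr.Defs

set_option autoImplicit false

open MeasureTheory ProbabilityTheory Filter Set
open scoped ENNReal Topology

namespace Pool.Agent.Work.MP_d1698a_pr

/-- Subtree family above the child `i` of the root. -/
def sub (i : ℕ) (ω : List ℕ → ℕ) : List ℕ → ℕ := fun u => ω (i :: u)

instance (μ : PMF ℕ) : IsProbabilityMeasure (gw μ) := by
  unfold gw; infer_instance

lemma nil_mem_tree (ω : List ℕ → ℕ) : [] ∈ tree ω := by
  intro u i h
  have := h.length_le
  simp at this

lemma cons_mem_tree {ω : List ℕ → ℕ} {i : ℕ} {v : List ℕ} :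
    i :: v ∈ tree ω ↔ i < ω [] ∧ v ∈ tree (sub i ω) := by
  constructor
  · intro h
    refine ⟨h [] i (by simp), ?_⟩
    intro u j huj
    exact h (i :: u) j (by simpa using huj)
  · rintro ⟨h1, h2⟩ u j huj
    cases u with
    | nil =>
      simp at huj
      subst huj
      exact h1
    | cons a u =>
      rw [List.cons_append, List.cons_prefix_cons] at huj
      obtain ⟨rfl, huj⟩ := huj
      exact h2 u j huj

lemma measurable_sub (i : ℕ) : Measurable (sub i) := by
  unfold sub
  fun_prop

lemma measurableSet_mem_tree (v : List ℕ) : MeasurableSet {ω : List ℕ → ℕ | v ∈ tree ω} := by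
  induction v with
  | nil => simp [nil_mem_tree]
  | cons i v ih =>
    have : {ω : List ℕ → ℕ | i :: v ∈ tree ω}
        = {ω : List ℕ → ℕ | i < ω []} ∩ (sub i) ⁻¹' {ω | v ∈ tree ω} := by
      ext ω
      simp [cons_mem_tree]
    rw [this]
    refine MeasurableSet.inter ?_ (measurable_sub i ih)
    have h : Measurable fun ω : List ℕ → ℕ => ω [] := by fun_prop
    exact h (measurableSet_Ioi)

lemma measurableSet_le_encard {α : Type*} [Countable α] {Ω : Type*} [MeasurableSpace Ω]
    {S : Ω → Set α} (hS : ∀ v, MeasurableSet {ω | v ∈ S ω}) (m : ℕ) :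
    MeasurableSet {ω | (m : ℕ∞) ≤ (S ω).encard} := by
  have : {ω | (m : ℕ∞) ≤ (S ω).encard}
      = ⋃ t : {t : Finset α // t.card = m}, ⋂ v ∈ (t : Finset α), {ω | v ∈ S ω} := by
    ext ω
    simp only [mem_ofPred_eq, mem_iUnion, mem_iInter]
    constructor
    · intro h
      obtain ⟨t, hts, ht⟩ := Set.exists_subset_encard_eq h
      have htf : t.Finite := by
        apply Set.finite_of_encard_eq_coe ht
      refine ⟨⟨htf.toFinset, ?_⟩, ?_⟩
      · rw [htf.encard_eq_coe_toFinset_card] at ht
        exact_mod_cast ht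
      · intro v hv
        exact hts (by simpa using hv)
    · rintro ⟨⟨t, ht⟩, h⟩
      have h1 : (t : Set α) ⊆ S ω := fun v hv => h v (by simpa using hv)
      have h2 := Set.encard_le_encard h1
      rw [Set.encard_coe_eq_coe_finsetCard, ht] at h2
      exact h2
  rw [this]
  exact MeasurableSet.iUnion fun t => MeasurableSet.biInter (Finset.countable_toSet _) fun v _ => hS v

lemma measurableSet_encard_eq {α : Type*} [Countable α] {Ω : Type*} [MeasurableSpace Ω]
    {S : Ω → Set α} (hS : ∀ v, MeasurableSet {ω | v ∈ S ω}) (m : ℕ) :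
    MeasurableSet {ω | (S ω).encard = (m : ℕ∞)} := by
  have : {ω | (S ω).encard = (m : ℕ∞)}
      = {ω | (m : ℕ∞) ≤ (S ω).encard} \ {ω | ((m + 1 : ℕ) : ℕ∞) ≤ (S ω).encard} := by
    ext ω
    simp only [mem_ofPred_eq, Set.mem_sdiff, not_le]
    constructor
    · intro h
      rw [h]
      exact ⟨le_rfl, by exact_mod_cast Nat.lt_succ_self m⟩
    · rintro ⟨h1, h2⟩
      refine le_antisymm ?_ h1
      have : ((m + 1 : ℕ) : ℕ∞) = (m : ℕ∞) + 1 := by push_cast; rfl
      rw [this] at h2
      exact ENat.lt_add_one_iff (ENat.natCast_ne_top m) |>.1 h2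
  rw [this]
  exact (measurableSet_le_encard hS m).diff (measurableSet_le_encard hS (m + 1))

lemma measurableSet_numVertices_eq (n : ℕ) :
    MeasurableSet {ω : List ℕ → ℕ | numVertices ω = (n : ℕ∞)} :=
  measurableSet_encard_eq measurableSet_mem_tree n

/-- Gluing a number of children of the root and families for all children. -/
def glue (p : ℕ × (ℕ → List ℕ → ℕ)) : List ℕ → ℕ
  | [] => p.1
  | i :: u => p.2 i u

lemma measurable_glue : Measurable glue := by
  rw [measurable_pi_iff]
  intro v
  cases v with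
  | nil => exact measurable_fst
  | cons i u =>
    have : (fun p : ℕ × (ℕ → List ℕ → ℕ) => glue p (i :: u)) = fun p => p.2 i u := rfl
    rw [this]
    fun_prop

lemma sub_glue (i : ℕ) (p : ℕ × (ℕ → List ℕ → ℕ)) : sub i (glue p) = p.2 i := rfl

lemma glue_nil (p : ℕ × (ℕ → List ℕ → ℕ)) : glue p [] = p.1 := rfl

lemma map_glue (μ : PMF ℕ) :
    (μ.toMeasure.prod (Measure.infinitePi fun _ : ℕ => gw μ)).map glue = gw μ := by
  classical
  refine Measure.eq_infinitePi _ ?_
  intro s t ht
  have hpi : MeasurableSet (Set.pi (s : Set (List ℕ)) t) :=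
    MeasurableSet.pi s.countable_toSet fun v _ => ht v
  rw [Measure.map_apply measurable_glue hpi]
  -- the finite sets of children and of words
  set I : Finset ℕ := s.biUnion (fun v => match v with
    | [] => ∅
    | i :: _ => {i}) with hI
  have hinj : ∀ i : ℕ, Function.Injective (List.cons i) := fun i => List.cons_injective
  set S : ℕ → Finset (List ℕ) := fun i => s.preimage (List.cons i) ((hinj i).injOn) with hS
  set t0 : Set ℕ := if [] ∈ s then t [] else univ with ht0
  have hset : glue ⁻¹' (Set.pi (s : Set (List ℕ)) t)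
      = t0 ×ˢ (Set.pi (I : Set ℕ) fun i => Set.pi (S i : Set (List ℕ)) fun u => t (i :: u)) := by
    ext ⟨k, w⟩
    simp only [mem_preimage, Set.mem_pi, Finset.mem_coe, mem_prod]
    constructor
    · intro h
      constructor
      · simp only [ht0]
        split_ifs with hn
        · exact h [] hn
        · trivial
      · intro i _ u hu
        simp only [hS, Finset.mem_preimage] at hu
        exact h (i :: u) hu
    · rintro ⟨h1, h2⟩ v hv
      cases v with
      | nil =>
        simp only [ht0, if_pos hv] at h1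
        exact h1
      | cons i u =>
        refine h2 i ?_ u ?_
        · simp only [hI, Finset.mem_biUnion]
          exact ⟨i :: u, hv, by simp⟩
        · simp only [hS, Finset.mem_preimage]
          exact hv
  rw [hset, Measure.prod_prod, Measure.infinitePi_pi]
  swap
  · intro i _
    exact MeasurableSet.pi (Finset.countable_toSet _) fun u _ => ht _
  have h3 : ∀ i ∈ I, (gw μ) (Set.pi (S i : Set (List ℕ)) fun u => t (i :: u))
      = ∏ u ∈ S i, μ.toMeasure (t (i :: u)) := by
    intro i _
    unfold gw
    rw [Measure.infinitePi_pi]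
    intro u _
    exact ht _
  rw [Finset.prod_congr rfl h3]
  -- reorganize the product
  have h4 : ∏ i ∈ I, ∏ u ∈ S i, μ.toMeasure (t (i :: u))
      = ∏ v ∈ s.filter (fun v => v ≠ []), μ.toMeasure (t v) := by
    rw [Finset.prod_sigma']
    refine Finset.prod_bij (fun p _ => p.1 :: p.2) ?_ ?_ ?_ ?_
    · rintro ⟨i, u⟩ h
      simp only [Finset.mem_sigma, hS, Finset.mem_preimage] at h
      simp [h.2]
    · rintro ⟨i, u⟩ _ ⟨j, w⟩ _ h
      simp only [List.cons.injEq] at h
      obtain ⟨rfl, rfl⟩ := h
      rfl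
    · intro v hv
      simp only [Finset.mem_filter] at hv
      obtain ⟨hv, hne⟩ := hv
      cases v with
      | nil => exact absurd rfl hne
      | cons i u =>
        refine ⟨⟨i, u⟩, ?_, rfl⟩
        simp only [Finset.mem_sigma, hS, Finset.mem_preimage]
        refine ⟨?_, hv⟩
        simp only [hI, Finset.mem_biUnion]
        exact ⟨i :: u, hv, by simp⟩
    · rintro ⟨i, u⟩ _
      rfl
  rw [h4]
  have h5 : μ.toMeasure t0 = ∏ v ∈ s.filter (fun v => ¬ v ≠ []), μ.toMeasure (t v) := by
    by_cases hn : [] ∈ s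
    · have : s.filter (fun v => ¬ v ≠ []) = {[]} := by
        ext v
        simp only [Finset.mem_filter, Finset.mem_singleton, not_not]
        constructor
        · exact fun h => h.2
        · rintro rfl; exact ⟨hn, rfl⟩
      rw [this]
      simp [ht0, hn]
    · have : s.filter (fun v => ¬ v ≠ []) = ∅ := by
        ext v
        simp only [Finset.mem_filter, not_not, Finset.notMem_empty, iff_false]
        rintro ⟨h1, rfl⟩
        exact hn h1
      rw [this]
      simp [ht0, hn]
  rw [h5, mul_comm]
  exact Finset.prod_filter_mul_prod_filter_not s (fun v => v ≠ []) _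

/-- The branching property. -/
lemma branching (μ : PMF ℕ) (k : ℕ) (A : ℕ → Set (List ℕ → ℕ))
    (hA : ∀ i < k, MeasurableSet (A i)) :
    gw μ {ω | ω [] = k ∧ ∀ i < k, sub i ω ∈ A i} = μ k * ∏ i ∈ Finset.range k, gw μ (A i) := by
  have hmeas : MeasurableSet {ω : List ℕ → ℕ | ω [] = k ∧ ∀ i < k, sub i ω ∈ A i} := by
    have : {ω : List ℕ → ℕ | ω [] = k ∧ ∀ i < k, sub i ω ∈ A i}
        = {ω | ω [] = k} ∩ ⋂ i ∈ Finset.range k, (sub i) ⁻¹' (A i) := by
      ext ω; simp
    rw [this]
    refine MeasurableSet.inter ?_ ?_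
    · have h : Measurable fun ω : List ℕ → ℕ => ω [] := by fun_prop
      exact h (measurableSet_singleton k)
    · refine MeasurableSet.biInter (Finset.countable_toSet _) fun i hi => ?_
      exact measurable_sub i (hA i (by simpa using hi))
  conv_lhs => rw [← map_glue μ]
  rw [Measure.map_apply measurable_glue hmeas]
  have : glue ⁻¹' {ω | ω [] = k ∧ ∀ i < k, sub i ω ∈ A i}
      = ({k} : Set ℕ) ×ˢ (Set.pi (Finset.range k : Set ℕ) A) := by
    ext ⟨j, w⟩
    simp [sub_glue, glue_nil, Set.mem_pi]
  rw [this, Measure.prod_prod, Measure.infinitePi_pi]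
  · rw [PMF.toMeasure_apply_singleton _ _ (measurableSet_singleton k)]
  · intro i hi
    exact hA i (by simpa using hi)

end Pool.Agent.Work.MP_d1698a_pr
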