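import Pool.Agent.Work.MP_d1698a_pr.Lower

set_option autoImplicit false

open Finset

namespace Pool.Agent.Work.MP_d1698a_pr

namespace ProgenySeries

variable {m : ℕ → ℝ} {F : PowerSeries ℝ}

lemma sum_mul_shift (G H : PowerSeries ℝ) (N : ℕ) :
    ∑ j ∈ range (N + 1), PowerSeries.coeff j G * PowerSeries.coeff (N - j) H
      = PowerSeries.coeff N (G * H) := by
  rw [PowerSeries.coeff_mul, Finset.Nat.sum_antidiagonal_eq_sum_range_succ
    (fun i j => PowerSeries.coeff i G * PowerSeries.coeff j H)]

/-- Lagrange inversion (Otter-Dwass formula) for the powers of the progeny series. -/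
lemma lagrange (h : ProgenySeries m F) (n k : ℕ) :
    (n : ℝ) * PowerSeries.coeff n (F ^ k)
      = if k ≤ n then (k : ℝ) * PowerSeries.coeff (n - k) ((PowerSeries.mk m) ^ n) else 0 := by
  induction n generalizing k with
  | zero =>
    split_ifs with hk
    · have : k = 0 := by omega
      subst this
      simp
    · simp
  | succ n ih =>
    rcases Nat.eq_zero_or_pos k with rfl | hk
    · rw [pow_zero, PowerSeries.coeff_one, if_neg (Nat.succ_ne_zero n)]
      simp
    obtain ⟨k', rfl⟩ : ∃ k', k = k' + 1 := ⟨k - 1, by omega⟩
    split_ifs with hkn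
    swap
    · rw [h.coeff_pow_eq_zero (by omega), mul_zero]
    have hk'n : k' ≤ n := by omega
    rcases Nat.eq_zero_or_pos n with rfl | hn
    · have : k' = 0 := by omega
      subst this
      rw [zero_add, pow_one, pow_one, show (1 : ℕ) = 0 + 1 from rfl, h.F_succ]
      simp
    have hn0 : (n : ℝ) ≠ 0 := by exact_mod_cast (by omega : n ≠ 0)
    set G := PowerSeries.mk m with hG
    -- multiply by n
    have key : (n : ℝ) * ((n + 1 : ℝ) * PowerSeries.coeff (n + 1) (F ^ (k' + 1)))
        = n * ((k' + 1 : ℝ) * PowerSeries.coeff (n - k') (G ^ (n + 1))) := by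
      rw [h.coeff_pow_succ]
      have e1 : (n : ℝ) * ((n + 1 : ℝ) * ∑ j ∈ range (n + 1), m j * PowerSeries.coeff n (F ^ (j + k')))
          = (n + 1) * ∑ j ∈ range (n + 1), m j * (n * PowerSeries.coeff n (F ^ (j + k'))) := by
        rw [Finset.mul_sum, Finset.mul_sum, Finset.mul_sum]
        refine Finset.sum_congr rfl fun j _ => by ring
      rw [e1]
      have e2 : ∀ j ∈ range (n + 1), m j * (n * PowerSeries.coeff n (F ^ (j + k')))
          = if j ≤ n - k' then m j * (((j : ℝ) + k') * PowerSeries.coeff (n - k' - j) (G ^ n))
            else 0 := by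
        intro j _
        rw [ih]
        by_cases hj : j ≤ n - k'
        · rw [if_pos (by omega), if_pos hj]
          congr 1
          push_cast
          congr 3
          omega
        · rw [if_neg (by omega), if_neg hj, mul_zero]
      rw [Finset.sum_congr rfl e2, ← Finset.sum_filter]
      have e3 : (range (n + 1)).filter (fun j => j ≤ n - k') = range (n - k' + 1) := by
        ext j
        simp only [mem_filter, mem_range]
        omega
      rw [e3]
      -- split into two sums
      have e4 : ∑ j ∈ range (n - k' + 1), m j * (((j : ℝ) + k') * PowerSeries.coeff (n - k' - j) (G ^ n))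
          = ∑ j ∈ range (n - k' + 1), (j * m j) * PowerSeries.coeff (n - k' - j) (G ^ n)
            + k' * ∑ j ∈ range (n - k' + 1), m j * PowerSeries.coeff (n - k' - j) (G ^ n) := by
        rw [Finset.mul_sum, ← Finset.sum_add_distrib]
        refine Finset.sum_congr rfl fun j _ => by ring
      rw [e4]
      have e5 : ∑ j ∈ range (n - k' + 1), m j * PowerSeries.coeff (n - k' - j) (G ^ n)
          = PowerSeries.coeff (n - k') (G ^ (n + 1)) := by
        rw [pow_succ', ← sum_mul_shift]
        refine Finset.sum_congr rfl fun j _ => by rw [hG, PowerSeries.coeff_mk]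
      have e6 : ((n : ℝ) + 1) * ∑ j ∈ range (n - k' + 1), (j * m j) * PowerSeries.coeff (n - k' - j) (G ^ n)
          = (n - k' : ℕ) * PowerSeries.coeff (n - k') (G ^ (n + 1)) := by
        set D := PowerSeries.derivative ℝ with hD
        have d1 : ∑ j ∈ range (n - k' + 1), (j * m j) * PowerSeries.coeff (n - k' - j) (G ^ n)
            = PowerSeries.coeff (n - k') ((PowerSeries.X * D G) * G ^ n) := by
          rw [← sum_mul_shift]
          refine Finset.sum_congr rfl fun j _ => ?_
          congr 1
          rcases Nat.eq_zero_or_pos j with rfl | hj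
          · simp
          · obtain ⟨i, rfl⟩ : ∃ i, j = i + 1 := ⟨j - 1, by omega⟩
            rw [mul_comm PowerSeries.X, PowerSeries.coeff_succ_mul_X, hD,
              PowerSeries.coeff_derivative, hG, PowerSeries.coeff_mk]
            push_cast
            ring
        have d2 : D (G ^ (n + 1)) = (n + 1 : ℕ) • (G ^ n * D G) := by
          rw [Derivation.leibniz_pow]
          simp
        have d3 : PowerSeries.X * D (G ^ (n + 1)) = ((n + 1 : ℕ) : PowerSeries ℝ)
            * ((PowerSeries.X * D G) * G ^ n) := by
          rw [d2, nsmul_eq_mul]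
          ring
        have d4 : PowerSeries.coeff (n - k') (PowerSeries.X * D (G ^ (n + 1)))
            = (n - k' : ℕ) * PowerSeries.coeff (n - k') (G ^ (n + 1)) := by
          rcases Nat.eq_zero_or_pos (n - k') with h0 | hj
          · rw [h0]; simp
          · obtain ⟨i, hi⟩ : ∃ i, n - k' = i + 1 := ⟨n - k' - 1, by omega⟩
            rw [hi, mul_comm PowerSeries.X, PowerSeries.coeff_succ_mul_X, hD,
              PowerSeries.coeff_derivative]
            push_cast
            ring
        rw [d1, ← d4, d3, ← map_natCast (PowerSeries.C (R := ℝ)), PowerSeries.coeff_C_mul]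
        push_cast
        ring
      have e7 : ((n - k' : ℕ) : ℝ) = (n : ℝ) - k' := by
        rw [Nat.cast_sub hk'n]
      rw [mul_add, e6, e5, e7]
      ring
    have key2 := mul_left_cancel₀ hn0 key
    push_cast
    rw [key2]

/-- Otter-Dwass formula -/
lemma otter_dwass (h : ProgenySeries m F) (n : ℕ) :
    ((n + 1 : ℕ) : ℝ) * PowerSeries.coeff (n + 1) F
      = PowerSeries.coeff n ((PowerSeries.mk m) ^ (n + 1)) := by
  have := h.lagrange (n + 1) 1
  rw [pow_one, if_pos (by omega)] at this
  rw [this]
  simp

end ProgenySeries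

end Pool.Agent.Work.MP_d1698a_pr
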