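import Mathlib

set_option autoImplicit false

open Finset Polynomial

namespace Pool.Agent.Work.MP_d1698a_pr

lemma sum_range_coeff_le_eval_one {q : ℝ[X]} (hq : ∀ k, 0 ≤ q.coeff k) (s : Finset ℕ) :
    ∑ k ∈ s, q.coeff k ≤ q.eval 1 := by
  rw [Polynomial.eval_eq_sum_range]
  simp only [one_pow, mul_one]
  have h1 : ∑ k ∈ s, q.coeff k ≤ ∑ k ∈ s ∪ range (q.natDegree + 1), q.coeff k :=
    Finset.sum_le_sum_of_subset_of_nonneg subset_union_left (fun k _ _ => hq k)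
  refine h1.trans (le_of_eq ?_)
  symm
  apply Finset.sum_subset subset_union_right
  intro k _ hk
  rw [mem_range, not_lt] at hk
  exact Polynomial.coeff_eq_zero_of_natDegree_lt (by omega)

lemma coeff_mul_le_mass {b q : ℝ[X]} {B : ℝ} (hb0 : 0 ≤ B) (hb : ∀ k, b.coeff k ≤ B)
    (hq : ∀ k, 0 ≤ q.coeff k) (x : ℕ) : (b * q).coeff x ≤ B * q.eval 1 := by
  rw [Polynomial.coeff_mul]
  calc ∑ p ∈ antidiagonal x, b.coeff p.1 * q.coeff p.2
      ≤ ∑ p ∈ antidiagonal x, B * q.coeff p.2 :=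
        Finset.sum_le_sum fun p _ => mul_le_mul_of_nonneg_right (hb _) (hq _)
    _ = B * ∑ p ∈ antidiagonal x, q.coeff p.2 := by rw [Finset.mul_sum]
    _ = B * ∑ k ∈ range (x + 1), q.coeff (x - k) := by
        rw [Finset.Nat.sum_antidiagonal_eq_sum_range_succ (fun i j => q.coeff j)]
    _ = B * ∑ k ∈ range (x + 1), q.coeff k := by
        rw [Finset.sum_range_reflect (fun j => q.coeff j) (x + 1) |>.symm]
        congr 1
    _ ≤ B * q.eval 1 := mul_le_mul_of_nonneg_left (sum_range_coeff_le_eval_one hq _) hb0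

lemma coeff_pow_nonneg {q : ℝ[X]} (hq : ∀ k, 0 ≤ q.coeff k) (m : ℕ) (x : ℕ) :
    0 ≤ (q ^ m).coeff x := by
  induction m generalizing x with
  | zero =>
    rw [pow_zero, Polynomial.coeff_one]
    split_ifs <;> norm_num
  | succ m ih =>
    rw [pow_succ, Polynomial.coeff_mul]
    exact Finset.sum_nonneg fun p _ => mul_nonneg (ih _) (hq _)

lemma local_bound {p s b : ℝ[X]} {B γ : ℝ} (hp : p = s + b) (hs : ∀ k, 0 ≤ s.coeff k)
    (hb0 : ∀ k, 0 ≤ b.coeff k) (hb : ∀ k, b.coeff k ≤ B) (hB : 0 ≤ B)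
    (hγ0 : 0 ≤ γ) (hγ1 : γ < 1) (hsγ : s.eval 1 ≤ γ) (hp1 : p.eval 1 ≤ 1) (m x : ℕ) :
    (p ^ m).coeff x ≤ γ ^ m + B / (1 - γ) := by
  have hpc : ∀ k, 0 ≤ p.coeff k := fun k => by
    rw [hp, coeff_add]; exact add_nonneg (hs k) (hb0 k)
  have hp0 : 0 ≤ p.eval 1 := le_trans (by simp) (sum_range_coeff_le_eval_one hpc ∅)
  have key : ∀ m x, (p ^ m).coeff x ≤ γ ^ m + B * ∑ i ∈ range m, γ ^ i := by
    intro m
    induction m with
    | zero =>
      intro x
      rw [pow_zero, Polynomial.coeff_one]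
      split_ifs <;> simp
    | succ m ih =>
      intro x
      have h0 : p ^ (m + 1) = p ^ m * s + b * p ^ m := by
        rw [pow_succ, hp]; ring
      rw [h0, coeff_add]
      have hbd : 0 ≤ γ ^ m + B * ∑ i ∈ range m, γ ^ i := by
        have : 0 ≤ ∑ i ∈ range m, γ ^ i := Finset.sum_nonneg fun _ _ => pow_nonneg hγ0 _
        positivity
      have h1 : (p ^ m * s).coeff x ≤ (γ ^ m + B * ∑ i ∈ range m, γ ^ i) * s.eval 1 :=
        coeff_mul_le_mass hbd (ih) hs x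
      have h2 : (b * p ^ m).coeff x ≤ B * (p ^ m).eval 1 :=
        coeff_mul_le_mass hB hb (coeff_pow_nonneg hpc m) x
      have h3 : (p ^ m).eval 1 ≤ 1 := by
        rw [eval_pow]; exact pow_le_one₀ hp0 hp1
      have h4 : (γ ^ m + B * ∑ i ∈ range m, γ ^ i) * s.eval 1
          ≤ (γ ^ m + B * ∑ i ∈ range m, γ ^ i) * γ := mul_le_mul_of_nonneg_left hsγ hbd
      have h5 : ∑ i ∈ range (m + 1), γ ^ i = (∑ i ∈ range m, γ ^ i) * γ + 1 := by
        rw [Finset.sum_range_succ', Finset.sum_mul]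
        simp [pow_succ]
      rw [h5]
      calc (p ^ m * s).coeff x + (b * p ^ m).coeff x
          ≤ (γ ^ m + B * ∑ i ∈ range m, γ ^ i) * γ + B * 1 := by
            have := mul_le_mul_of_nonneg_left h3 hB
            linarith
        _ = _ := by ring
  refine (key m x).trans ?_
  have h6 : ∑ i ∈ range m, γ ^ i ≤ 1 / (1 - γ) := by
    rw [le_div_iff₀ (by linarith)]
    have := geom_sum_mul γ m
    have h7 : 0 ≤ γ ^ m := pow_nonneg hγ0 m
    nlinarith
  have := mul_le_mul_of_nonneg_left h6 hB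
  have e : B * (1 / (1 - γ)) = B / (1 - γ) := by ring
  linarith

lemma chernoff_tail {p : ℝ[X]} (hp : ∀ k, 0 ≤ p.coeff k) {r : ℝ} (hr : 1 ≤ r) (m : ℕ)
    (s : Finset ℕ) (hs : ∀ x ∈ s, m ≤ x) :
    ∑ x ∈ s, (p ^ m).coeff x ≤ (p.eval r / r) ^ m := by
  have hr0 : 0 < r := by linarith
  rw [div_pow, le_div_iff₀ (pow_pos hr0 m), Finset.sum_mul, ← eval_pow]
  have hc := coeff_pow_nonneg hp m
  calc ∑ x ∈ s, (p ^ m).coeff x * r ^ m ≤ ∑ x ∈ s, (p ^ m).coeff x * r ^ x := by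
        refine Finset.sum_le_sum fun x hx => ?_
        exact mul_le_mul_of_nonneg_left (pow_le_pow_right₀ hr (hs x hx)) (hc x)
    _ ≤ ∑ x ∈ s ∪ range ((p ^ m).natDegree + 1), (p ^ m).coeff x * r ^ x :=
        Finset.sum_le_sum_of_subset_of_nonneg subset_union_left
          (fun x _ _ => mul_nonneg (hc x) (by positivity))
    _ = (p ^ m).eval r := by
        rw [Polynomial.eval_eq_sum_range]
        symm
        apply Finset.sum_subset subset_union_right
        intro k _ hk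
        rw [mem_range, not_lt] at hk
        rw [Polynomial.coeff_eq_zero_of_natDegree_lt (by omega), zero_mul]

/-- local limit upper bound under a tilt -/
lemma split_bound {p : ℝ[X]} (hp : ∀ k, 0 ≤ p.coeff k) {r S : ℝ} (hr : 1 ≤ r)
    (n₁ n₂ : ℕ) (hS1 : ∀ x, (p ^ n₁).coeff x ≤ S) (hS2 : ∀ x, (p ^ n₂).coeff x ≤ S) (N : ℕ)
    (hN : n₁ + n₂ = N + 1) :
    (p ^ (N + 1)).coeff N ≤ S * (p.eval r / r) ^ n₁ + S * (p.eval r / r) ^ n₂ := by
  classical
  have hS0 : 0 ≤ S := (coeff_pow_nonneg hp n₁ 0).trans (hS1 0)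
  rw [← hN, pow_add, Polynomial.coeff_mul]
  have hc1 := coeff_pow_nonneg hp n₁
  have hc2 := coeff_pow_nonneg hp n₂
  have h0 : ∀ q ∈ antidiagonal N, (p ^ n₁).coeff q.1 * (p ^ n₂).coeff q.2
      ≤ (if n₁ ≤ q.1 then (p ^ n₁).coeff q.1 * S else 0)
        + (if n₂ ≤ q.2 then S * (p ^ n₂).coeff q.2 else 0) := by
    intro q hq
    rw [HasAntidiagonal.mem_antidiagonal] at hq
    by_cases h1 : n₁ ≤ q.1
    · rw [if_pos h1]
      have h2 : (p ^ n₁).coeff q.1 * (p ^ n₂).coeff q.2 ≤ (p ^ n₁).coeff q.1 * S :=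
        mul_le_mul_of_nonneg_left (hS2 _) (hc1 _)
      have h3 : 0 ≤ (if n₂ ≤ q.2 then S * (p ^ n₂).coeff q.2 else 0) := by
        split_ifs
        · exact mul_nonneg hS0 (hc2 _)
        · exact le_rfl
      linarith
    · have h2 : n₂ ≤ q.2 := by omega
      rw [if_neg h1, if_pos h2, zero_add]
      exact mul_le_mul_of_nonneg_right (hS1 _) (hc2 _)
  refine (Finset.sum_le_sum h0).trans ?_
  rw [Finset.sum_add_distrib]
  have e1 : ∑ q ∈ antidiagonal N, (if n₁ ≤ q.1 then (p ^ n₁).coeff q.1 * S else 0)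
      = S * ∑ x ∈ (range (N + 1)).filter (fun x => n₁ ≤ x), (p ^ n₁).coeff x := by
    rw [Finset.Nat.sum_antidiagonal_eq_sum_range_succ
      (fun i j => if n₁ ≤ i then (p ^ n₁).coeff i * S else 0), Finset.sum_filter, Finset.mul_sum]
    refine Finset.sum_congr rfl fun x _ => ?_
    split_ifs <;> ring
  have e2 : ∑ q ∈ antidiagonal N, (if n₂ ≤ q.2 then S * (p ^ n₂).coeff q.2 else 0)
      = S * ∑ x ∈ (range (N + 1)).filter (fun x => n₂ ≤ x), (p ^ n₂).coeff x := by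
    rw [← Finset.Nat.sum_antidiagonal_swap]
    simp only [Prod.fst_swap, Prod.snd_swap]
    rw [Finset.Nat.sum_antidiagonal_eq_sum_range_succ
      (fun i j => if n₂ ≤ i then S * (p ^ n₂).coeff i else 0), Finset.sum_filter, Finset.mul_sum]
    refine Finset.sum_congr rfl fun x _ => ?_
    split_ifs <;> ring
  rw [e1, e2]
  have c1 := chernoff_tail hp hr n₁ ((range (N + 1)).filter (fun x => n₁ ≤ x))
    (fun x hx => (mem_filter.1 hx).2)
  have c2 := chernoff_tail hp hr n₂ ((range (N + 1)).filter (fun x => n₂ ≤ x))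
    (fun x hx => (mem_filter.1 hx).2)
  exact add_le_add (mul_le_mul_of_nonneg_left c1 hS0) (mul_le_mul_of_nonneg_left c2 hS0)

/-- second order bound for powers -/
lemma pow_le_second_order {t : ℝ} (ht : 0 ≤ t) (k : ℕ) :
    (1 + t) ^ k ≤ 1 + k * t + (k : ℝ) ^ 2 / 2 * t ^ 2 * (1 + t) ^ k := by
  induction k with
  | zero => simp
  | succ k ih =>
    have h1 : (1 + t) ^ (k + 1) = (1 + t) ^ k * (1 + t) := pow_succ _ _
    have hpos : 1 ≤ (1 + t) ^ k := one_le_pow₀ (by linarith)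
    have hb := one_add_mul_le_pow (show (-2 : ℝ) ≤ t by linarith) k
    have h2 := mul_le_mul_of_nonneg_right ih (show 0 ≤ 1 + t by linarith)
    rw [h1]
    push_cast
    have hk : (0 : ℝ) ≤ k := Nat.cast_nonneg k
    have hkt : 0 ≤ (k : ℝ) * t ^ 2 := by positivity
    have h3 : (k : ℝ) * t ^ 2 ≤ k * t ^ 2 * ((1 + t) ^ k * (1 + t)) := by
      have : 1 ≤ (1 + t) ^ k * (1 + t) := by nlinarith
      nlinarith
    have h4 : 0 ≤ t ^ 2 / 2 * ((1 + t) ^ k * (1 + t)) := by positivity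
    nlinarith

end Pool.Agent.Work.MP_d1698a_pr
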