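import Pool.Agent.Work.MP_d1698a_pr.Progeny

set_option autoImplicit false

open MeasureTheory ProbabilityTheory Filter Set
open scoped ENNReal Topology

namespace Pool.Agent.Work.MP_d1698a_pr

/-- the event that all numbers of children in the tree lie in `D` -/
def degSet (D : Set ℕ) : Set (List ℕ → ℕ) := {ω | ∀ v ∈ tree ω, ω v ∈ D}

lemma measurableSet_degSet (D : Set ℕ) : MeasurableSet (degSet D) := by
  have : degSet D = ⋂ v : List ℕ, ({ω : List ℕ → ℕ | v ∈ tree ω}ᶜ ∪ {ω | ω v ∈ D}) := by
    ext ω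
    simp only [degSet, mem_ofPred_eq, mem_iInter, mem_union, mem_compl_iff]
    constructor
    · intro h v
      by_cases hv : v ∈ tree ω
      · exact Or.inr (h v hv)
      · exact Or.inl hv
    · intro h v hv
      rcases h v with h1 | h1
      · exact absurd hv h1
      · exact h1
  rw [this]
  refine MeasurableSet.iInter fun v => (measurableSet_mem_tree v).compl.union ?_
  have h : Measurable fun ω : List ℕ → ℕ => ω v := by fun_prop
  exact h (MeasurableSet.of_discrete)

lemma degSet_iff (D : Set ℕ) (ω : List ℕ → ℕ) :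
    ω ∈ degSet D ↔ ω [] ∈ D ∧ ∀ i < ω [], sub i ω ∈ degSet D := by
  simp only [degSet, mem_ofPred_eq]
  constructor
  · intro h
    refine ⟨h [] (nil_mem_tree ω), fun i hi v hv => ?_⟩
    exact h (i :: v) (cons_mem_tree.2 ⟨hi, hv⟩)
  · rintro ⟨h1, h2⟩ v hv
    cases v with
    | nil => exact h1
    | cons i u =>
      rw [cons_mem_tree] at hv
      exact h2 i hv.1 u hv.2

/-- the event: `n` vertices and all numbers of children in `D` -/
def evt (D : Set ℕ) (n : ℕ) : Set (List ℕ → ℕ) :=
  {ω | numVertices ω = (n : ℕ∞)} ∩ degSet D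

lemma measurableSet_evt (D : Set ℕ) (n : ℕ) : MeasurableSet (evt D n) :=
  (measurableSet_numVertices_eq n).inter (measurableSet_degSet D)

/-- probability that the tree has `n` vertices and all numbers of children are in `D` -/
noncomputable def progD (μ : PMF ℕ) (D : Set ℕ) (n : ℕ) : ℝ := (gw μ).real (evt D n)

/-- its generating series -/
noncomputable def progSeriesD (μ : PMF ℕ) (D : Set ℕ) : PowerSeries ℝ :=
  PowerSeries.mk (progD μ D)

lemma measure_root_and_sumD (μ : PMF ℕ) (D : Set ℕ) (k n : ℕ) :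
    (gw μ).real {ω | (ω [] = k ∧ ∑ i ∈ Finset.range k, numVertices (sub i ω) = (n : ℕ∞)) ∧
        ∀ i < k, sub i ω ∈ degSet D}
      = (μ k).toReal * PowerSeries.coeff n ((progSeriesD μ D) ^ k) := by
  classical
  have hset : {ω : List ℕ → ℕ | (ω [] = k ∧
        ∑ i ∈ Finset.range k, numVertices (sub i ω) = (n : ℕ∞)) ∧ ∀ i < k, sub i ω ∈ degSet D}
      = ⋃ l ∈ (Finset.range k).finsuppAntidiag n,
        {ω | ω [] = k ∧ ∀ i < k, sub i ω ∈ evt D (l i)} := by
    ext ω
    simp only [mem_ofPred_eq, mem_iUnion, exists_prop, evt, mem_inter_iff]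
    rw [sum_eq_natCast_iff (fun i => numVertices (sub i ω))]
    constructor
    · rintro ⟨⟨h1, l, hl, h2⟩, h3⟩
      exact ⟨l, hl, h1, fun i hi => ⟨h2 i hi, h3 i hi⟩⟩
    · rintro ⟨l, hl, h1, h2⟩
      exact ⟨⟨h1, l, hl, fun i hi => (h2 i hi).1⟩, fun i hi => (h2 i hi).2⟩
  have hmeas : ∀ l : ℕ →₀ ℕ, MeasurableSet {ω : List ℕ → ℕ | ω [] = k ∧
      ∀ i < k, sub i ω ∈ evt D (l i)} := by
    intro l
    have : {ω : List ℕ → ℕ | ω [] = k ∧ ∀ i < k, sub i ω ∈ evt D (l i)}
        = {ω | ω [] = k} ∩ ⋂ i ∈ Finset.range k, (sub i) ⁻¹' (evt D (l i)) := by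
      ext ω; simp
    rw [this]
    refine MeasurableSet.inter ?_ ?_
    · have h : Measurable fun ω : List ℕ → ℕ => ω [] := by fun_prop
      exact h (measurableSet_singleton k)
    · exact MeasurableSet.biInter (Finset.countable_toSet _) fun i _ =>
        measurable_sub i (measurableSet_evt _ _)
  rw [hset, measureReal_biUnion_finset]
  · rw [PowerSeries.coeff_pow, Finset.mul_sum]
    refine Finset.sum_congr rfl fun l _ => ?_
    rw [measureReal_def, branching μ k _ (fun i _ => measurableSet_evt _ _),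
      ENNReal.toReal_mul, ENNReal.toReal_prod]
    congr 1
    refine Finset.prod_congr rfl fun i _ => ?_
    rw [progSeriesD, PowerSeries.coeff_mk, progD, measureReal_def]
  · intro l hl l' hl' hne
    rw [Function.onFun, Set.disjoint_left]
    rintro ω ⟨_, h1⟩ ⟨_, h2⟩
    apply hne
    rw [Finset.mem_coe, Finset.mem_finsuppAntidiag] at hl hl'
    ext i
    by_cases hi : i < k
    · have h3 := (h1 i hi).1
      have h4 := (h2 i hi).1
      simp only [mem_ofPred_eq] at h3 h4
      rw [h3] at h4
      exact_mod_cast h4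
    · have h3 : i ∉ l.support := fun hc => hi (by simpa using hl.2 hc)
      have h4 : i ∉ l'.support := fun hc => hi (by simpa using hl'.2 hc)
      rw [Finsupp.notMem_support_iff] at h3 h4
      rw [h3, h4]
  · intro l _
    exact hmeas l

lemma progD_zero (μ : PMF ℕ) (D : Set ℕ) : progD μ D 0 = 0 := by
  unfold progD
  have : evt D 0 = ∅ := by
    ext ω
    simp only [evt, mem_inter_iff, mem_ofPred_eq, mem_empty_iff_false, iff_false, not_and]
    intro h
    have := one_le_numVertices ω
    rw [h] at this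
    exact absurd this (by simp)
  rw [this]
  simp

/-- offspring weights restricted to `D` -/
noncomputable def wD (μ : PMF ℕ) (D : Set ℕ) (k : ℕ) : ℝ :=
  open Classical in if k ∈ D then (μ k).toReal else 0

lemma progD_succ (μ : PMF ℕ) (D : Set ℕ) (n : ℕ) :
    progD μ D (n + 1) = ∑ k ∈ Finset.range (n + 1),
      wD μ D k * PowerSeries.coeff n ((progSeriesD μ D) ^ k) := by
  classical
  unfold progD
  have hset : evt D (n + 1)
      = ⋃ k ∈ Finset.range (n + 1), ({ω | k ∈ D} ∩
        {ω | (ω [] = k ∧ ∑ i ∈ Finset.range k, numVertices (sub i ω) = (n : ℕ∞)) ∧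
          ∀ i < k, sub i ω ∈ degSet D}) := by
    ext ω
    simp only [evt, mem_inter_iff, mem_ofPred_eq, mem_iUnion, exists_prop, Finset.mem_range]
    rw [numVertices_eq, degSet_iff]
    have key : (1 + ∑ i ∈ Finset.range (ω []), numVertices (sub i ω) = ((n + 1 : ℕ) : ℕ∞))
        ↔ ∑ i ∈ Finset.range (ω []), numVertices (sub i ω) = (n : ℕ∞) := by
      push_cast
      rw [add_comm (1 : ℕ∞)]
      exact (ENat.add_left_injective_of_ne_top (n := 1) (by simp)).eq_iff
    rw [key]
    constructor
    · rintro ⟨h, hD, hsub⟩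
      refine ⟨ω [], ?_, hD, ⟨rfl, h⟩, hsub⟩
      have h1 : ((ω [] : ℕ) : ℕ∞) ≤ (n : ℕ∞) := by
        rw [← h]
        calc ((ω [] : ℕ) : ℕ∞) = ∑ i ∈ Finset.range (ω []), (1 : ℕ∞) := by simp
          _ ≤ _ := Finset.sum_le_sum fun i _ => one_le_numVertices _
      have h2 : ω [] ≤ n := by exact_mod_cast h1
      omega
    · rintro ⟨k, _, hD, ⟨hk, h⟩, hsub⟩
      rw [hk]; exact ⟨h, hD, hsub⟩
  have hmeas : ∀ k : ℕ, MeasurableSet {ω : List ℕ → ℕ | (ω [] = k ∧
      ∑ i ∈ Finset.range k, numVertices (sub i ω) = (n : ℕ∞)) ∧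
          ∀ i < k, sub i ω ∈ degSet D} := by
    intro k
    have hset : {ω : List ℕ → ℕ | (ω [] = k ∧
          ∑ i ∈ Finset.range k, numVertices (sub i ω) = (n : ℕ∞)) ∧ ∀ i < k, sub i ω ∈ degSet D}
        = ⋃ l ∈ (Finset.range k).finsuppAntidiag n,
          ({ω | ω [] = k} ∩ ⋂ i ∈ Finset.range k, (sub i) ⁻¹' (evt D (l i))) := by
      ext ω
      simp only [mem_ofPred_eq, mem_iUnion, exists_prop, mem_inter_iff, mem_iInter, mem_preimage,
        Finset.mem_range, evt]
      rw [sum_eq_natCast_iff (fun i => numVertices (sub i ω))]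
      constructor
      · rintro ⟨⟨h1, l, hl, h2⟩, h3⟩
        exact ⟨l, hl, h1, fun i hi => ⟨h2 i hi, h3 i hi⟩⟩
      · rintro ⟨l, hl, h1, h2⟩
        exact ⟨⟨h1, l, hl, fun i hi => (h2 i hi).1⟩, fun i hi => (h2 i hi).2⟩
    rw [hset]
    refine MeasurableSet.biUnion (Finset.countable_toSet _) fun l _ => ?_
    refine MeasurableSet.inter ?_ ?_
    · have h : Measurable fun ω : List ℕ → ℕ => ω [] := by fun_prop
      exact h (measurableSet_singleton k)
    · exact MeasurableSet.biInter (Finset.countable_toSet _) fun i _ =>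
        measurable_sub i (measurableSet_evt _ _)
  rw [hset, measureReal_biUnion_finset]
  · refine Finset.sum_congr rfl fun k _ => ?_
    unfold wD
    by_cases hk : k ∈ D
    · rw [if_pos hk, ← measure_root_and_sumD μ D k n]
      congr 1
      ext ω
      simp [hk]
    · rw [if_neg hk, zero_mul]
      have : ({ω : List ℕ → ℕ | k ∈ D} ∩
        {ω | (ω [] = k ∧ ∑ i ∈ Finset.range k, numVertices (sub i ω) = (n : ℕ∞)) ∧
          ∀ i < k, sub i ω ∈ degSet D}) = ∅ := by
        ext ω
        simp [hk]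
      rw [this]
      simp
  · intro k _ k' _ hne
    rw [Function.onFun, Set.disjoint_left]
    rintro ω ⟨_, h1, _⟩ ⟨_, h2, _⟩
    exact hne (h1.1.symm.trans h2.1)
  · intro k _
    exact (MeasurableSet.const _).inter (hmeas k)

lemma progenySeriesD (μ : PMF ℕ) (D : Set ℕ) : ProgenySeries (wD μ D) (progSeriesD μ D) where
  m_nonneg := fun k => by
    unfold wD
    split_ifs
    · exact ENNReal.toReal_nonneg
    · exact le_rfl
  F_nonneg := fun n => by
    rw [progSeriesD, PowerSeries.coeff_mk]; exact measureReal_nonneg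
  F_zero := by rw [progSeriesD, PowerSeries.coeff_mk]; exact progD_zero μ D
  F_succ := fun n => by
    conv_lhs => rw [progSeriesD, PowerSeries.coeff_mk]
    exact progD_succ μ D n
  F_sum := fun N => by
    have h1 : ∑ n ∈ Finset.range N, PowerSeries.coeff n (progSeriesD μ D)
        = (gw μ).real (⋃ n ∈ Finset.range N, evt D n) := by
      rw [measureReal_biUnion_finset]
      · refine Finset.sum_congr rfl fun n _ => ?_
        rw [progSeriesD, PowerSeries.coeff_mk, progD]
      · intro a _ b _ hab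
        rw [Function.onFun, Set.disjoint_left]
        rintro ω ⟨h1, _⟩ ⟨h2, _⟩
        simp only [mem_ofPred_eq] at h1 h2
        rw [h1] at h2
        exact hab (by exact_mod_cast h2)
      · intro n _
        exact measurableSet_evt D n
    rw [h1]
    exact measureReal_le_one

end Pool.Agent.Work.MP_d1698a_pr
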