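import Pool.Agent.Work.MP_d1698a_pr.Height

set_option autoImplicit false

open MeasureTheory ProbabilityTheory Filter Set
open scoped ENNReal Topology

namespace Pool.Agent.Work.MP_d1698a_pr

/-- Width of the tree: the largest number of vertices of a generation (used only for finite
trees). -/
noncomputable def width (ω : List ℕ → ℕ) : ℕ :=
  sSup (Set.range fun h : ℕ => {v | v ∈ tree ω ∧ v.length = h}.ncard)

lemma append_mem_tree {ω : List ℕ → ℕ} {v : List ℕ} (hv : v ∈ tree ω) {i : ℕ} (hi : i < ω v) :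
    v ++ [i] ∈ tree ω := by
  intro u k hk
  rw [List.prefix_concat_iff] at hk
  rcases hk with h | h
  · have h1 := List.append_inj' h rfl
    obtain ⟨h2, h3⟩ := h1
    subst h2
    have : k = i := by simpa using h3
    rw [this]; exact hi
  · exact hv u k h

lemma finite_tree {ω : List ℕ → ℕ} {n : ℕ} (hn : numVertices ω = (n : ℕ∞)) : (tree ω).Finite := by
  rw [← Set.encard_ne_top_iff]
  unfold numVertices at hn
  rw [hn]
  simp

lemma degree_le_width {ω : List ℕ → ℕ} {n : ℕ} (hn : numVertices ω = (n : ℕ∞)) {v : List ℕ}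
    (hv : v ∈ tree ω) : ω v ≤ width ω := by
  have hfin := finite_tree hn
  have hbdd : BddAbove (Set.range fun h : ℕ => {v | v ∈ tree ω ∧ v.length = h}.ncard) := by
    refine ⟨(tree ω).ncard, ?_⟩
    rintro x ⟨h, rfl⟩
    exact Set.ncard_le_ncard (fun v hv => hv.1) hfin
  refine le_trans ?_ (le_csSup hbdd ⟨v.length + 1, rfl⟩)
  have himg : (fun i => v ++ [i]) '' (Finset.range (ω v) : Set ℕ)
      ⊆ {u | u ∈ tree ω ∧ u.length = v.length + 1} := by
    rintro u ⟨i, hi, rfl⟩
    simp only [Finset.coe_range, mem_Iio] at hi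
    exact ⟨append_mem_tree hv hi, by simp⟩
  have h1 := Set.ncard_le_ncard himg (hfin.subset fun u hu => hu.1)
  rw [Set.ncard_image_of_injective _ (fun a b hab => by simpa using hab),
    Set.ncard_coe_finset, Finset.card_range] at h1
  exact h1

/-- one generation step, using the whole tail of the offspring law -/
lemma step_bound_tail (m : ℕ → ℝ) (hm0 : ∀ k, 0 ≤ m k) (h1 : HasSum m 1)
    (h2 : HasSum (fun k : ℕ => (k : ℝ) * m k) 1) (q : ℝ) (hq0 : 0 ≤ q) (hq1 : q ≤ 1)
    (s : Finset ℕ) (hs : ∀ k ∈ s, 2 ≤ k * q) :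
    1 - ∑' k, m k * (1 - q) ^ k ≤ q * (1 - (∑ k ∈ s, k * m k) / 2) := by
  have hq1' : 0 ≤ 1 - q := by linarith
  have hsum3 : Summable fun k => m k * (1 - q) ^ k := by
    refine Summable.of_nonneg_of_le (fun k => mul_nonneg (hm0 k) (pow_nonneg hq1' k)) ?_ h1.summable
    intro k
    calc m k * (1 - q) ^ k ≤ m k * 1 :=
          mul_le_mul_of_nonneg_left (pow_le_one₀ hq1' (by linarith)) (hm0 k)
      _ = m k := mul_one _
  have hs' : HasSum (fun k : ℕ => m k * (k * q - 1 + (1 - q) ^ k))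
      (q * 1 - 1 + ∑' k, m k * (1 - q) ^ k) := by
    have := ((h2.mul_left q).sub h1).add hsum3.hasSum
    refine this.congr_fun ?_ |> fun h => h
    intro k
    ring
  have hterm : ∀ k : ℕ, 0 ≤ m k * (k * q - 1 + (1 - q) ^ k) := by
    intro k
    refine mul_nonneg (hm0 k) ?_
    have hb := one_add_mul_le_pow (show (-2 : ℝ) ≤ -q by linarith) k
    have : (1 + -q) ^ k = (1 - q) ^ k := by ring
    rw [this] at hb
    nlinarith
  have hle : ∑ k ∈ s, m k * (k * q - 1 + (1 - q) ^ k) ≤ q * 1 - 1 + ∑' k, m k * (1 - q) ^ k := by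
    exact sum_le_hasSum s (fun j _ => hterm j) hs'
  have hk : ∑ k ∈ s, m k * (k * q / 2) ≤ ∑ k ∈ s, m k * (k * q - 1 + (1 - q) ^ k) := by
    refine Finset.sum_le_sum fun k hk => mul_le_mul_of_nonneg_left ?_ (hm0 k)
    have := pow_nonneg hq1' k
    have := hs k hk
    linarith
  have he : ∑ k ∈ s, m k * (k * q / 2) = q * ((∑ k ∈ s, k * m k) / 2) := by
    rw [Finset.sum_div, Finset.mul_sum]
    refine Finset.sum_congr rfl fun k _ => by ring
  rw [he] at hk
  nlinarith

end Pool.Agent.Work.MP_d1698a_pr
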