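import Pool.Agent.Work.MP_d1698a_pr.Offspring2
import Pool.Agent.Work.MP_d1698a_pr.Width
import Pool.Agent.Work.MP_d1698a_pr.Lagrange
import Pool.Agent.Work.MP_d1698a_pr.PolyBound
import Pool.Agent.Work.MP_d1698a_pr.Restrict

set_option autoImplicit false

open MeasureTheory ProbabilityTheory Filter Set
open scoped ENNReal Topology

namespace Pool.Agent.Work.MP_d1698a_pr

lemma hasSum_one (μ : PMF ℕ) : HasSum (fun k => (μ k).toReal) 1 := by
  have h1 := ENNReal.hasSum_toReal (f := fun k => μ k) (by rw [PMF.tsum_coe]; simp)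
  rwa [← ENNReal.tsum_toReal_eq (fun k => PMF.apply_ne_top μ k), PMF.tsum_coe,
    ENNReal.toReal_one] at h1

lemma hasSum_mean (μ : PMF ℕ) (hcrit : IsCritical μ) :
    HasSum (fun k : ℕ => (k : ℝ) * (μ k).toReal) 1 := by
  have h1 := ENNReal.hasSum_toReal (f := fun k : ℕ => (k : ℝ≥0∞) * μ k)
    (by rw [hcrit.1]; simp)
  rw [← ENNReal.tsum_toReal_eq
    (fun k => ENNReal.mul_ne_top (ENNReal.natCast_ne_top k) (PMF.apply_ne_top μ k)), hcrit.1,
    ENNReal.toReal_one] at h1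
  simpa [ENNReal.toReal_mul] using h1

/-- lower bound for the renewal mass by the tail of the offspring law -/
lemma tail_le_renewal (m : ℕ → ℝ) (hm0 : ∀ k, 0 ≤ m k) (hs1 : HasSum m 1)
    (hs2 : HasSum (fun k : ℕ => (k : ℝ) * m k) 1) (n : ℕ) (s : Finset ℕ)
    (hs : ∀ k ∈ s, n + 1 ≤ k) :
    ∑ k ∈ s, ((k : ℝ) - n) * m k
      ≤ 1 - ∑ i ∈ Finset.range n, (1 - ∑ j ∈ Finset.range (i + 1), m j) := by
  have e1 : ∀ N : ℕ, ∑ i ∈ Finset.range N, (1 - ∑ j ∈ Finset.range (i + 1), m j)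
      = N - ∑ j ∈ Finset.range (N + 1), ((N : ℝ) - j) * m j := by
    intro N
    induction N with
    | zero => simp
    | succ N ih =>
      rw [Finset.sum_range_succ, ih]
      rw [Finset.sum_range_succ (fun j => (((N + 1 : ℕ) : ℝ) - j) * m j) (N + 1)]
      have : ∑ j ∈ Finset.range (N + 1), (((N + 1 : ℕ) : ℝ) - j) * m j
          = ∑ j ∈ Finset.range (N + 1), ((N : ℝ) - j) * m j
            + ∑ j ∈ Finset.range (N + 1), m j := by
        rw [← Finset.sum_add_distrib]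
        refine Finset.sum_congr rfl fun j _ => ?_
        push_cast
        ring
      rw [this]
      push_cast
      ring
  rw [e1 n]
  have hs3 : HasSum (fun j : ℕ => ((j : ℝ) - n) * m j) (1 - n * 1) := by
    have := hs2.sub (hs1.mul_left (n : ℝ))
    refine this.congr_fun ?_ |> fun h => h
    intro j
    ring
  have hle := sum_le_hasSum (Finset.range (n + 1) ∪ s) (fun i hi => ?_) hs3
  · rw [Finset.sum_union] at hle
    · have hneg : ∑ j ∈ Finset.range (n + 1), ((n : ℝ) - j) * m j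
          = - ∑ j ∈ Finset.range (n + 1), ((j : ℝ) - n) * m j := by
        rw [← Finset.sum_neg_distrib]
        refine Finset.sum_congr rfl fun j _ => by ring
      rw [hneg]
      linarith
    · rw [Finset.disjoint_left]
      intro k hk hk'
      have := hs k hk'
      rw [Finset.mem_range] at hk
      omega
  · simp only [Finset.mem_union, Finset.mem_range, not_or, not_lt] at hi
    refine mul_nonneg ?_ (hm0 i)
    have : ((n + 1 : ℕ) : ℝ) ≤ i := by exact_mod_cast hi.1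
    push_cast at this
    linarith

/-- truncated generating polynomial -/
noncomputable def gpoly (m : ℕ → ℝ) (M : ℕ) : Polynomial ℝ :=
  ∑ k ∈ Finset.range M, Polynomial.monomial k (m k)

lemma gpoly_coeff (m : ℕ → ℝ) (M k : ℕ) : (gpoly m M).coeff k = if k < M then m k else 0 := by
  unfold gpoly
  rw [Polynomial.finsetSum_coeff]
  simp only [Polynomial.coeff_monomial]
  rw [Finset.sum_ite_eq' (Finset.range M) k m]
  simp

lemma gpoly_eval (m : ℕ → ℝ) (M : ℕ) (r : ℝ) :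
    (gpoly m M).eval r = ∑ k ∈ Finset.range M, m k * r ^ k := by
  unfold gpoly
  rw [Polynomial.eval_finsetSum]
  simp

lemma progD_eq (μ : PMF ℕ) (M n : ℕ) :
    ((n + 1 : ℕ) : ℝ) * progD μ {k | k < M} (n + 1)
      = ((gpoly (fun k => (μ k).toReal) M) ^ (n + 1)).coeff n := by
  have h := (progenySeriesD μ {k | k < M}).otter_dwass n
  rw [progSeriesD, PowerSeries.coeff_mk] at h
  rw [h]
  have e : (PowerSeries.mk (wD μ {k | k < M}))
      = ((gpoly (fun k => (μ k).toReal) M : Polynomial ℝ) : PowerSeries ℝ) := by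
    ext k
    rw [PowerSeries.coeff_mk, Polynomial.coeff_coe, gpoly_coeff]
    unfold wD
    simp only [mem_ofPred_eq]
    split_ifs <;> rfl
  rw [e, ← Polynomial.coe_pow, Polynomial.coeff_coe]

lemma gpoly_eval_le (m : ℕ → ℝ) (hm0 : ∀ k, 0 ≤ m k) (hs1 : HasSum m 1)
    (hs2 : HasSum (fun k : ℕ => (k : ℝ) * m k) 1) (M : ℕ) (s : Finset ℕ)
    (hs : ∀ k ∈ s, M ≤ k) (t : ℝ) (ht : 0 ≤ t) :
    (gpoly m M).eval (1 + t) ≤ 1 + t - t * (∑ k ∈ s, (k : ℝ) * m k)
      + t ^ 2 / 2 * (1 + t) ^ M * ∑ k ∈ Finset.range M, (k : ℝ) ^ 2 * m k := by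
  rw [gpoly_eval]
  have h1 : ∑ k ∈ Finset.range M, m k ≤ 1 := sum_le_hasSum _ (fun k _ => hm0 k) hs1
  have h2 : ∑ k ∈ Finset.range M, (k : ℝ) * m k + ∑ k ∈ s, (k : ℝ) * m k ≤ 1 := by
    rw [← Finset.sum_union]
    · exact sum_le_hasSum _ (fun k _ => mul_nonneg (Nat.cast_nonneg k) (hm0 k)) hs2
    · rw [Finset.disjoint_left]
      intro k hk hk'
      have := hs k hk'
      rw [Finset.mem_range] at hk
      omega
  have h3 : ∀ k ∈ Finset.range M, m k * (1 + t) ^ k
      ≤ m k + t * ((k : ℝ) * m k) + t ^ 2 / 2 * (1 + t) ^ M * ((k : ℝ) ^ 2 * m k) := by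
    intro k hk
    rw [Finset.mem_range] at hk
    have h4 := pow_le_second_order ht k
    have h5 : (1 + t) ^ k ≤ (1 + t) ^ M := pow_le_pow_right₀ (by linarith) hk.le
    have h6 : (k : ℝ) ^ 2 / 2 * t ^ 2 * (1 + t) ^ k ≤ (k : ℝ) ^ 2 / 2 * t ^ 2 * (1 + t) ^ M :=
      mul_le_mul_of_nonneg_left h5 (by positivity)
    calc m k * (1 + t) ^ k
        ≤ m k * (1 + k * t + (k : ℝ) ^ 2 / 2 * t ^ 2 * (1 + t) ^ M) :=
          mul_le_mul_of_nonneg_left (by linarith) (hm0 k)
      _ = _ := by ring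
  refine (Finset.sum_le_sum h3).trans ?_
  rw [Finset.sum_add_distrib, Finset.sum_add_distrib, ← Finset.mul_sum, ← Finset.mul_sum]
  nlinarith

/-- local bound for the truncated law, from a monotone plateau -/
lemma gpoly_local (m : ℕ → ℝ) (hm0 : ∀ k, 0 ≤ m k) (hs1 : HasSum m 1)
    (hanti : ∀ k l : ℕ, 1 ≤ k → k ≤ l → m l ≤ m k) (M K : ℕ) (hK : 1 ≤ K) (hKM : K < M)
    (hmK : 0 < m K) (N x : ℕ) :
    ((gpoly m M) ^ N).coeff x ≤ (1 - K * m K) ^ N + 1 / K := by
  classical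
  have hK0 : (0 : ℝ) < K := by exact_mod_cast hK
  set b : Polynomial ℝ := ∑ k ∈ Finset.Icc 1 K, Polynomial.monomial k (m K) with hb
  have hbc : ∀ k, b.coeff k = if 1 ≤ k ∧ k ≤ K then m K else 0 := by
    intro k
    rw [hb, Polynomial.finsetSum_coeff]
    simp only [Polynomial.coeff_monomial]
    rw [Finset.sum_ite_eq' (Finset.Icc 1 K) k (fun _ => m K)]
    simp
  set p := gpoly m M with hp
  have hsum1 : ∑ k ∈ Finset.range M, m k ≤ 1 := sum_le_hasSum _ (fun k _ => hm0 k) hs1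
  have hpe : p.eval 1 = ∑ k ∈ Finset.range M, m k := by
    rw [hp, gpoly_eval]; simp
  have hbe : b.eval 1 = K * m K := by
    rw [hb, Polynomial.eval_finsetSum]; simp
  have hKm1 : K * m K ≤ 1 := by
    rw [← hbe]
    refine le_trans ?_ hsum1
    rw [hb, Polynomial.eval_finsetSum]
    simp only [Polynomial.eval_monomial, one_pow, mul_one]
    calc ∑ k ∈ Finset.Icc 1 K, m K ≤ ∑ k ∈ Finset.Icc 1 K, m k := by
          refine Finset.sum_le_sum fun k hk => ?_
          rw [Finset.mem_Icc] at hk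
          exact hanti k K hk.1 hk.2
      _ ≤ ∑ k ∈ Finset.range M, m k := by
          apply Finset.sum_le_sum_of_subset_of_nonneg
          · intro k hk
            rw [Finset.mem_Icc] at hk
            rw [Finset.mem_range]
            omega
          · intro k _ _; exact hm0 k
  have hKmpos : 0 < K * m K := by positivity
  have := local_bound (p := p) (s := p - b) (b := b) (B := m K) (γ := 1 - K * m K)
    (by ring) ?_ ?_ ?_ hmK.le (by linarith) (by linarith) ?_ ?_ N x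
  · refine this.trans (le_of_eq ?_)
    congr 1
    rw [sub_sub_cancel]
    field_simp
  · intro k
    rw [Polynomial.coeff_sub, hbc, hp, gpoly_coeff]
    split_ifs with h1 h2 h2
    · have := hanti k K h2.1 h2.2
      linarith
    · simpa using hm0 k
    · omega
    · simp
  · intro k
    rw [hbc]
    split_ifs
    · exact hmK.le
    · exact le_rfl
  · intro k
    rw [hbc]
    split_ifs
    · exact le_rfl
    · exact hmK.le
  · rw [Polynomial.eval_sub, hpe, hbe]
    linarith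
  · rw [hpe]; exact hsum1

/-- numerical facts used below -/
lemma numFacts (n j : ℕ) (hj : 5 ≤ j) (hv : (8 : ℝ) ^ (j + 1) ≤ Real.log (Real.log n))
    (hn : 4 ≤ n) :
    262144 ≤ Real.log (Real.log n) ∧ 1 < Real.log n ∧
      Real.exp (Real.log (Real.log n)) = Real.log n ∧
      Real.log (Real.log n) ^ 2 / 2 ≤ Real.log n ∧ Real.log n ^ 2 / 2 ≤ n ∧
      2 * Real.log n ^ 4 ≤ n := by
  have hn0 : (0 : ℝ) < n := by exact_mod_cast (by omega : 0 < n)
  obtain ⟨L, hL⟩ : ∃ L, L = Real.log n := ⟨_, rfl⟩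
  obtain ⟨v, hvdef⟩ : ∃ v, v = Real.log L := ⟨_, rfl⟩
  rw [← hL, ← hvdef] at hv ⊢
  have h8big : (262144 : ℝ) ≤ 8 ^ (j + 1) := by
    calc (262144 : ℝ) = 8 ^ 6 := by norm_num
      _ ≤ 8 ^ (j + 1) := pow_le_pow_right₀ (by norm_num) (by omega)
  have hvbig : (262144 : ℝ) ≤ v := h8big.trans hv
  have hL1 : 1 < L := by
    by_contra hcon
    push Not at hcon
    have : v ≤ 0 := by
      rcases le_or_gt L 0 with h | h
      · have hL0 : L = 0 := le_antisymm h (by rw [hL]; exact Real.log_natCast_nonneg n)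
        rw [hvdef, hL0, Real.log_zero]
      · rw [hvdef]
        exact Real.log_nonpos h.le hcon
    linarith
  have hLpos : 0 < L := by linarith
  have hLv : Real.exp v = L := by rw [hvdef]; exact Real.exp_log hLpos
  have hnL : Real.exp L = n := by rw [hL]; exact Real.exp_log hn0
  have hLv2 : v ^ 2 / 2 ≤ L := by
    have := Real.pow_div_factorial_le_exp v (by linarith) 2
    rw [hLv] at this
    simpa using this
  have hLbig : 4 * v + 4 ≤ L := by nlinarith
  have hnL2 : L ^ 2 / 2 ≤ n := by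
    have := Real.pow_div_factorial_le_exp L (by linarith) 2
    rw [hnL] at this
    simpa using this
  refine ⟨hvbig, hL1, hLv, hLv2, hnL2, ?_⟩
  have h1 : Real.exp (4 * v + 1) ≤ Real.exp L := Real.exp_le_exp.2 (by linarith)
  rw [hnL, Real.exp_add] at h1
  have h2 : Real.exp (4 * v) = L ^ 4 := by
    rw [← hLv, ← Real.exp_nat_mul]
    congr 1
  rw [h2] at h1
  have h3 : (2 : ℝ) ≤ Real.exp 1 := by
    have := Real.exp_one_gt_d9; linarith
  have h4 : 0 < L ^ 4 := by positivity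
  nlinarith

lemma plateau_bound (m : ℕ → ℝ) (hm0 : ∀ k, 0 ≤ m k) (hs1 : HasSum m 1)
    (hanti : ∀ k l : ℕ, 1 ≤ k → k ≤ l → m l ≤ m k)
    (hlow : ∀ k : ℕ, 2 ≤ k → 1 / (64 * (k : ℝ) ^ 2 * Real.log k ^ 2) ≤ m k)
    (n M : ℕ) (L v : ℝ) (hn0 : (0 : ℝ) < n) (hL : L = Real.log n) (hL1 : 1 < L)
    (hL192 : 192 ≤ L) (hv0 : 0 < v) (hvL : v < L ^ 4)
    (hL4 : 2 * L ^ 4 ≤ n) (hMn : (n : ℝ) / v ≤ M) (N : ℕ) (hN : (n : ℝ) / 3 ≤ N) (x : ℕ) :
    ((gpoly m M) ^ N).coeff x ≤ 3 * L ^ 4 / n := by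
  have hnL : Real.exp L = n := by rw [hL]; exact Real.exp_log hn0
  have hL4pos : 0 < L ^ 4 := by positivity
  have hx2 : 2 ≤ (n : ℝ) / L ^ 4 := by rwa [le_div_iff₀ hL4pos]
  obtain ⟨K, hK⟩ : ∃ K, K = ⌊(n : ℝ) / L ^ 4⌋₊ := ⟨_, rfl⟩
  have hK2 : 2 ≤ K := by rw [hK]; exact Nat.le_floor (by exact_mod_cast hx2)
  have hK1 : (K : ℝ) ≤ n / L ^ 4 := by rw [hK]; exact Nat.floor_le (by positivity)
  have hK3 : (n : ℝ) / L ^ 4 ≤ 2 * K := by
    have h1 : (n : ℝ) / L ^ 4 < K + 1 := by rw [hK]; exact Nat.lt_floor_add_one _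
    have h2 : (2 : ℝ) ≤ K := by exact_mod_cast hK2
    linarith
  have hKpos : (0 : ℝ) < K := by exact_mod_cast (by omega : 0 < K)
  have hKM : K < M := by
    have h1 : (K : ℝ) < M := by
      refine lt_of_le_of_lt hK1 (lt_of_lt_of_le ?_ hMn)
      gcongr
    exact_mod_cast h1
  have hmK := hlow K hK2
  have hlogK0 : 0 < Real.log K := Real.log_pos (by exact_mod_cast (by omega : 1 < K))
  have hlogK : Real.log K ≤ L := by
    rw [hL]
    apply Real.log_le_log hKpos
    refine hK1.trans ?_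
    rw [div_le_iff₀ hL4pos]
    have : 1 ≤ L ^ 4 := one_le_pow₀ hL1.le
    nlinarith
  have hmKpos : 0 < m K := lt_of_lt_of_le (by positivity) hmK
  have hKm : L ^ 2 / (64 * n) ≤ K * m K := by
    calc L ^ 2 / (64 * n) = 1 / (64 * (n / L ^ 4) * L ^ 2) := by field_simp
      _ ≤ 1 / (64 * K * Real.log K ^ 2) := by
          apply one_div_le_one_div_of_le (by positivity)
          gcongr
      _ = K * (1 / (64 * (K : ℝ) ^ 2 * Real.log K ^ 2)) := by field_simp
      _ ≤ K * m K := mul_le_mul_of_nonneg_left hmK hKpos.le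
  refine (gpoly_local m hm0 hs1 hanti M K (by omega) hKM hmKpos N x).trans ?_
  have h1 : (1 - K * m K) ^ N ≤ 1 / n := by
    have h0 : 0 ≤ 1 - K * m K := by
      have h2 : K * m K ≤ 1 := by
        have h3 : ∑ k ∈ Finset.Icc 1 K, m k ≤ 1 := sum_le_hasSum _ (fun k _ => hm0 k) hs1
        refine le_trans ?_ h3
        calc (K : ℝ) * m K = ∑ k ∈ Finset.Icc 1 K, m K := by simp
          _ ≤ _ := by
            refine Finset.sum_le_sum fun k hk => ?_
            rw [Finset.mem_Icc] at hk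
            exact hanti k K hk.1 hk.2
      linarith
    calc (1 - K * m K) ^ N ≤ (Real.exp (-(K * m K))) ^ N := by
          apply pow_le_pow_left₀ h0
          have := Real.add_one_le_exp (-(K * m K))
          linarith
      _ = Real.exp (-(N * (K * m K))) := by
          rw [← Real.exp_nat_mul]; congr 1; ring
      _ ≤ Real.exp (-L) := by
          apply Real.exp_le_exp.2
          have h2 : (n : ℝ) / 3 * (L ^ 2 / (64 * n)) ≤ N * (K * m K) := by
            apply mul_le_mul hN hKm (by positivity) (by positivity)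
          have h3 : (n : ℝ) / 3 * (L ^ 2 / (64 * n)) = L ^ 2 / 192 := by field_simp; norm_num
          rw [h3] at h2
          nlinarith
      _ = 1 / n := by rw [Real.exp_neg, hnL, one_div]
  have h2 : 1 / (K : ℝ) ≤ 2 * L ^ 4 / n := by
    rw [div_le_div_iff₀ hKpos hn0]
    rw [div_le_iff₀ hL4pos] at hK3
    linarith
  have h3 : 1 / (n : ℝ) ≤ L ^ 4 / n := by
    gcongr
    exact one_le_pow₀ hL1.le
  calc (1 - K * m K) ^ N + 1 / K ≤ L ^ 4 / n + 2 * L ^ 4 / n := by linarith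
    _ = 3 * L ^ 4 / n := by ring

lemma tilt_bound (m : ℕ → ℝ) (hm0 : ∀ k, 0 ≤ m k) (hs1 : HasSum m 1)
    (hs2 : HasSum (fun k : ℕ => (k : ℝ) * m k) 1) (M : ℕ) (L v l E : ℝ)
    (hM1 : (0 : ℝ) < M) (hv0 : 0 < v) (hvM : v ≤ 4 * M) (hE0 : 0 < E) (hE : E = Real.exp (v / 4))
    (hE4 : E ^ 4 = L) (hL0 : 0 < L) (hE3 : v ^ 2 ≤ 2 * E ^ 3) (hHM : L / 2 ≤ hr M)
    (hQ : ∑ k ∈ Finset.range M, (k : ℝ) ^ 2 * m k ≤ M / hr M) (hlv : 1 / v ≤ l) (s : Finset ℕ)
    (hMs : ∀ k ∈ s, M ≤ k) (hsl : l ≤ ∑ k ∈ s, (k : ℝ) * m k) :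
    0 ≤ (gpoly m M).eval (1 + v / (4 * M)) / (1 + v / (4 * M)) ∧
    (gpoly m M).eval (1 + v / (4 * M)) / (1 + v / (4 * M))
      ≤ Real.exp (-(v / (4 * M) * l / 4)) := by
  obtain ⟨t, ht⟩ : ∃ t, t = v / (4 * (M : ℝ)) := ⟨_, rfl⟩
  rw [← ht]
  have ht0 : 0 ≤ t := by rw [ht]; positivity
  have htM : t * M = v / 4 := by rw [ht]; field_simp
  have ht1 : t ≤ 1 := by
    rw [ht, div_le_one (by positivity)]
    exact hvM
  have hlpos : 0 < l := lt_of_lt_of_le (by positivity) hlv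
  have hpow : (1 + t) ^ M ≤ E := by
    calc (1 + t) ^ M ≤ (Real.exp t) ^ M := by
          apply pow_le_pow_left₀ (by linarith)
          have := Real.add_one_le_exp t
          linarith
      _ = E := by
          rw [← Real.exp_nat_mul, hE, mul_comm, htM]
  have heval : (gpoly m M).eval (1 + t) ≤ (1 + t) - t * l / 2 := by
    have h1 := gpoly_eval_le m hm0 hs1 hs2 M s hMs t ht0
    have h2 : t * l ≤ t * ∑ k ∈ s, (k : ℝ) * m k := mul_le_mul_of_nonneg_left hsl ht0
    have h3 : t ^ 2 / 2 * (1 + t) ^ M * ∑ k ∈ Finset.range M, (k : ℝ) ^ 2 * m k ≤ t * l / 2 := by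
      calc t ^ 2 / 2 * (1 + t) ^ M * ∑ k ∈ Finset.range M, (k : ℝ) ^ 2 * m k
          ≤ t ^ 2 / 2 * E * (M / hr M) := by
            apply mul_le_mul _ hQ _ (by positivity)
            · exact mul_le_mul_of_nonneg_left hpow (by positivity)
            · exact Finset.sum_nonneg fun k _ => mul_nonneg (by positivity) (hm0 k)
        _ ≤ t ^ 2 / 2 * E * (M / (L / 2)) := by
            gcongr
        _ = t / 2 * ((t * M) * E * 2 / L) := by
            field_simp
        _ = t / 2 * (v * E / (2 * L)) := by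
            rw [htM]; ring
        _ ≤ t / 2 * l := by
            refine mul_le_mul_of_nonneg_left ?_ (by positivity)
            refine le_trans ?_ hlv
            rw [← hE4, div_le_div_iff₀ (by positivity) (by linarith)]
            have : 2 * E ^ 4 = 2 * E ^ 3 * E := by ring
            rw [one_mul, this]
            nlinarith
        _ = t * l / 2 := by ring
    linarith
  constructor
  · apply div_nonneg _ (by linarith)
    rw [gpoly_eval]
    exact Finset.sum_nonneg fun k _ => mul_nonneg (hm0 k) (by positivity)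
  · have h1 : (gpoly m M).eval (1 + t) / (1 + t) ≤ 1 - t * l / 4 := by
      rw [div_le_iff₀ (by linarith)]
      nlinarith [mul_nonneg (mul_nonneg ht0 hlpos.le) (sub_nonneg.2 ht1)]
    have h2 := Real.add_one_le_exp (-(t * l / 4))
    linarith

/-- Total mass of trees with `n` vertices and all degrees below `n / 8^(j+1)`. -/
lemma progD_bound (μ : PMF ℕ) (hcrit : IsCritical μ)
    (hanti : ∀ k l : ℕ, 1 ≤ k → k ≤ l → (μ l).toReal ≤ (μ k).toReal)
    (hlow : ∀ k : ℕ, 2 ≤ k → 1 / (64 * (k : ℝ) ^ 2 * Real.log k ^ 2) ≤ (μ k).toReal)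
    (hQ : ∀ M : ℕ, 1 ≤ M → ∑ k ∈ Finset.range M, (k : ℝ) ^ 2 * (μ k).toReal ≤ M / hr M)
    (n j : ℕ) (hj : 5 ≤ j) (hv : (8 : ℝ) ^ (j + 1) ≤ Real.log (Real.log n)) (s : Finset ℕ)
    (hs : ∀ k ∈ s, 2 * n ^ 3 ≤ k)
    (hsl : 1 / (2 : ℝ) ^ (j + 3) ≤ ∑ k ∈ s, (k : ℝ) * (μ k).toReal) (hn : 4 ≤ n) :
    progD μ {k | k < ⌈(n : ℝ) / 8 ^ (j + 1)⌉₊} n ≤ 6 / ((n : ℝ) ^ 2 * Real.log n ^ 4) := by
  obtain ⟨hvbig, hL1, hLv, hLv2, hnL2, hL4⟩ := numFacts n j hj hv hn
  have hs1 := hasSum_one μ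
  have hs2 := hasSum_mean μ hcrit
  obtain ⟨m, hm⟩ : ∃ m : ℕ → ℝ, m = fun k => (μ k).toReal := ⟨_, rfl⟩
  have hm0 : ∀ k, 0 ≤ m k := fun k => by rw [hm]; exact ENNReal.toReal_nonneg
  obtain ⟨L, hL⟩ : ∃ L, L = Real.log n := ⟨_, rfl⟩
  obtain ⟨v, hvdef⟩ : ∃ v, v = Real.log L := ⟨_, rfl⟩
  rw [← hL] at hv hvbig hL1 hLv hLv2 hnL2 hL4 ⊢
  rw [← hvdef] at hv hvbig hLv hLv2
  have hn0 : (0 : ℝ) < n := by exact_mod_cast (by omega : 0 < n)
  have hLpos : 0 < L := by linarith
  have h8pos : (0 : ℝ) < 8 ^ (j + 1) := by positivity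
  have hLbig : 4 * v + 4 ≤ L := by nlinarith
  have hv_le_n : v ≤ n := by nlinarith
  obtain ⟨E, hE⟩ : ∃ E, E = Real.exp (v / 4) := ⟨_, rfl⟩
  have hEpos : 0 < E := by rw [hE]; exact Real.exp_pos _
  have hE4 : E ^ 4 = L := by
    rw [hE, ← Real.exp_nat_mul, ← hLv]
    congr 1
    push_cast
    ring
  have hE3 : v ^ 2 ≤ 2 * E ^ 3 := by
    have h1 := Real.pow_div_factorial_le_exp (3 * v / 4) (by linarith) 3
    have h2 : Real.exp (3 * v / 4) = E ^ 3 := by
      rw [hE, ← Real.exp_nat_mul]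
      congr 1
      push_cast
      ring
    rw [h2] at h1
    have h3 : ((Nat.factorial 3 : ℕ) : ℝ) = 6 := by norm_num [Nat.factorial]
    rw [h3] at h1
    nlinarith [sq_nonneg v]
  -- the truncation level
  obtain ⟨M, hM⟩ : ∃ M, M = ⌈(n : ℝ) / 8 ^ (j + 1)⌉₊ := ⟨_, rfl⟩
  rw [← hM]
  have hM1 : (n : ℝ) / 8 ^ (j + 1) ≤ M := by rw [hM]; exact Nat.le_ceil _
  have hM2 : (M : ℝ) ≤ 2 * n / 8 ^ (j + 1) := by
    have h1 : (M : ℝ) < n / 8 ^ (j + 1) + 1 := by
      rw [hM]; exact Nat.ceil_lt_add_one (by positivity)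
    have h2 : (1 : ℝ) ≤ n / 8 ^ (j + 1) := by
      rw [le_div_iff₀ h8pos]
      linarith
    have h3 : 2 * (n : ℝ) / 8 ^ (j + 1) = n / 8 ^ (j + 1) + n / 8 ^ (j + 1) := by ring
    rw [h3]
    linarith
  have hMpos : (0 : ℝ) < M := lt_of_lt_of_le (by positivity) hM1
  have hM1' : 1 ≤ M := by exact_mod_cast Nat.one_le_iff_ne_zero.2 (by
    intro h; rw [h] at hMpos; simp at hMpos)
  have hMn : (n : ℝ) / v ≤ M := by
    refine le_trans ?_ hM1
    gcongr
  have hlogM : L / 2 ≤ Real.log M := by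
    have h1 : Real.log (n / v) ≤ Real.log M := Real.log_le_log (by positivity) hMn
    rw [Real.log_div (by positivity) (by linarith), ← hL] at h1
    have h2 : Real.log v ≤ v := (Real.log_le_sub_one_of_pos (by linarith)).trans (by linarith)
    linarith
  have hHM : L / 2 ≤ hr M := hlogM.trans (log_le_hr hM1')
  have hvM : v ≤ 4 * M := by
    have h1 : v ≤ 4 * (n / v) := by
      rw [mul_div_assoc', le_div_iff₀ (by linarith)]
      nlinarith
    linarith
  obtain ⟨l, hl⟩ : ∃ l : ℝ, l = 1 / 2 ^ (j + 3) := ⟨_, rfl⟩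
  rw [← hl] at hsl
  have hlpos : 0 < l := by rw [hl]; positivity
  have hlv : 1 / v ≤ l := by
    rw [hl]
    apply one_div_le_one_div_of_le (by positivity)
    refine le_trans ?_ hv
    calc (2 : ℝ) ^ (j + 3) ≤ 2 ^ (3 * (j + 1)) := pow_le_pow_right₀ (by norm_num) (by omega)
      _ = 8 ^ (j + 1) := by rw [pow_mul]; norm_num
  have hMs : ∀ k ∈ s, M ≤ k := by
    intro k hk
    have h1 := hs k hk
    have h2 : (M : ℝ) ≤ n := by
      refine hM2.trans ?_
      rw [div_le_iff₀ h8pos]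
      have h9 : (2 : ℝ) ≤ 8 ^ (j + 1) := by
        calc (2 : ℝ) ≤ 8 ^ 1 := by norm_num
          _ ≤ 8 ^ (j + 1) := pow_le_pow_right₀ (by norm_num) (by omega)
      nlinarith
    have h3 : M ≤ n := by exact_mod_cast h2
    have h4 : n ≤ n ^ 3 := Nat.le_self_pow (by norm_num) n
    omega
  have hQM := hQ M hM1'
  have htilt := tilt_bound m hm0 (by rw [hm]; exact hs1) (by rw [hm]; exact hs2) M L v l E hMpos
    (by linarith) hvM hEpos hE hE4 hLpos hE3 hHM (by rw [hm]; exact hQM) hlv s hMs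
    (by rw [hm]; exact hsl)
  have hvL4 : v < L ^ 4 := by
    have : L ≤ L ^ 4 := le_self_pow₀ hL1.le (by norm_num)
    linarith
  have hS : ∀ N : ℕ, (n : ℝ) / 3 ≤ N → ∀ x, ((gpoly m M) ^ N).coeff x ≤ 3 * L ^ 4 / n :=
    fun N hN x => plateau_bound m hm0 (by rw [hm]; exact hs1) (by rw [hm]; exact hanti)
      (by rw [hm]; exact hlow) n M L v hn0 hL hL1 (by linarith) (by linarith) hvL4 hL4 hMn N hN x
  have hC : ∀ N : ℕ, (n : ℝ) / 3 ≤ N →
      ((gpoly m M).eval (1 + v / (4 * M)) / (1 + v / (4 * M))) ^ N ≤ 1 / L ^ 8 := by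
    intro N hN
    calc ((gpoly m M).eval (1 + v / (4 * M)) / (1 + v / (4 * M))) ^ N
        ≤ (Real.exp (-(v / (4 * M) * l / 4))) ^ N :=
          pow_le_pow_left₀ htilt.1 htilt.2 N
      _ = Real.exp (-(N * (v / (4 * M)) * l / 4)) := by
          rw [← Real.exp_nat_mul]; congr 1; ring
      _ ≤ Real.exp (-(8 * v)) := by
          apply Real.exp_le_exp.2
          have h1 : v * 8 ^ (j + 1) / 24 ≤ N * (v / (4 * M)) := by
            calc v * 8 ^ (j + 1) / 24 = (n / 3) * (v / (4 * (2 * n / 8 ^ (j + 1)))) := by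
                  field_simp; norm_num
              _ ≤ N * (v / (4 * M)) := by
                  gcongr
          have h2 : (8 : ℝ) ^ (j + 1) * l = 4 ^ j := by
            rw [hl, mul_one_div, pow_succ (8 : ℝ) j, pow_add (2 : ℝ) j 3,
              show (8 : ℝ) = 2 * 4 by norm_num, mul_pow]
            have : (2 : ℝ) ^ j ≠ 0 := by positivity
            field_simp
            norm_num
          have h3 : (1024 : ℝ) ≤ 4 ^ j := by
            calc (1024 : ℝ) = 4 ^ 5 := by norm_num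
              _ ≤ 4 ^ j := pow_le_pow_right₀ (by norm_num) hj
          have h4 : v * 4 ^ j / 24 ≤ N * (v / (4 * M)) * l := by
            calc v * 4 ^ j / 24 = v * 8 ^ (j + 1) / 24 * l := by rw [← h2]; ring
              _ ≤ N * (v / (4 * M)) * l := mul_le_mul_of_nonneg_right h1 hlpos.le
          have h5 : v * 1024 ≤ v * 4 ^ j := mul_le_mul_of_nonneg_left h3 (by linarith)
          linarith
      _ = 1 / L ^ 8 := by
          rw [Real.exp_neg, one_div]
          congr 1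
          rw [← hLv, ← Real.exp_nat_mul]
          congr 1
  -- conclusion
  obtain ⟨N, rfl⟩ : ∃ N, n = N + 1 := ⟨n - 1, by omega⟩
  have hpc : ∀ k, 0 ≤ (gpoly m M).coeff k := by
    intro k
    rw [gpoly_coeff]
    split_ifs
    · exact hm0 k
    · exact le_rfl
  have hn1 : ((N + 1 : ℕ) : ℝ) / 3 ≤ ((N + 1) / 2 : ℕ) := by
    have h1 : N + 1 ≤ 3 * ((N + 1) / 2) := by omega
    have h2 : ((N + 1 : ℕ) : ℝ) ≤ 3 * (((N + 1) / 2 : ℕ) : ℝ) := by exact_mod_cast h1
    linarith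
  have hn2 : ((N + 1 : ℕ) : ℝ) / 3 ≤ ((N + 1) - (N + 1) / 2 : ℕ) := by
    have h1 : N + 1 ≤ 3 * ((N + 1) - (N + 1) / 2) := by omega
    have h2 : ((N + 1 : ℕ) : ℝ) ≤ 3 * (((N + 1) - (N + 1) / 2 : ℕ) : ℝ) := by exact_mod_cast h1
    linarith
  have hsplit := split_bound hpc (show (1 : ℝ) ≤ 1 + v / (4 * M) by
      have : 0 ≤ v / (4 * (M : ℝ)) := by positivity
      linarith) ((N + 1) / 2)
    ((N + 1) - (N + 1) / 2) (hS _ hn1) (hS _ hn2) N (by omega)
  have hfin := progD_eq μ M N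
  rw [← hm] at hfin
  have h1 := hC _ hn1
  have h2 := hC _ hn2
  have hSpos : 0 ≤ 3 * L ^ 4 / ((N + 1 : ℕ) : ℝ) := by positivity
  have h3 : ((N + 1 : ℕ) : ℝ) * progD μ {k | k < M} (N + 1)
      ≤ 3 * L ^ 4 / ((N + 1 : ℕ) : ℝ) * (1 / L ^ 8) + 3 * L ^ 4 / ((N + 1 : ℕ) : ℝ) * (1 / L ^ 8) := by
    rw [hfin]
    refine hsplit.trans (add_le_add ?_ ?_)
    · exact mul_le_mul_of_nonneg_left h1 hSpos
    · exact mul_le_mul_of_nonneg_left h2 hSpos
  rw [mul_comm, ← le_div_iff₀ hn0] at h3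
  refine h3.trans (le_of_eq ?_)
  field_simp
  norm_num

/-- Lower bound for the probability of having `n` vertices. -/
lemma prog_lower2 (μ : PMF ℕ) (hcrit : IsCritical μ)
    (hanti : ∀ k l : ℕ, 1 ≤ k → k ≤ l → (μ l).toReal ≤ (μ k).toReal)
    (hlow : ∀ k : ℕ, 2 ≤ k → 1 / (64 * (k : ℝ) ^ 2 * Real.log k ^ 2) ≤ (μ k).toReal)
    (n j : ℕ) (hv : (8 : ℝ) ^ (j + 1) ≤ Real.log (Real.log n)) (s : Finset ℕ)
    (hs : ∀ k ∈ s, 2 * n ^ 3 ≤ k)
    (hsl : 1 / (2 : ℝ) ^ (j + 3) ≤ ∑ k ∈ s, (k : ℝ) * (μ k).toReal) (hn : 4 ≤ n) :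
    1 / (128 * (n : ℝ) ^ 2 * Real.log n ^ 3) ≤ prog μ n := by
  set m : ℕ → ℝ := fun k => (μ k).toReal with hm
  have hm0 : ∀ k, 0 ≤ m k := fun k => ENNReal.toReal_nonneg
  have hs1 := hasSum_one μ
  have hs2 := hasSum_mean μ hcrit
  have hP := progenySeries μ
  obtain ⟨N, rfl⟩ : ∃ N, n = N + 1 := ⟨n - 1, by omega⟩
  set L := Real.log ((N + 1 : ℕ) : ℝ) with hL
  have hn0 : (0 : ℝ) < ((N + 1 : ℕ) : ℝ) := by positivity
  have hL1 : 1 < L := by
    by_contra hcon
    push Not at hcon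
    have : Real.log L ≤ 0 := by
      rcases le_or_gt L 0 with h | h
      · have hL0 : L = 0 := le_antisymm h (Real.log_natCast_nonneg _)
        rw [hL0, Real.log_zero]
      · exact Real.log_nonpos h.le hcon
    have h8 : (0 : ℝ) < 8 ^ (j + 1) := by positivity
    linarith
  have hpart : ∀ N, ∑ j ∈ Finset.range N, m j ≤ 1 := fun N =>
    sum_le_hasSum _ (fun k _ => hm0 k) hs1
  have hu := hP.u_ge hpart N
  have htail := tail_le_renewal m hm0 hs1 hs2 N s (fun k hk => by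
    have h1 := hs k hk
    have h2 : N + 1 ≤ (N + 1) ^ 3 := Nat.le_self_pow (by norm_num) _
    omega)
  have hhalf : (∑ k ∈ s, (k : ℝ) * m k) / 2 ≤ ∑ k ∈ s, ((k : ℝ) - N) * m k := by
    rw [Finset.sum_div]
    refine Finset.sum_le_sum fun k hk => ?_
    have h1 := hs k hk
    have h2 : N + 1 ≤ (N + 1) ^ 3 := Nat.le_self_pow (by norm_num) _
    have h3 : ((2 * N : ℕ) : ℝ) ≤ k := by exact_mod_cast (by omega : 2 * N ≤ k)
    push_cast at h3
    have := hm0 k
    nlinarith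
  have hlL : 1 / L ≤ 1 / (2 : ℝ) ^ (j + 3) := by
    apply one_div_le_one_div_of_le (by positivity)
    have h1 : (2 : ℝ) ^ (j + 3) ≤ 8 ^ (j + 1) := by
      calc (2 : ℝ) ^ (j + 3) ≤ 2 ^ (3 * (j + 1)) := pow_le_pow_right₀ (by norm_num) (by omega)
        _ = 8 ^ (j + 1) := by rw [pow_mul]; norm_num
    have h2 : Real.log L ≤ L := (Real.log_le_sub_one_of_pos (by linarith)).trans (by linarith)
    linarith
  have hu2 : 1 / (2 * L) ≤ ProgenySeries.u (progSeries μ) N := by
    have : 1 / (2 * L) = (1 / L) / 2 := by field_simp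
    rw [this]
    linarith
  have hc := hP.coeff_ge N (by omega) (1 / (64 * ((N + 1 : ℕ) : ℝ) ^ 2 * L ^ 2)) ?_
  · rw [progSeries, PowerSeries.coeff_mk] at hc
    refine le_trans ?_ hc
    calc 1 / (128 * ((N + 1 : ℕ) : ℝ) ^ 2 * L ^ 3)
        = 1 / (64 * ((N + 1 : ℕ) : ℝ) ^ 2 * L ^ 2) * (1 / (2 * L)) := by
          field_simp
          norm_num
      _ ≤ _ := mul_le_mul_of_nonneg_left hu2 (by positivity)
  · intro k hk1 hk2
    refine le_trans (hlow (N + 1) (by omega)) (hanti k (N + 1) hk1 (by omega))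

lemma prog_pos (μ : PMF ℕ) (hcrit : IsCritical μ) (hpos : ∀ k, 1 ≤ k → 0 < (μ k).toReal)
    (n : ℕ) (hn : 1 ≤ n) : 0 < prog μ n := by
  set m : ℕ → ℝ := fun k => (μ k).toReal with hm
  have hm0 : ∀ k, 0 ≤ m k := fun k => ENNReal.toReal_nonneg
  have hs1 := hasSum_one μ
  have hs2 := hasSum_mean μ hcrit
  have hP := progenySeries μ
  have hμ0 : 0 < m 0 := by
    have hs3 : HasSum (fun k : ℕ => ((k : ℝ) - 1) * m k) (1 - 1) := by
      refine (hs2.sub hs1).congr_fun ?_ |> fun h => h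
      intro k; ring
    have h1 := sum_le_hasSum (f := fun k : ℕ => ((k : ℝ) - 1) * m k) {0, 2} (fun i hi => ?_) hs3
    · rw [Finset.sum_pair (by norm_num)] at h1
      have h2 := hpos 2 (by norm_num)
      push_cast at h1
      simp only [hm] at h1 ⊢
      linarith
    · simp only [Finset.mem_insert, Finset.mem_singleton, not_or] at hi
      refine mul_nonneg ?_ (hm0 i)
      have : (1 : ℝ) ≤ i := by exact_mod_cast (by omega : 1 ≤ i)
      linarith
  have hF1 : PowerSeries.coeff 1 (progSeries μ) = m 0 := by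
    rw [show (1 : ℕ) = 0 + 1 from rfl, hP.F_succ]
    simp [hm]
  have hdiag : ∀ k, (m 0) ^ k ≤ PowerSeries.coeff k ((progSeries μ) ^ k) := by
    intro k
    induction k with
    | zero => simp
    | succ k ih =>
      rw [pow_succ, pow_succ, PowerSeries.coeff_mul]
      have h1 := Finset.single_le_sum (s := Finset.HasAntidiagonal.antidiagonal (k + 1))
        (f := fun p => PowerSeries.coeff p.1 ((progSeries μ) ^ k) * PowerSeries.coeff p.2 (progSeries μ))
        (fun p _ => mul_nonneg (hP.pow_nonneg _ _) (hP.F_nonneg _))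
        (show (k, 1) ∈ Finset.HasAntidiagonal.antidiagonal (k + 1) by simp)
      refine le_trans ?_ h1
      simp only [hF1]
      exact mul_le_mul_of_nonneg_right ih hμ0.le
  obtain ⟨N, rfl⟩ : ∃ N, n = N + 1 := ⟨n - 1, by omega⟩
  have h1 := hP.F_succ N
  rw [progSeries, PowerSeries.coeff_mk] at h1
  rw [h1]
  have hmN : 0 < m N := by
    rcases Nat.eq_zero_or_pos N with rfl | h
    · exact hμ0
    · exact hpos N h
  have h2 := Finset.single_le_sum (s := Finset.range (N + 1))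
    (f := fun k => m k * PowerSeries.coeff N ((progSeries μ) ^ k))
    (fun k _ => mul_nonneg (hm0 k) (hP.pow_nonneg _ _)) (show N ∈ Finset.range (N + 1) by simp)
  refine lt_of_lt_of_le ?_ h2
  exact mul_pos hmN (lt_of_lt_of_le (pow_pos hμ0 N) (hdiag N))

lemma highProb_bound2 (μ : PMF ℕ) (hcrit : IsCritical μ) (n j : ℕ) (hn : 1 ≤ n) (s : Finset ℕ)
    (hs : ∀ k ∈ s, 2 * n ^ 3 ≤ k)
    (hsl : 1 / (2 : ℝ) ^ (j + 3) ≤ ∑ k ∈ s, (k : ℝ) * (μ k).toReal)
    (h : ℕ) (hh : 3 * 2 ^ (j + 4) * Real.log n ≤ h) :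
    highProb μ h ≤ 1 / (n : ℝ) ^ 3 := by
  have hn0 : (0 : ℝ) < n := by exact_mod_cast hn
  have hs1 := hasSum_one μ
  have hs2 := hasSum_mean μ hcrit
  refine iterate_bound (highProb μ) (highProb_nonneg μ) (highProb_le_one μ 0)
    (fun a b hab => highProb_anti μ hab) (1 / (2 : ℝ) ^ (j + 4)) (1 / (n : ℝ) ^ 3) ?_ h ?_
  · intro i hi
    rw [highProb_succ]
    have hst := step_bound_tail (fun k => (μ k).toReal) (fun k => ENNReal.toReal_nonneg) hs1 hs2
      (highProb μ i) (highProb_nonneg μ i) (highProb_le_one μ i) s ?_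
    · refine hst.trans ?_
      apply mul_le_mul_of_nonneg_left _ (highProb_nonneg μ i)
      have : 1 / (2 : ℝ) ^ (j + 4) = (1 / (2 : ℝ) ^ (j + 3)) / 2 := by
        rw [pow_succ (2 : ℝ) (j + 3)]; field_simp
      rw [this]
      linarith
    · intro k hk
      have hk1 := hs k hk
      have hk2 : 2 * (n : ℝ) ^ 3 ≤ k := by exact_mod_cast hk1
      calc (2 : ℝ) = (2 * (n : ℝ) ^ 3) * (1 / (n : ℝ) ^ 3) := by field_simp
        _ ≤ k * highProb μ i := by
            apply mul_le_mul hk2 hi (by positivity) (by positivity)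
  · rw [one_div ((n : ℝ) ^ 3), ← Real.exp_log (show (0 : ℝ) < (n : ℝ) ^ 3 by positivity),
      ← Real.exp_neg, Real.exp_le_exp, neg_le_neg_iff, Real.log_pow]
    have h2 : (0 : ℝ) < 2 ^ (j + 4) := by positivity
    rw [one_div, inv_mul_eq_div, le_div_iff₀ h2]
    push_cast
    linarith

/-- For every positive `f → ∞` there is a critical offspring law such that, in probability,
`H(T_n) = o(f(n) ln n)` and `Width(T_n) / (n / f(n)) → ∞`. -/
theorem both_all (f : ℕ → ℝ) (hpos : ∀ n, 0 < f n) (hf : Tendsto f atTop atTop) :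
    ∃ μ : PMF ℕ, IsCritical μ ∧ (∀ n : ℕ, 1 ≤ n → 0 < gw μ {ω | numVertices ω = (n : ℕ∞)}) ∧
      (∀ ε : ℝ, 0 < ε → Tendsto (fun n : ℕ => (condLaw μ n).real
        {ω | ε * (f n * Real.log n) ≤ (height ω : ℝ)}) atTop (𝓝 0)) ∧
      (∀ A : ℝ, Tendsto (fun n : ℕ => (condLaw μ n).real
        {ω | (width ω : ℝ) ≤ A * (n / f n)}) atTop (𝓝 0)) := by
  obtain ⟨μ, hcrit, hanti, hlow, hQ, hJ⟩ := exists_offspring2 f hf
  have hposk : ∀ k, 1 ≤ k → 0 < (μ k).toReal := by
    intro k hk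
    have h1 := hlow (k + 1) (by omega)
    have h2 := hanti k (k + 1) hk (by omega)
    have h3 : 0 < Real.log ((k + 1 : ℕ) : ℝ) := Real.log_pos (by exact_mod_cast (by omega : 1 < k + 1))
    refine lt_of_lt_of_le ?_ (h1.trans h2)
    positivity
  have hcond : ∀ (n : ℕ) (A : Set (List ℕ → ℕ)), (condLaw μ n).real A
      = (prog μ n)⁻¹ * (gw μ).real ({ω | numVertices ω = (n : ℕ∞)} ∩ A) := by
    intro n A
    unfold condLaw prog
    rw [measureReal_def, ProbabilityTheory.cond_apply (measurableSet_numVertices_eq n),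
      ENNReal.toReal_mul, ENNReal.toReal_inv, measureReal_def, measureReal_def]
  refine ⟨μ, hcrit, ?_, ?_, ?_⟩
  · intro n hn
    have := prog_pos μ hcrit hposk n hn
    unfold prog at this
    rw [measureReal_def] at this
    exact (ENNReal.toReal_pos_iff.1 this).1
  · intro ε hε
    rw [Metric.tendsto_atTop]
    intro δ hδ
    obtain ⟨J, hJ1⟩ := exists_nat_gt (max (3 / ε) (768 / δ))
    obtain ⟨N₀, hN₀⟩ := hJ (max J 5)
    refine ⟨max N₀ 4, fun n hn => ?_⟩
    have hn4 : 4 ≤ n := (le_max_right _ _).trans hn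
    obtain ⟨j, hj, hfj, hvj, s, hs, hsl⟩ := hN₀ n ((le_max_left _ _).trans hn)
    have hjJ : J ≤ j := (le_max_left _ _).trans hj
    have hlower := prog_lower2 μ hcrit hanti hlow n j hvj s hs hsl hn4
    have hn0 : (0 : ℝ) < n := by exact_mod_cast (by omega : 0 < n)
    set L := Real.log n with hL
    set v := Real.log L with hv
    have h8j : (j : ℝ) ≤ 8 ^ j := by
      have : j < 8 ^ j := Nat.lt_pow_self (by norm_num)
      exact_mod_cast this.le
    have h8j1 : (8 : ℝ) ^ j ≤ 8 ^ (j + 1) := pow_le_pow_right₀ (by norm_num) (by omega)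
    have hjreal : (J : ℝ) ≤ j := by exact_mod_cast hjJ
    have hJ2 : 3 / ε < J := lt_of_le_of_lt (le_max_left _ _) hJ1
    have hJ3 : 768 / δ < J := lt_of_le_of_lt (le_max_right _ _) hJ1
    have hv0 : 0 < v := lt_of_lt_of_le (by positivity) hvj
    have hL1 : 1 < L := by
      by_contra hcon
      push Not at hcon
      have : v ≤ 0 := by
        rcases le_or_gt L 0 with h | h
        · have hL0 : L = 0 := le_antisymm h (Real.log_natCast_nonneg n)
          rw [hv, hL0, Real.log_zero]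
        · exact Real.log_nonpos h.le hcon
      linarith
    have hvL : v ≤ L := (Real.log_le_sub_one_of_pos (by linarith)).trans (by linarith)
    have hLJ : 768 / δ < L := by linarith
    set h : ℕ := ⌈3 * 2 ^ (j + 4) * L⌉₊ with hh
    have hhigh := highProb_bound2 μ hcrit n j (by omega) s hs hsl h (Nat.le_ceil _)
    have hsub : {ω : List ℕ → ℕ | numVertices ω = (n : ℕ∞)}
        ∩ {ω | ε * (f n * L) ≤ (height ω : ℝ)} ⊆ (lowSet h)ᶜ := by
      rintro ω ⟨h1, h2⟩
      simp only [mem_ofPred_eq] at h1 h2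
      obtain ⟨u, hu, hul⟩ := exists_mem_of_height h1
      intro hlowω
      have h3 := hlowω u hu
      rw [hul] at h3
      have h4 : 3 * 2 ^ (j + 4) * L ≤ (height ω : ℝ) := by
        refine le_trans ?_ h2
        rw [← mul_assoc]
        refine mul_le_mul_of_nonneg_right ?_ (by linarith)
        have h5 : 3 ≤ ε * 8 ^ j := by
          rw [div_lt_iff₀ hε] at hJ2
          nlinarith
        calc (3 : ℝ) * 2 ^ (j + 4) = 3 * (16 * 2 ^ j) := by rw [pow_add]; norm_num; ring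
          _ ≤ (ε * 8 ^ j) * (16 * 2 ^ j) := by gcongr
          _ = ε * 16 ^ (j + 1) := by
              rw [pow_succ, show (16 : ℝ) ^ j = 8 ^ j * 2 ^ j by rw [← mul_pow]; norm_num]
              ring
          _ ≤ ε * f n := by gcongr
      have h5 : h ≤ height ω := Nat.ceil_le.2 h4
      omega
    have hmeas : (gw μ).real ({ω : List ℕ → ℕ | numVertices ω = (n : ℕ∞)}
        ∩ {ω | ε * (f n * L) ≤ (height ω : ℝ)}) ≤ 1 / (n : ℝ) ^ 3 :=
      (measureReal_mono hsub).trans hhigh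
    have hprogpos : 0 < prog μ n := prog_pos μ hcrit hposk n (by omega)
    have hinv : (prog μ n)⁻¹ ≤ 128 * (n : ℝ) ^ 2 * L ^ 3 := by
      rw [inv_le_comm₀ hprogpos (by positivity), ← one_div]
      exact hlower
    rw [Real.dist_0_eq_abs, abs_of_nonneg measureReal_nonneg, hcond]
    have hnL4 : L ^ 4 ≤ n := by
      -- from `exp`
      have hLv : Real.exp v = L := Real.exp_log (by linarith)
      have hnL : Real.exp L = n := Real.exp_log hn0
      have hv8 : (262144 : ℝ) ≤ v := by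
        refine le_trans ?_ hvj
        calc (262144 : ℝ) = 8 ^ 6 := by norm_num
          _ ≤ 8 ^ (j + 1) := pow_le_pow_right₀ (by norm_num) (by
            have := (le_max_right J 5).trans hj; omega)
      have hLv2 : v ^ 2 / 2 ≤ L := by
        have := Real.pow_div_factorial_le_exp v (by linarith) 2
        rw [hLv] at this
        simpa using this
      have h1 : Real.exp (4 * v) ≤ Real.exp L := Real.exp_le_exp.2 (by nlinarith)
      rw [hnL] at h1
      have h2 : Real.exp (4 * v) = L ^ 4 := by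
        rw [← hLv, ← Real.exp_nat_mul]
        congr 1
      linarith
    calc (prog μ n)⁻¹ * (gw μ).real ({ω : List ℕ → ℕ | numVertices ω = (n : ℕ∞)}
          ∩ {ω | ε * (f n * L) ≤ (height ω : ℝ)})
        ≤ 128 * (n : ℝ) ^ 2 * L ^ 3 * (1 / (n : ℝ) ^ 3) := by
          apply mul_le_mul hinv hmeas measureReal_nonneg (by positivity)
      _ = 128 * L ^ 3 / n := by field_simp
      _ ≤ 128 * L ^ 3 / L ^ 4 := by gcongr
      _ = 128 / L := by field_simp
      _ < δ := by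
          rw [div_lt_iff₀ (by linarith)]
          rw [div_lt_iff₀ hδ] at hLJ
          nlinarith
  · intro A
    rw [Metric.tendsto_atTop]
    intro δ hδ
    obtain ⟨J, hJ1⟩ := exists_nat_gt (max A (768 / δ))
    obtain ⟨N₀, hN₀⟩ := hJ (max J 5)
    refine ⟨max N₀ 4, fun n hn => ?_⟩
    have hn4 : 4 ≤ n := (le_max_right _ _).trans hn
    obtain ⟨j, hj, hfj, hvj, s, hs, hsl⟩ := hN₀ n ((le_max_left _ _).trans hn)
    have hjJ : J ≤ j := (le_max_left _ _).trans hj
    have hj5 : 5 ≤ j := (le_max_right _ _).trans hj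
    have hlower := prog_lower2 μ hcrit hanti hlow n j hvj s hs hsl hn4
    have hupper := progD_bound μ hcrit hanti hlow hQ n j hj5 hvj s hs hsl hn4
    have hn0 : (0 : ℝ) < n := by exact_mod_cast (by omega : 0 < n)
    set L := Real.log n with hL
    set v := Real.log L with hv
    have h8j : (j : ℝ) ≤ 8 ^ j := by
      have : j < 8 ^ j := Nat.lt_pow_self (by norm_num)
      exact_mod_cast this.le
    have h8j1 : (8 : ℝ) ^ j ≤ 8 ^ (j + 1) := pow_le_pow_right₀ (by norm_num) (by omega)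
    have hjreal : (J : ℝ) ≤ j := by exact_mod_cast hjJ
    have hJ2 : A < J := lt_of_le_of_lt (le_max_left _ _) hJ1
    have hJ3 : 768 / δ < J := lt_of_le_of_lt (le_max_right _ _) hJ1
    have hv0 : 0 < v := lt_of_lt_of_le (by positivity) hvj
    have hL1 : 1 < L := by
      by_contra hcon
      push Not at hcon
      have : v ≤ 0 := by
        rcases le_or_gt L 0 with h | h
        · have hL0 : L = 0 := le_antisymm h (Real.log_natCast_nonneg n)
          rw [hv, hL0, Real.log_zero]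
        · exact Real.log_nonpos h.le hcon
      linarith
    have hvL : v ≤ L := (Real.log_le_sub_one_of_pos (by linarith)).trans (by linarith)
    have hLJ : 768 / δ < L := by linarith
    have h2j : (j : ℝ) ≤ 2 ^ (j + 1) := by
      have : j < 2 ^ j := Nat.lt_two_pow_self
      have h2 : (j : ℝ) ≤ 2 ^ j := by exact_mod_cast this.le
      have h3 : (2 : ℝ) ^ j ≤ 2 ^ (j + 1) := pow_le_pow_right₀ (by norm_num) (by omega)
      linarith
    have hsub : {ω : List ℕ → ℕ | numVertices ω = (n : ℕ∞)}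
        ∩ {ω | (width ω : ℝ) ≤ A * (n / f n)} ⊆ evt {k | k < ⌈(n : ℝ) / 8 ^ (j + 1)⌉₊} n := by
      rintro ω ⟨h1, h2⟩
      refine ⟨h1, fun u hu => ?_⟩
      simp only [mem_ofPred_eq] at h1 h2 ⊢
      rw [Nat.lt_ceil]
      have h3 : (ω u : ℝ) ≤ width ω := by exact_mod_cast degree_le_width h1 hu
      refine lt_of_le_of_lt (h3.trans h2) ?_
      have hfn := hpos n
      have h16 : (0 : ℝ) < 16 ^ (j + 1) := by positivity
      calc A * (n / f n) < 2 ^ (j + 1) * (n / f n) := by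
            apply mul_lt_mul_of_pos_right _ (by positivity)
            linarith
        _ ≤ 2 ^ (j + 1) * (n / 16 ^ (j + 1)) := by gcongr
        _ = n / 8 ^ (j + 1) := by
            rw [show (16 : ℝ) ^ (j + 1) = 2 ^ (j + 1) * 8 ^ (j + 1) by rw [← mul_pow]; norm_num]
            field_simp
    have hmeas : (gw μ).real ({ω : List ℕ → ℕ | numVertices ω = (n : ℕ∞)}
        ∩ {ω | (width ω : ℝ) ≤ A * (n / f n)}) ≤ 6 / ((n : ℝ) ^ 2 * L ^ 4) :=
      (measureReal_mono hsub).trans hupper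
    have hprogpos : 0 < prog μ n := prog_pos μ hcrit hposk n (by omega)
    have hinv : (prog μ n)⁻¹ ≤ 128 * (n : ℝ) ^ 2 * L ^ 3 := by
      rw [inv_le_comm₀ hprogpos (by positivity), ← one_div]
      exact hlower
    rw [Real.dist_0_eq_abs, abs_of_nonneg measureReal_nonneg, hcond]
    calc (prog μ n)⁻¹ * (gw μ).real ({ω : List ℕ → ℕ | numVertices ω = (n : ℕ∞)}
          ∩ {ω | (width ω : ℝ) ≤ A * (n / f n)})
        ≤ 128 * (n : ℝ) ^ 2 * L ^ 3 * (6 / ((n : ℝ) ^ 2 * L ^ 4)) := by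
          apply mul_le_mul hinv hmeas measureReal_nonneg (by positivity)
      _ = 768 / L := by field_simp; norm_num
      _ < δ := by
          rw [div_lt_iff₀ (by linarith)]
          rw [div_lt_iff₀ hδ] at hLJ
          linarith

end Pool.Agent.Work.MP_d1698a_pr
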