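import Mathlib

set_option autoImplicit false

open MeasureTheory ProbabilityTheory Filter Set
open scoped ENNReal Topology

namespace Pool.Agent.Work.MP_d1698a_pr

/-- The Ulam-Harris plane tree coded by a family `ω` of numbers of children:
the vertex `v = (v₁, ..., v_k)` is present when, for every prefix
`(v₁, ..., v_j, v_{j+1})` of `v`, the child index `v_{j+1}` is smaller than the number of children
`ω (v₁, ..., v_j)` (children are numbered from `0`). -/
def tree (ω : List ℕ → ℕ) : Set (List ℕ) :=
  {v | ∀ (u : List ℕ) (i : ℕ), (u ++ [i]) <+: v → i < ω u}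

/-- Number of vertices of the tree (possibly infinite). -/
noncomputable def numVertices (ω : List ℕ → ℕ) : ℕ∞ := (tree ω).encard

/-- Height of the tree: the largest generation of a vertex (used only for finite trees). -/
noncomputable def height (ω : List ℕ → ℕ) : ℕ := sSup (List.length '' tree ω)

/-- The law of the family of numbers of children: independent, with law `μ`,
indexed by the Ulam-Harris words. -/
noncomputable def gw (μ : PMF ℕ) : Measure (List ℕ → ℕ) :=
  Measure.infinitePi fun _ : List ℕ => μ.toMeasure

/-- A critical offspring distribution: mean one, and not the trivial one `μ 1 = 1`. -/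
def IsCritical (μ : PMF ℕ) : Prop :=
  ∑' k : ℕ, (k : ℝ≥0∞) * μ k = 1 ∧ μ 1 ≠ 1

/-- The law of the tree `T_n`: the Galton-Watson family conditioned on the tree having exactly
`n` vertices. -/
noncomputable def condLaw (μ : PMF ℕ) (n : ℕ) : Measure (List ℕ → ℕ) :=
  ProbabilityTheory.cond (gw μ) {ω | numVertices ω = (n : ℕ∞)}

/-- Tightness of the sequence `H(T_n) / (f(n) ln n)`, over the `n ≥ 1` with `P(|T| = n) > 0`. -/
def HeightTight (μ : PMF ℕ) (f : ℕ → ℝ) : Prop :=
  ∀ ε : ℝ, 0 < ε → ∃ K : ℝ, ∀ n : ℕ, 1 ≤ n → 0 < gw μ {ω | numVertices ω = (n : ℕ∞)} →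
    (condLaw μ n).real {ω | K < |(height ω : ℝ) / (f n * Real.log n)|} < ε

end Pool.Agent.Work.MP_d1698a_pr
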