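import Pool.Agent.Work.MP_d1698a_pr.Both

set_option autoImplicit false

open MeasureTheory ProbabilityTheory Filter Set
open scoped ENNReal Topology

namespace Pool.Agent.Work.MP_d1698a_pr

/-- Convergence in probability to zero implies tightness of the whole sequence. -/
lemma heightTight_of_tendsto (μ : PMF ℕ) (f : ℕ → ℝ) (hpos : ∀ n, 0 < f n)
    (h : Tendsto (fun n : ℕ => (condLaw μ n).real
        {ω | 1 * (f n * Real.log n) ≤ (height ω : ℝ)}) atTop (𝓝 0)) : HeightTight μ f := by
  intro ε hε
  rw [Metric.tendsto_atTop] at h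
  obtain ⟨N, hN⟩ := h ε hε
  set M : ℕ := max 2 N with hM
  set K : ℝ := 1 + ∑ n ∈ Finset.range M, |(n : ℝ) / (f n * Real.log n)| with hK
  have hsum0 : 0 ≤ ∑ n ∈ Finset.range M, |(n : ℝ) / (f n * Real.log n)| :=
      Finset.sum_nonneg fun _ _ => abs_nonneg _
  refine ⟨K, ?_⟩
  intro n hn1 hpn
  by_cases hnM : n < M
  · -- small `n`: the event is empty on `|T| = n`
    have hmeasN := measurableSet_numVertices_eq n
    have hcond : (condLaw μ n).real {ω | K < |(height ω : ℝ) / (f n * Real.log n)|}
        = (prog μ n)⁻¹ * (gw μ).real ({ω | numVertices ω = (n : ℕ∞)} ∩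
          {ω | K < |(height ω : ℝ) / (f n * Real.log n)|}) := by
      unfold condLaw prog
      rw [measureReal_def, ProbabilityTheory.cond_apply hmeasN, ENNReal.toReal_mul,
        ENNReal.toReal_inv, measureReal_def, measureReal_def]
    rw [hcond]
    have hempty : {ω : List ℕ → ℕ | numVertices ω = (n : ℕ∞)}
        ∩ {ω | K < |(height ω : ℝ) / (f n * Real.log n)|} = ∅ := by
      ext ω
      simp only [mem_inter_iff, mem_ofPred_eq, mem_empty_iff_false, iff_false, not_and, not_lt]
      intro hω
      have h1 := height_lt_of_numVertices hω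
      have h2 : |(height ω : ℝ) / (f n * Real.log n)| ≤ |(n : ℝ) / (f n * Real.log n)| := by
        rw [abs_div, abs_div]
        have h3 : |(height ω : ℝ)| ≤ |(n : ℝ)| := by
          rw [abs_of_nonneg (Nat.cast_nonneg _), abs_of_nonneg (Nat.cast_nonneg _)]
          exact_mod_cast h1.le
        gcongr
      have h4 : |(n : ℝ) / (f n * Real.log n)|
          ≤ ∑ n ∈ Finset.range M, |(n : ℝ) / (f n * Real.log n)| :=
        Finset.single_le_sum (f := fun n : ℕ => |(n : ℝ) / (f n * Real.log n)|)
          (fun _ _ => abs_nonneg _) (Finset.mem_range.2 hnM)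
      rw [hK]
      linarith
    rw [hempty]
    simpa using hε
  · push Not at hnM
    have hn2 : 2 ≤ n := (le_max_left _ _).trans hnM
    have hnN : N ≤ n := (le_max_right _ _).trans hnM
    have hlogpos : 0 < Real.log n := Real.log_pos (by exact_mod_cast (by omega : 1 < n))
    have hfl : 0 < f n * Real.log n := mul_pos (hpos n) hlogpos
    have hb := hN n hnN
    rw [Real.dist_0_eq_abs, abs_of_nonneg measureReal_nonneg] at hb
    refine lt_of_le_of_lt ?_ hb
    have hsub : {ω : List ℕ → ℕ | K < |(height ω : ℝ) / (f n * Real.log n)|}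
        ⊆ {ω | 1 * (f n * Real.log n) ≤ (height ω : ℝ)} := by
      intro ω h2
      simp only [mem_ofPred_eq] at h2 ⊢
      rw [abs_of_nonneg (by positivity), lt_div_iff₀ hfl] at h2
      refine le_trans ?_ h2.le
      refine mul_le_mul_of_nonneg_right ?_ hfl.le
      rw [hK]; linarith
    have hprob : condLaw μ n Set.univ ≠ ∞ := by
      have : IsProbabilityMeasure (condLaw μ n) :=
        ProbabilityTheory.cond_isProbabilityMeasure hpn.ne'
      simp
    exact measureReal_mono hsub
      (ne_top_of_le_ne_top hprob (measure_mono (Set.subset_univ _)))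

end Pool.Agent.Work.MP_d1698a_pr
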