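import Pool.Agent.Work.MP_d1698a_pr.Progeny

set_option autoImplicit false

open MeasureTheory ProbabilityTheory Filter Set
open scoped ENNReal Topology

namespace Pool.Agent.Work.MP_d1698a_pr

/-- the event that all vertices have generation smaller than `h` -/
def lowSet (h : ℕ) : Set (List ℕ → ℕ) := {ω | ∀ v ∈ tree ω, v.length < h}

lemma measurableSet_lowSet (h : ℕ) : MeasurableSet (lowSet h) := by
  have : lowSet h = ⋂ v : List ℕ, {ω : List ℕ → ℕ | v ∈ tree ω → v.length < h} := by
    ext ω; simp [lowSet]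
  rw [this]
  refine MeasurableSet.iInter fun v => ?_
  by_cases hv : v.length < h
  · simp [hv]
  · have : {ω : List ℕ → ℕ | v ∈ tree ω → v.length < h} = {ω | v ∈ tree ω}ᶜ := by
      ext ω; simp [hv]
    rw [this]
    exact (measurableSet_mem_tree v).compl

lemma lowSet_zero : lowSet 0 = ∅ := by
  ext ω
  simp only [lowSet, mem_ofPred_eq, mem_empty_iff_false, iff_false]
  intro h
  exact absurd (h [] (nil_mem_tree ω)) (by simp)

lemma lowSet_succ (h : ℕ) : lowSet (h + 1) = {ω | ∀ i < ω [], sub i ω ∈ lowSet h} := by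
  ext ω
  simp only [lowSet, mem_ofPred_eq]
  constructor
  · intro hω i hi v hv
    have := hω (i :: v) (cons_mem_tree.2 ⟨hi, hv⟩)
    simpa using this
  · intro hω v hv
    cases v with
    | nil => simp
    | cons i u =>
      rw [cons_mem_tree] at hv
      have := hω i hv.1 u hv.2
      simpa using this

lemma lowSet_mono {h h' : ℕ} (hh : h ≤ h') : lowSet h ⊆ lowSet h' :=
  fun _ hω v hv => lt_of_lt_of_le (hω v hv) hh

lemma gw_lowSet_succ (μ : PMF ℕ) (h : ℕ) :
    gw μ (lowSet (h + 1)) = ∑' k, μ k * (gw μ (lowSet h)) ^ k := by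
  have hset : lowSet (h + 1) = ⋃ k : ℕ, {ω | ω [] = k ∧ ∀ i < k, sub i ω ∈ lowSet h} := by
    rw [lowSet_succ]
    ext ω
    simp
  rw [hset, measure_iUnion]
  · refine tsum_congr fun k => ?_
    rw [branching μ k _ (fun i _ => measurableSet_lowSet h)]
    simp
  · intro k k' hne
    rw [Function.onFun, Set.disjoint_left]
    rintro ω ⟨h1, _⟩ ⟨h2, _⟩
    exact hne (h1.symm.trans h2)
  · intro k
    have : {ω : List ℕ → ℕ | ω [] = k ∧ ∀ i < k, sub i ω ∈ lowSet h}
        = {ω | ω [] = k} ∩ ⋂ i ∈ Finset.range k, (sub i) ⁻¹' (lowSet h) := by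
      ext ω; simp
    rw [this]
    refine MeasurableSet.inter ?_ ?_
    · have h : Measurable fun ω : List ℕ → ℕ => ω [] := by fun_prop
      exact h (measurableSet_singleton k)
    · exact MeasurableSet.biInter (Finset.countable_toSet _) fun i _ =>
        measurable_sub i (measurableSet_lowSet h)

/-- probability that some vertex has generation at least `h` -/
noncomputable def highProb (μ : PMF ℕ) (h : ℕ) : ℝ := (gw μ).real (lowSet h)ᶜ

lemma highProb_nonneg (μ : PMF ℕ) (h : ℕ) : 0 ≤ highProb μ h := measureReal_nonneg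

lemma highProb_le_one (μ : PMF ℕ) (h : ℕ) : highProb μ h ≤ 1 := measureReal_le_one

lemma highProb_eq (μ : PMF ℕ) (h : ℕ) : highProb μ h = 1 - (gw μ).real (lowSet h) := by
  unfold highProb
  rw [measureReal_compl (measurableSet_lowSet h)]
  simp

lemma highProb_anti (μ : PMF ℕ) {h h' : ℕ} (hh : h ≤ h') : highProb μ h' ≤ highProb μ h :=
  measureReal_mono (compl_subset_compl.2 (lowSet_mono hh))

lemma highProb_succ (μ : PMF ℕ) (h : ℕ) :
    highProb μ (h + 1) = 1 - ∑' k, (μ k).toReal * (1 - highProb μ h) ^ k := by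
  rw [highProb_eq, measureReal_def, gw_lowSet_succ, ENNReal.tsum_toReal_eq]
  · congr 1
    refine tsum_congr fun k => ?_
    rw [ENNReal.toReal_mul, ENNReal.toReal_pow, highProb_eq, measureReal_def]
    ring_nf
  · intro k
    refine ENNReal.mul_ne_top (PMF.apply_ne_top μ k) (ENNReal.pow_ne_top (measure_ne_top _ _))

/-- Real-variable form of one generation step. -/
lemma step_bound (m : ℕ → ℝ) (hm0 : ∀ k, 0 ≤ m k) (h1 : HasSum m 1)
    (h2 : HasSum (fun k : ℕ => (k : ℝ) * m k) 1) (q : ℝ) (hq0 : 0 ≤ q) (hq1 : q ≤ 1)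
    (k₀ : ℕ) (hk₀ : 2 ≤ k₀ * q) :
    1 - ∑' k, m k * (1 - q) ^ k ≤ q * (1 - k₀ * m k₀ / 2) := by
  have hq1' : 0 ≤ 1 - q := by linarith
  have hsum3 : Summable fun k => m k * (1 - q) ^ k := by
    refine Summable.of_nonneg_of_le (fun k => mul_nonneg (hm0 k) (pow_nonneg hq1' k)) ?_ h1.summable
    intro k
    calc m k * (1 - q) ^ k ≤ m k * 1 :=
          mul_le_mul_of_nonneg_left (pow_le_one₀ hq1' (by linarith)) (hm0 k)
      _ = m k := mul_one _
  -- q - (1 - ∑ ...) = ∑ m k (k q - 1 + (1-q)^k)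
  have hs : HasSum (fun k : ℕ => m k * (k * q - 1 + (1 - q) ^ k))
      (q * 1 - 1 + ∑' k, m k * (1 - q) ^ k) := by
    have := ((h2.mul_left q).sub h1).add hsum3.hasSum
    refine this.congr_fun ?_ |> fun h => h
    intro k
    ring
  have hterm : ∀ k : ℕ, 0 ≤ m k * (k * q - 1 + (1 - q) ^ k) := by
    intro k
    refine mul_nonneg (hm0 k) ?_
    have hb := one_add_mul_le_pow (show (-2 : ℝ) ≤ -q by linarith) k
    have : (1 + -q) ^ k = (1 - q) ^ k := by ring
    rw [this] at hb
    nlinarith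
  have hle : m k₀ * (k₀ * q - 1 + (1 - q) ^ k₀) ≤ q * 1 - 1 + ∑' k, m k * (1 - q) ^ k := by
    rw [← hs.tsum_eq]
    exact hs.summable.le_tsum k₀ (fun j _ => hterm j)
  have hk : m k₀ * (k₀ * q / 2) ≤ m k₀ * (k₀ * q - 1 + (1 - q) ^ k₀) := by
    refine mul_le_mul_of_nonneg_left ?_ (hm0 k₀)
    have := pow_nonneg hq1' k₀
    linarith
  nlinarith

/-- Iteration of the one-step bound. -/
lemma iterate_bound (q : ℕ → ℝ) (hq0 : ∀ h, 0 ≤ q h) (hq1 : q 0 ≤ 1)
    (hanti : ∀ h h', h ≤ h' → q h' ≤ q h) (c τ : ℝ)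
    (hstep : ∀ h, τ ≤ q h → q (h + 1) ≤ q h * (1 - c)) (h : ℕ) (hτ : Real.exp (-(c * h)) ≤ τ) :
    q h ≤ τ := by
  by_contra hcon
  push Not at hcon
  have key : ∀ j, j ≤ h → q j ≤ Real.exp (-(c * j)) := by
    intro j
    induction j with
    | zero => intro _; simpa using hq1
    | succ j ih =>
      intro hj
      have h1 := ih (by omega)
      have h2 : τ ≤ q j := hcon.le.trans (hanti j h (by omega))
      have h3 := hstep j h2
      calc q (j + 1) ≤ q j * (1 - c) := h3
        _ ≤ q j * Real.exp (-c) := by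
            refine mul_le_mul_of_nonneg_left ?_ (hq0 j)
            have := Real.add_one_le_exp (-c)
            linarith
        _ ≤ Real.exp (-(c * j)) * Real.exp (-c) :=
            mul_le_mul_of_nonneg_right h1 (Real.exp_pos _).le
        _ = Real.exp (-(c * (j + 1 : ℕ))) := by
            rw [← Real.exp_add]; congr 1; push_cast; ring
  exact absurd ((key h le_rfl).trans hτ) (not_le.2 hcon)

/-- prefixes of vertices are vertices -/
lemma take_mem_tree {ω : List ℕ → ℕ} {v : List ℕ} (hv : v ∈ tree ω) (j : ℕ) :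
    v.take j ∈ tree ω :=
  fun u i h => hv u i (h.trans (List.take_prefix j v))

lemma length_lt_of_numVertices {ω : List ℕ → ℕ} {n : ℕ} (hn : numVertices ω = (n : ℕ∞))
    {v : List ℕ} (hv : v ∈ tree ω) : v.length < n := by
  have h1 : ((Finset.range (v.length + 1)).image (fun j => v.take j) : Set (List ℕ)) ⊆ tree ω := by
    intro w hw
    simp only [Finset.coe_image, mem_image, Finset.mem_coe] at hw
    obtain ⟨j, _, rfl⟩ := hw
    exact take_mem_tree hv j
  have h2 := Set.encard_le_encard h1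
  have hcard : ((Finset.range (v.length + 1)).image (fun j => v.take j)).card = v.length + 1 := by
    rw [Finset.card_image_of_injOn, Finset.card_range]
    intro a ha b hb hab
    simp only [Finset.coe_range, mem_Iio] at ha hb
    have := congrArg List.length hab
    simp only [List.length_take] at this
    omega
  rw [Set.encard_coe_eq_coe_finsetCard, hcard] at h2
  have h3 : ((v.length + 1 : ℕ) : ℕ∞) ≤ (n : ℕ∞) := by
    rw [← hn]; exact h2
  have h4 : v.length + 1 ≤ n := by exact_mod_cast h3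
  omega

lemma height_lt_of_numVertices {ω : List ℕ → ℕ} {n : ℕ} (hn : numVertices ω = (n : ℕ∞)) :
    height ω < n := by
  have hbdd : ∀ x ∈ List.length '' tree ω, x < n := by
    rintro x ⟨v, hv, rfl⟩
    exact length_lt_of_numVertices hn hv
  have hne : (List.length '' tree ω).Nonempty := ⟨_, [], nil_mem_tree ω, rfl⟩
  have hb : BddAbove (List.length '' tree ω) := ⟨n, fun x hx => (hbdd x hx).le⟩
  exact hbdd _ (Nat.sSup_mem hne hb)

lemma exists_mem_of_height {ω : List ℕ → ℕ} {n : ℕ} (hn : numVertices ω = (n : ℕ∞)) :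
    ∃ v ∈ tree ω, v.length = height ω := by
  have hbdd : ∀ x ∈ List.length '' tree ω, x < n := by
    rintro x ⟨v, hv, rfl⟩
    exact length_lt_of_numVertices hn hv
  have hne : (List.length '' tree ω).Nonempty := ⟨_, [], nil_mem_tree ω, rfl⟩
  have hb : BddAbove (List.length '' tree ω) := ⟨n, fun x hx => (hbdd x hx).le⟩
  exact Nat.sSup_mem hne hb

end Pool.Agent.Work.MP_d1698a_pr
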