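import Mathlib

set_option autoImplicit false

open Finset

namespace Pool.Agent.Work.MP_d1698a_pr

/-- abstract data: `m` = offspring weights, `F` = generating series of the total progeny. -/
structure ProgenySeries (m : ℕ → ℝ) (F : PowerSeries ℝ) : Prop where
  m_nonneg : ∀ k, 0 ≤ m k
  F_nonneg : ∀ n, 0 ≤ PowerSeries.coeff n F
  F_zero : PowerSeries.coeff 0 F = 0
  F_succ : ∀ n, PowerSeries.coeff (n + 1) F
    = ∑ k ∈ range (n + 1), m k * PowerSeries.coeff n (F ^ k)
  F_sum : ∀ N, ∑ n ∈ range N, PowerSeries.coeff n F ≤ 1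

namespace ProgenySeries

variable {m : ℕ → ℝ} {F : PowerSeries ℝ}

lemma pow_nonneg (h : ProgenySeries m F) (k n : ℕ) : 0 ≤ PowerSeries.coeff n (F ^ k) := by
  induction k generalizing n with
  | zero =>
    rw [pow_zero, PowerSeries.coeff_one]
    split_ifs <;> norm_num
  | succ k ih =>
    rw [pow_succ, PowerSeries.coeff_mul]
    exact Finset.sum_nonneg fun p _ => mul_nonneg (ih _) (h.F_nonneg _)

lemma coeff_pow_eq_zero (h : ProgenySeries m F) {k n : ℕ} (hkn : n < k) :
    PowerSeries.coeff n (F ^ k) = 0 := by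
  apply PowerSeries.coeff_of_lt_order
  have h1 : (1 : ℕ∞) ≤ F.order := by
    apply PowerSeries.le_order
    intro i hi
    have : i = 0 := by
      have : i < 1 := by exact_mod_cast hi
      omega
    rw [this]; exact h.F_zero
  have h2 : (k : ℕ∞) ≤ (F ^ k).order := by
    calc (k : ℕ∞) = k • (1 : ℕ∞) := by simp
      _ ≤ k • F.order := nsmul_le_nsmul_right h1 k
      _ ≤ (F ^ k).order := PowerSeries.le_order_pow _ k
  exact lt_of_lt_of_le (by exact_mod_cast hkn) h2

lemma pow_sum_le (h : ProgenySeries m F) (k N : ℕ) :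
    ∑ n ∈ range N, PowerSeries.coeff n (F ^ k) ≤ 1 := by
  induction k with
  | zero =>
    rw [pow_zero]
    simp only [PowerSeries.coeff_one]
    rw [Finset.sum_ite_eq' (range N) 0 (fun _ => (1 : ℝ))]
    split_ifs <;> norm_num
  | succ k ih =>
    have h1 : ∑ n ∈ range N, PowerSeries.coeff n (F ^ (k + 1))
        = ∑ n ∈ range N, ∑ p ∈ antidiagonal n,
          PowerSeries.coeff p.1 (F ^ k) * PowerSeries.coeff p.2 F := by
      refine Finset.sum_congr rfl fun n _ => ?_
      rw [pow_succ, PowerSeries.coeff_mul]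
    rw [h1]
    have h2 : ∑ n ∈ range N, ∑ p ∈ antidiagonal n,
          PowerSeries.coeff p.1 (F ^ k) * PowerSeries.coeff p.2 F
        ≤ ∑ p ∈ range N ×ˢ range N, PowerSeries.coeff p.1 (F ^ k) * PowerSeries.coeff p.2 F := by
      rw [Finset.sum_sigma']
      have hinj : Set.InjOn (fun x : (_ : ℕ) × ℕ × ℕ => x.2)
          ((range N).sigma fun n => antidiagonal n : Finset ((_ : ℕ) × ℕ × ℕ)) := by
        rintro ⟨a, b⟩ ha ⟨c, d⟩ hc hbd
        simp only [coe_sigma, Set.mem_sigma_iff, mem_coe, HasAntidiagonal.mem_antidiagonal] at ha hc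
        simp only at hbd
        subst hbd
        have : a = c := by rw [← ha.2, ← hc.2]
        subst this
        rfl
      rw [← Finset.sum_image (f := fun p : ℕ × ℕ =>
        PowerSeries.coeff p.1 (F ^ k) * PowerSeries.coeff p.2 F) hinj]
      apply Finset.sum_le_sum_of_subset_of_nonneg
      · rintro ⟨a, b⟩ hab
        simp only [mem_image, mem_sigma, mem_range, HasAntidiagonal.mem_antidiagonal,
          Sigma.exists] at hab
        obtain ⟨n, p, ⟨hn, hp⟩, hpe⟩ := hab
        rw [hpe] at hp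
        simp only [mem_product, mem_range]
        change a + b = n at hp
        omega
      · intro p _ _
        exact mul_nonneg (h.pow_nonneg _ _) (h.F_nonneg _)
    refine h2.trans ?_
    rw [Finset.sum_product]
    simp only []
    rw [← Finset.sum_mul_sum]
    calc (∑ i ∈ range N, PowerSeries.coeff i (F ^ k)) * ∑ j ∈ range N, PowerSeries.coeff j F
        ≤ 1 * 1 := by
          apply mul_le_mul ih (h.F_sum N) _ zero_le_one
          exact Finset.sum_nonneg fun _ _ => h.F_nonneg _
      _ = 1 := one_mul 1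

/-- first-step decomposition of powers -/
lemma coeff_pow_succ (h : ProgenySeries m F) (k n : ℕ) :
    PowerSeries.coeff (n + 1) (F ^ (k + 1))
      = ∑ j ∈ range (n + 1), m j * PowerSeries.coeff n (F ^ (j + k)) := by
  rw [pow_succ', PowerSeries.coeff_mul]
  rw [Finset.Nat.sum_antidiagonal_succ]
  rw [h.F_zero, zero_mul, zero_add]
  have h1 : ∀ p ∈ antidiagonal n, PowerSeries.coeff (p.1 + 1) F * PowerSeries.coeff p.2 (F ^ k)
      = ∑ j ∈ range (n + 1), m j * (PowerSeries.coeff p.1 (F ^ j)
        * PowerSeries.coeff p.2 (F ^ k)) := by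
    intro p hp
    rw [HasAntidiagonal.mem_antidiagonal] at hp
    rw [h.F_succ, Finset.sum_mul]
    have hsub : range (p.1 + 1) ⊆ range (n + 1) := by
      intro x hx
      simp only [mem_range] at hx ⊢
      omega
    rw [← Finset.sum_subset hsub]
    · refine Finset.sum_congr rfl fun j _ => by ring
    · intro j _ hj
      simp only [mem_range, not_lt] at hj
      rw [h.coeff_pow_eq_zero (show p.1 < j by omega)]
      ring
  rw [Finset.sum_congr rfl h1, Finset.sum_comm]
  refine Finset.sum_congr rfl fun j _ => ?_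
  rw [← Finset.mul_sum, pow_add, PowerSeries.coeff_mul]

/-- the renewal masses `u n = ∑ k, [X^n] F^k` -/
noncomputable def u (F : PowerSeries ℝ) (n : ℕ) : ℝ :=
  ∑ k ∈ range (n + 1), PowerSeries.coeff n (F ^ k)

lemma u_succ (h : ProgenySeries m F) (n : ℕ) :
    u F (n + 1) = ∑ i ∈ range (n + 1),
      (∑ j ∈ range (i + 1), m j) * PowerSeries.coeff n (F ^ i) := by
  unfold u
  rw [Finset.sum_range_succ', pow_zero, PowerSeries.coeff_one, if_neg (Nat.succ_ne_zero n),
    add_zero]
  have h1 : ∀ k ∈ range (n + 1), PowerSeries.coeff (n + 1) (F ^ (k + 1))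
      = ∑ j ∈ range (n + 1), m j * PowerSeries.coeff n (F ^ (j + k)) :=
    fun k _ => h.coeff_pow_succ k n
  rw [Finset.sum_congr rfl h1, Finset.sum_comm]
  have h2 : ∀ i ∈ range (n + 1), (∑ j ∈ range (i + 1), m j) * PowerSeries.coeff n (F ^ i)
      = ∑ j ∈ range (n + 1), if j ≤ i then m j * PowerSeries.coeff n (F ^ i) else 0 := by
    intro i hi
    rw [mem_range] at hi
    rw [Finset.sum_mul, ← Finset.sum_filter]
    refine Finset.sum_congr ?_ fun _ _ => rfl
    ext j
    simp only [mem_range, mem_filter]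
    omega
  rw [Finset.sum_congr rfl h2]
  refine Eq.trans ?_ (Finset.sum_comm (s := range (n + 1)) (t := range (n + 1))
      (f := fun j i => if j ≤ i then m j * PowerSeries.coeff n (F ^ i) else 0))
  refine Finset.sum_congr rfl fun j hj => ?_
  rw [mem_range] at hj
  rw [← Finset.sum_filter]
  have h3 : (range (n + 1)).filter (fun i => j ≤ i) = Finset.Ico j (n + 1) := by
    ext i
    simp only [mem_filter, mem_range, mem_Ico]
    omega
  rw [h3]
  rw [← Finset.sum_subset (s₁ := range (n + 1 - j)) (s₂ := range (n + 1))]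
  · rw [Finset.sum_Ico_eq_sum_range]
  · intro x hx
    simp only [mem_range] at hx ⊢
    omega
  · intro x _ hx
    simp only [mem_range, not_lt] at hx
    rw [h.coeff_pow_eq_zero (show n < j + x by omega)]
    ring

lemma u_zero : u F 0 = 1 := by
  simp [u]

lemma u_ge (h : ProgenySeries m F) (hm : ∀ N, ∑ j ∈ range N, m j ≤ 1) (n : ℕ) :
    1 - ∑ i ∈ range n, (1 - ∑ j ∈ range (i + 1), m j) ≤ u F n := by
  -- `u 0 - u n = ∑_{l<n} ∑_{i≤l} κ_i [X^l] F^i`
  have hstep : ∀ l, u F l - u F (l + 1)
      = ∑ i ∈ range (l + 1), (1 - ∑ j ∈ range (i + 1), m j) * PowerSeries.coeff l (F ^ i) := by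
    intro l
    rw [h.u_succ]
    unfold u
    rw [← Finset.sum_sub_distrib]
    refine Finset.sum_congr rfl fun i _ => by ring
  have htel : u F 0 - u F n = ∑ l ∈ range n, (u F l - u F (l + 1)) := by
    rw [Finset.sum_range_sub']
  have hbound : ∑ l ∈ range n, (u F l - u F (l + 1))
      ≤ ∑ i ∈ range n, (1 - ∑ j ∈ range (i + 1), m j) := by
    have h1 : ∀ l ∈ range n, u F l - u F (l + 1)
        = ∑ i ∈ range n, (1 - ∑ j ∈ range (i + 1), m j) * PowerSeries.coeff l (F ^ i) := by
      intro l hl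
      rw [mem_range] at hl
      rw [hstep]
      refine Finset.sum_subset ?_ ?_
      · intro x hx
        simp only [mem_range] at hx ⊢
        omega
      · intro x _ hx
        simp only [mem_range, not_lt] at hx
        rw [h.coeff_pow_eq_zero (show l < x by omega)]
        ring
    rw [Finset.sum_congr rfl h1, Finset.sum_comm]
    refine Finset.sum_le_sum fun i _ => ?_
    rw [← Finset.mul_sum]
    have h2 : 0 ≤ 1 - ∑ j ∈ range (i + 1), m j := by linarith [hm (i + 1)]
    calc (1 - ∑ j ∈ range (i + 1), m j) * ∑ l ∈ range n, PowerSeries.coeff l (F ^ i)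
        ≤ (1 - ∑ j ∈ range (i + 1), m j) * 1 :=
          mul_le_mul_of_nonneg_left (h.pow_sum_le i n) h2
      _ = 1 - ∑ j ∈ range (i + 1), m j := mul_one _
  rw [← htel, u_zero] at hbound
  linarith

/-- Lower bound for the law of the total progeny. -/
lemma coeff_ge (h : ProgenySeries m F) (n : ℕ) (hn : 1 ≤ n) (b : ℝ)
    (hb : ∀ k, 1 ≤ k → k ≤ n → b ≤ m k) :
    b * u F n ≤ PowerSeries.coeff (n + 1) F := by
  rw [h.F_succ]
  unfold u
  rw [Finset.mul_sum]
  refine Finset.sum_le_sum fun k hk => ?_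
  rw [mem_range] at hk
  rcases Nat.eq_zero_or_pos k with rfl | hk0
  · rw [pow_zero, PowerSeries.coeff_one, if_neg (by omega)]
    simp
  · exact mul_le_mul_of_nonneg_right (hb k hk0 (by omega)) (h.pow_nonneg _ _)

end ProgenySeries

end Pool.Agent.Work.MP_d1698a_pr
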