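import Pool.Agent.Work.MP_d1698a_pr.Height

set_option autoImplicit false

open MeasureTheory ProbabilityTheory Filter Set
open scoped ENNReal Topology

namespace Pool.Agent.Work.MP_d1698a_pr

/-- Complete a sequence of weights on positive integers with mean one to a critical law. -/
lemma exists_pmf_of_weights (w : ℕ → ℝ≥0∞) (hw0 : w 0 = 0)
    (hmean : ∑' k : ℕ, (k : ℝ≥0∞) * w k = 1) :
    ∃ μ : PMF ℕ, (∀ k, 1 ≤ k → μ k = w k) ∧ ∑' k : ℕ, (k : ℝ≥0∞) * μ k = 1 := by
  have hle : ∑' k : ℕ, w k ≤ 1 := by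
    rw [← hmean]
    refine ENNReal.tsum_le_tsum fun k => ?_
    rcases Nat.eq_zero_or_pos k with rfl | hk
    · simp [hw0]
    · calc w k = 1 * w k := (one_mul _).symm
        _ ≤ (k : ℝ≥0∞) * w k := by
          gcongr
          exact_mod_cast hk
  set μ' : ℕ → ℝ≥0∞ := fun k => if k = 0 then 1 - ∑' j, w j else w k with hμ'
  have hsum : ∑' k, μ' k = 1 := by
    rw [tsum_eq_zero_add' ENNReal.summable]
    have h0 : ∑' j, w j = ∑' k, w (k + 1) := by
      rw [tsum_eq_zero_add' ENNReal.summable, hw0, zero_add]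
    have h1 : ∑' k, μ' (k + 1) = ∑' k, w (k + 1) := by
      refine tsum_congr fun k => ?_
      simp [hμ']
    rw [h1, ← h0]
    simp only [hμ', if_true]
    exact tsub_add_cancel_of_le hle
  have hhas : HasSum μ' 1 := by
    rw [← hsum]; exact ENNReal.summable.hasSum
  obtain ⟨ν, hν⟩ : ∃ ν : PMF ℕ, ∀ k, ν k = μ' k := ⟨⟨μ', hhas⟩, fun _ => rfl⟩
  refine ⟨ν, ?_, ?_⟩
  · intro k hk
    rw [hν]
    simp only [hμ']
    rw [if_neg (by omega)]
  · rw [← hmean]
    refine tsum_congr fun k => ?_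
    rw [hν]
    rcases Nat.eq_zero_or_pos k with rfl | hk
    · simp
    · simp only [hμ']
      rw [if_neg (by omega)]

/-- the light part of the offspring law -/
noncomputable def light (k : ℕ) : ℝ≥0∞ :=
  if k = 0 then 0 else ENNReal.ofReal (1 / (k * (k + 1) * (k + 2)))

lemma hasSum_light_aux : HasSum (fun i : ℕ => 1 / (((i : ℝ) + 2) * (i + 3))) (1 / 2) := by
  rw [hasSum_iff_tendsto_nat_of_nonneg]
  · have h : ∀ n : ℕ, ∑ i ∈ Finset.range n, 1 / (((i : ℝ) + 2) * (i + 3)) = 1 / 2 - 1 / (n + 2) := by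
      intro n
      induction n with
      | zero => norm_num
      | succ n ih =>
        rw [Finset.sum_range_succ, ih]
        push_cast
        field_simp
        ring
    simp_rw [h]
    have h2 : Tendsto (fun n : ℕ => (1 : ℝ) / ((n : ℝ) + 2)) atTop (𝓝 0) := by
      have := tendsto_one_div_add_atTop_nhds_zero_nat (𝕜 := ℝ)
      have h3 := (tendsto_add_atTop_iff_nat 1).2 this
      refine h3.congr fun n => ?_
      push_cast
      ring
    simpa using tendsto_const_nhds.sub h2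
  · intro i; positivity

lemma tsum_light : ∑' k : ℕ, (k : ℝ≥0∞) * light k = 1 / 2 := by
  rw [tsum_eq_zero_add' ENNReal.summable]
  simp only [Nat.cast_zero, zero_mul, zero_add]
  have h : ∀ i : ℕ, ((i + 1 : ℕ) : ℝ≥0∞) * light (i + 1)
      = ENNReal.ofReal (1 / (((i : ℝ) + 2) * (i + 3))) := by
    intro i
    unfold light
    rw [if_neg (Nat.succ_ne_zero i)]
    rw [← ENNReal.ofReal_natCast, ← ENNReal.ofReal_mul (by positivity)]
    congr 1
    push_cast
    field_simp
    ring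
  simp_rw [h]
  rw [← ENNReal.ofReal_tsum_of_nonneg (fun i => by positivity) hasSum_light_aux.summable,
    hasSum_light_aux.tsum_eq]
  rw [ENNReal.ofReal_div_of_pos (by norm_num)]
  simp

/-- the heavy part: atoms at the positions `x j`, of mean `2^{-(j+2)}` -/
noncomputable def heavy (x : ℕ → ℕ) (k : ℕ) : ℝ≥0∞ :=
  ∑' j : ℕ, if x j = k then (2 : ℝ≥0∞)⁻¹ ^ (j + 2) / (k : ℝ≥0∞) else 0

lemma tsum_heavy (x : ℕ → ℕ) (hx : ∀ j, 1 ≤ x j) :
    ∑' k : ℕ, (k : ℝ≥0∞) * heavy x k = 1 / 2 := by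
  have h1 : ∀ k : ℕ, (k : ℝ≥0∞) * heavy x k
      = ∑' j : ℕ, if x j = k then (2 : ℝ≥0∞)⁻¹ ^ (j + 2) else 0 := by
    intro k
    unfold heavy
    rw [← ENNReal.tsum_mul_left]
    refine tsum_congr fun j => ?_
    split_ifs with h
    · have hk : (k : ℝ≥0∞) ≠ 0 := by
        rw [← h]
        have := hx j
        exact_mod_cast (by omega : x j ≠ 0)
      exact ENNReal.mul_div_cancel hk (ENNReal.natCast_ne_top k)
    · simp
  simp_rw [h1]
  rw [ENNReal.tsum_comm]
  have h2 : ∀ j : ℕ, (∑' k : ℕ, if x j = k then (2 : ℝ≥0∞)⁻¹ ^ (j + 2) else 0)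
      = (2 : ℝ≥0∞)⁻¹ ^ (j + 2) := by
    intro j
    rw [tsum_eq_single (x j)]
    · simp
    · intro k hk
      rw [if_neg (Ne.symm hk)]
  simp_rw [h2, pow_add]
  rw [ENNReal.tsum_mul_right, ENNReal.tsum_geometric]
  rw [ENNReal.one_sub_inv_two, inv_inv]
  rw [pow_two, ← mul_assoc, ENNReal.mul_inv_cancel (by norm_num) (by norm_num), one_mul, one_div]

/-- For every `f → ∞` there is a critical offspring law, with a polynomial lower bound and with
sufficiently many large atoms. -/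
lemma exists_offspring (f : ℕ → ℝ) (hf : Tendsto f atTop atTop) :
    ∃ μ : PMF ℕ, IsCritical μ ∧
      (∀ k : ℕ, 1 ≤ k → 1 / ((k : ℝ) * (k + 1) * (k + 2)) ≤ (μ k).toReal) ∧
      ∃ N₀ : ℕ, ∀ n : ℕ, N₀ ≤ n → ∃ k : ℕ, 2 * n ^ 7 ≤ k ∧ 2 / f n ≤ k * (μ k).toReal := by
  -- thresholds
  have hN : ∀ j : ℕ, ∃ N : ℕ, j ≤ N ∧ 1 ≤ N ∧ ∀ n, N ≤ n → (2 : ℝ) ^ (j + 3) ≤ f n := by
    intro j
    obtain ⟨N, hN⟩ := (tendsto_atTop_atTop.1 hf) ((2 : ℝ) ^ (j + 3))
    exact ⟨max N (max j 1), by simp, by simp, fun n hn => hN n ((le_max_left _ _).trans hn)⟩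
  choose N hNj hN1 hNf using hN
  set x : ℕ → ℕ := fun j => 2 * (N (j + 1)) ^ 7 with hx
  have hx1 : ∀ j, 1 ≤ x j := by
    intro j
    have : 1 ≤ (N (j + 1)) ^ 7 := Nat.one_le_pow _ _ (hN1 _)
    simp only [hx]
    omega
  set w : ℕ → ℝ≥0∞ := fun k => if k = 0 then 0 else light k + heavy x k with hw
  have hwmean : ∑' k : ℕ, (k : ℝ≥0∞) * w k = 1 := by
    have : ∀ k : ℕ, (k : ℝ≥0∞) * w k = (k : ℝ≥0∞) * light k + (k : ℝ≥0∞) * heavy x k := by
      intro k
      simp only [hw]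
      split_ifs with h
      · simp [h]
      · rw [mul_add]
    simp_rw [this]
    rw [ENNReal.tsum_add, tsum_light, tsum_heavy x hx1]
    exact ENNReal.add_halves 1
  obtain ⟨μ, hμ, hmean⟩ := exists_pmf_of_weights w (by simp [hw]) hwmean
  have hlow : ∀ k : ℕ, 1 ≤ k → 1 / ((k : ℝ) * (k + 1) * (k + 2)) ≤ (μ k).toReal := by
    intro k hk
    have h1 : light k ≤ μ k := by
      rw [hμ k hk]
      simp only [hw]
      rw [if_neg (by omega)]
      exact le_self_add
    have h2 := ENNReal.toReal_mono (PMF.apply_ne_top μ k) h1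
    unfold light at h2
    rw [if_neg (by omega), ENNReal.toReal_ofReal (by positivity)] at h2
    exact h2
  refine ⟨μ, ⟨hmean, ?_⟩, hlow, N 0, ?_⟩
  · intro h1
    have h2 := (PMF.apply_eq_one_iff μ 1).1 h1
    have h3 : (2 : ℕ) ∉ μ.support := by rw [h2]; simp
    rw [PMF.mem_support_iff, not_not] at h3
    have h4 := hlow 2 (by norm_num)
    rw [h3] at h4
    norm_num at h4
  · intro n hn
    -- the largest `j` with `N j ≤ n`
    set j := Nat.findGreatest (fun j => N j ≤ n) n with hj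
    have hj1 : N j ≤ n := Nat.findGreatest_spec (P := fun j => N j ≤ n) (Nat.zero_le n) hn
    have hj2 : n < N (j + 1) := by
      by_contra hcon
      push Not at hcon
      have hle : j + 1 ≤ n := (hNj (j + 1)).trans hcon
      have := Nat.le_findGreatest (P := fun j => N j ≤ n) hle hcon
      omega
    refine ⟨x j, ?_, ?_⟩
    · simp only [hx]
      have : n ^ 7 ≤ (N (j + 1)) ^ 7 := Nat.pow_le_pow_left hj2.le 7
      omega
    · have hfn := hNf j n hj1
      have hfpos : 0 < f n := lt_of_lt_of_le (by positivity) hfn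
      have h1 : (2 : ℝ≥0∞)⁻¹ ^ (j + 2) / ((x j : ℕ) : ℝ≥0∞) ≤ μ (x j) := by
        rw [hμ _ (hx1 j)]
        simp only [hw]
        rw [if_neg (by have := hx1 j; omega)]
        refine le_trans ?_ le_add_self
        unfold heavy
        refine le_trans ?_ (ENNReal.le_tsum j)
        rw [if_pos rfl]
      have h2 := ENNReal.toReal_mono (PMF.apply_ne_top μ _) h1
      rw [ENNReal.toReal_div, ENNReal.toReal_pow, ENNReal.toReal_inv, ENNReal.toReal_natCast] at h2
      have hxpos : (0 : ℝ) < (x j : ℕ) := by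
        have := hx1 j
        exact_mod_cast (by omega : 0 < x j)
      rw [div_le_iff₀ hxpos] at h2
      have h3 : (2 : ℝ≥0∞).toReal = 2 := by simp
      rw [h3] at h2
      calc 2 / f n ≤ 2 / (2 : ℝ) ^ (j + 3) := by gcongr
        _ = (2 : ℝ)⁻¹ ^ (j + 2) := by
            rw [inv_pow]
            field_simp
            ring
        _ ≤ (μ (x j)).toReal * (x j : ℕ) := h2
        _ = (x j : ℕ) * (μ (x j)).toReal := mul_comm _ _

end Pool.Agent.Work.MP_d1698a_pr
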