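import Pool.Agent.Work.MP_d1698a_pr.Offspring

set_option autoImplicit false

open MeasureTheory ProbabilityTheory Filter Set
open scoped ENNReal Topology

namespace Pool.Agent.Work.MP_d1698a_pr

/-- real harmonic numbers -/
noncomputable def hr (X : ℕ) : ℝ := ((harmonic X : ℚ) : ℝ)

lemma hr_zero : hr 0 = 0 := by simp [hr]

lemma hr_succ (X : ℕ) : hr (X + 1) = hr X + 1 / ((X : ℝ) + 1) := by
  unfold hr
  rw [harmonic_succ]
  push_cast
  rw [one_div]

lemma hr_eq_sum (X : ℕ) : hr X = ∑ k ∈ Finset.range X, 1 / ((k : ℝ) + 1) := by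
  induction X with
  | zero => simp [hr_zero]
  | succ n ih => rw [Finset.sum_range_succ, ← ih, hr_succ]

lemma hr_mono {a b : ℕ} (h : a ≤ b) : hr a ≤ hr b := by
  rw [hr_eq_sum, hr_eq_sum]
  apply Finset.sum_le_sum_of_subset_of_nonneg
  · intro x hx
    simp only [Finset.mem_range] at hx ⊢
    omega
  · intro i _ _
    positivity

lemma one_le_hr {X : ℕ} (h : 1 ≤ X) : 1 ≤ hr X := by
  have := hr_mono h
  rw [show (1 : ℕ) = 0 + 1 from rfl, hr_succ, hr_zero] at this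
  simpa using this

lemma log_le_hr {X : ℕ} (h : 1 ≤ X) : Real.log X ≤ hr X := by
  have h1 := log_add_one_le_harmonic X
  refine le_trans ?_ h1
  apply Real.log_le_log
  · exact_mod_cast h
  · push_cast; linarith

lemma hr_le {X : ℕ} : hr X ≤ 1 + Real.log X := harmonic_le_one_add_log X

lemma div_hr_mono {a b : ℕ} (ha : 1 ≤ a) (hab : a ≤ b) : (a : ℝ) / hr a ≤ b / hr b := by
  induction b, hab using Nat.le_induction with
  | base => exact le_rfl
  | succ b hb ih =>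
    refine ih.trans ?_
    have h1 : 1 ≤ hr b := one_le_hr (by omega)
    have h2 : 1 ≤ hr (b + 1) := one_le_hr (by omega)
    rw [div_le_div_iff₀ (by linarith) (by linarith), hr_succ]
    push_cast
    have hb0 : (0 : ℝ) < b := by exact_mod_cast (by omega : 0 < b)
    have : (b : ℝ) * (1 / ((b : ℝ) + 1)) ≤ 1 := by
      rw [mul_one_div, div_le_one (by linarith)]
      linarith
    nlinarith

/-- truncated weights of mean one -/
noncomputable def nu (X : ℕ) (k : ℕ) : ℝ≥0∞ :=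
  if 1 ≤ k ∧ k ≤ X then ENNReal.ofReal (1 / ((k : ℝ) ^ 2 * hr X)) else 0

lemma nu_zero (X : ℕ) : nu X 0 = 0 := by simp [nu]

lemma nu_anti (X : ℕ) {k l : ℕ} (hk : 1 ≤ k) (hkl : k ≤ l) : nu X l ≤ nu X k := by
  unfold nu
  by_cases hl : l ≤ X
  · rw [if_pos ⟨by omega, hl⟩, if_pos ⟨hk, by omega⟩]
    apply ENNReal.ofReal_le_ofReal
    have h1 : 1 ≤ hr X := one_le_hr (by omega)
    have hk0 : (0 : ℝ) < k := by exact_mod_cast hk
    have hkl' : (k : ℝ) ≤ l := by exact_mod_cast hkl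
    apply one_div_le_one_div_of_le (by positivity)
    gcongr
  · rw [if_neg (by omega)]
    exact zero_le

lemma sum_Ico_inv {a b : ℕ} (ha : 1 ≤ a) (hab : a ≤ b) :
    ∑ k ∈ Finset.Ico a b, 1 / (k : ℝ) = hr (b - 1) - hr (a - 1) := by
  induction b, hab using Nat.le_induction with
  | base => simp
  | succ b hb ih =>
    rw [Finset.sum_Ico_succ_top hb, ih]
    obtain ⟨c, rfl⟩ : ∃ c, b = c + 1 := ⟨b - 1, by omega⟩
    simp only [Nat.add_sub_cancel]
    rw [hr_succ]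
    push_cast
    ring

/-- mixture of truncated weights -/
noncomputable def mix (X : ℕ → ℕ) (k : ℕ) : ℝ≥0∞ := ∑' j : ℕ, (2 : ℝ≥0∞)⁻¹ ^ (j + 1) * nu (X j) k

lemma tsum_half_pow : ∑' j : ℕ, (2 : ℝ≥0∞)⁻¹ ^ (j + 1) = 1 := by
  simp_rw [pow_succ]
  rw [ENNReal.tsum_mul_right, ENNReal.tsum_geometric, ENNReal.one_sub_inv_two, inv_inv]
  exact ENNReal.mul_inv_cancel (by norm_num) (by norm_num)

lemma mix_zero (X : ℕ → ℕ) : mix X 0 = 0 := by simp [mix, nu_zero]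

lemma mix_anti (X : ℕ → ℕ) {k l : ℕ} (hk : 1 ≤ k) (hkl : k ≤ l) : mix X l ≤ mix X k :=
  ENNReal.tsum_le_tsum fun j => by gcongr; exact nu_anti _ hk hkl

lemma mul_nu (X k : ℕ) (hk : 1 ≤ k) (hkX : k ≤ X) :
    (k : ℝ≥0∞) * nu X k = ENNReal.ofReal (1 / (k : ℝ) / hr X) := by
  unfold nu
  rw [if_pos ⟨hk, hkX⟩, ← ENNReal.ofReal_natCast, ← ENNReal.ofReal_mul (by positivity)]
  congr 1
  have h1 : 1 ≤ hr X := one_le_hr (by omega)
  have hk0 : (0 : ℝ) < k := by exact_mod_cast hk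
  field_simp

lemma tsum_mul_nu {X : ℕ} (hX : 1 ≤ X) : ∑' k : ℕ, (k : ℝ≥0∞) * nu X k = 1 := by
  rw [tsum_eq_sum (s := Finset.Ico 1 (X + 1))]
  · rw [Finset.sum_congr rfl (fun k hk => mul_nu X k (Finset.mem_Ico.1 hk).1
      (by have := (Finset.mem_Ico.1 hk).2; omega))]
    rw [← ENNReal.ofReal_sum_of_nonneg]
    · rw [← Finset.sum_div, sum_Ico_inv le_rfl (by omega)]
      simp only [Nat.add_sub_cancel, Nat.sub_self, hr_zero, sub_zero]
      have h1 : 1 ≤ hr X := one_le_hr hX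
      rw [div_self (by linarith), ENNReal.ofReal_one]
    · intro k _
      have h1 : 1 ≤ hr X := one_le_hr hX
      positivity
  · intro k hk
    rw [Finset.mem_Ico] at hk
    unfold nu
    rw [if_neg (by omega), mul_zero]

lemma tsum_mul_mix (X : ℕ → ℕ) (hX : ∀ j, 1 ≤ X j) : ∑' k : ℕ, (k : ℝ≥0∞) * mix X k = 1 := by
  have h1 : ∀ k : ℕ, (k : ℝ≥0∞) * mix X k
      = ∑' j : ℕ, (2 : ℝ≥0∞)⁻¹ ^ (j + 1) * ((k : ℝ≥0∞) * nu (X j) k) := by
    intro k
    unfold mix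
    rw [← ENNReal.tsum_mul_left]
    refine tsum_congr fun j => by ring
  simp_rw [h1]
  rw [ENNReal.tsum_comm]
  have h2 : ∀ j : ℕ, (∑' k : ℕ, (2 : ℝ≥0∞)⁻¹ ^ (j + 1) * ((k : ℝ≥0∞) * nu (X j) k))
      = (2 : ℝ≥0∞)⁻¹ ^ (j + 1) := by
    intro j
    rw [ENNReal.tsum_mul_left, tsum_mul_nu (hX j), mul_one]
  simp_rw [h2]
  exact tsum_half_pow

lemma sq_mul_nu (X k : ℕ) (hk : 1 ≤ k) (hkX : k ≤ X) :
    (k : ℝ≥0∞) ^ 2 * nu X k = ENNReal.ofReal (1 / hr X) := by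
  unfold nu
  rw [if_pos ⟨hk, hkX⟩, ← ENNReal.ofReal_natCast, ← ENNReal.ofReal_pow (by positivity),
    ← ENNReal.ofReal_mul (by positivity)]
  congr 1
  have h1 : 1 ≤ hr X := one_le_hr (by omega)
  have hk0 : (0 : ℝ) < k := by exact_mod_cast hk
  field_simp

lemma sum_sq_nu_le {X M : ℕ} (hX : 1 ≤ X) (hM : 1 ≤ M) :
    ∑ k ∈ Finset.range M, (k : ℝ≥0∞) ^ 2 * nu X k ≤ ENNReal.ofReal (M / hr M) := by
  have hX1 : 1 ≤ hr X := one_le_hr hX
  have hM1 : 1 ≤ hr M := one_le_hr hM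
  -- reduce to the range `1 .. min (M-1) X`
  have h1 : ∑ k ∈ Finset.range M, (k : ℝ≥0∞) ^ 2 * nu X k
      ≤ ((min M X : ℕ) : ℝ≥0∞) * ENNReal.ofReal (1 / hr X) := by
    calc ∑ k ∈ Finset.range M, (k : ℝ≥0∞) ^ 2 * nu X k
        ≤ ∑ k ∈ Finset.Ico 1 (min M X + 1), ENNReal.ofReal (1 / hr X) := by
          rw [← Finset.sum_filter_add_sum_filter_not (Finset.range M) (fun k => 1 ≤ k ∧ k ≤ X)]
          have e0 : ∑ k ∈ (Finset.range M).filter (fun k => ¬ (1 ≤ k ∧ k ≤ X)),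
              (k : ℝ≥0∞) ^ 2 * nu X k = 0 := by
            apply Finset.sum_eq_zero
            intro k hk
            rw [Finset.mem_filter] at hk
            unfold nu
            rw [if_neg hk.2, mul_zero]
          rw [e0, add_zero]
          have e1 : ∑ k ∈ (Finset.range M).filter (fun k => 1 ≤ k ∧ k ≤ X),
              (k : ℝ≥0∞) ^ 2 * nu X k
              = ∑ k ∈ (Finset.range M).filter (fun k => 1 ≤ k ∧ k ≤ X),
                ENNReal.ofReal (1 / hr X) := by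
            refine Finset.sum_congr rfl fun k hk => ?_
            rw [Finset.mem_filter] at hk
            exact sq_mul_nu X k hk.2.1 hk.2.2
          rw [e1]
          apply Finset.sum_le_sum_of_subset
          intro k hk
          simp only [Finset.mem_filter, Finset.mem_range, Finset.mem_Ico] at hk ⊢
          omega
      _ = _ := by simp
  refine h1.trans ?_
  rw [← ENNReal.ofReal_natCast, ← ENNReal.ofReal_mul (by positivity)]
  apply ENNReal.ofReal_le_ofReal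
  rw [mul_one_div]
  rcases le_total M X with h | h
  · rw [min_eq_left h]
    have := hr_mono h
    gcongr
  · rw [min_eq_right h]
    exact div_hr_mono hX h

lemma sum_sq_mix_le (X : ℕ → ℕ) (hX : ∀ j, 1 ≤ X j) {M : ℕ} (hM : 1 ≤ M) :
    ∑ k ∈ Finset.range M, (k : ℝ≥0∞) ^ 2 * mix X k ≤ ENNReal.ofReal (M / hr M) := by
  have h1 : ∀ k : ℕ, (k : ℝ≥0∞) ^ 2 * mix X k
      = ∑' j : ℕ, (2 : ℝ≥0∞)⁻¹ ^ (j + 1) * ((k : ℝ≥0∞) ^ 2 * nu (X j) k) := by
    intro k
    unfold mix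
    rw [← ENNReal.tsum_mul_left]
    refine tsum_congr fun j => by ring
  simp_rw [h1]
  rw [← Summable.tsum_finsetSum (fun _ _ => ENNReal.summable)]
  simp_rw [← Finset.mul_sum]
  calc ∑' j : ℕ, (2 : ℝ≥0∞)⁻¹ ^ (j + 1) * ∑ k ∈ Finset.range M, (k : ℝ≥0∞) ^ 2 * nu (X j) k
      ≤ ∑' j : ℕ, (2 : ℝ≥0∞)⁻¹ ^ (j + 1) * ENNReal.ofReal (M / hr M) :=
        ENNReal.tsum_le_tsum fun j => by gcongr; exact sum_sq_nu_le (hX j) hM
    _ = ENNReal.ofReal (M / hr M) := by rw [ENNReal.tsum_mul_right, tsum_half_pow, one_mul]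

/-- the base scales -/
def baseX (j : ℕ) : ℕ := 2 ^ (2 ^ j)

lemma one_le_baseX (j : ℕ) : 1 ≤ baseX j := Nat.one_le_two_pow

lemma exists_baseX {k : ℕ} (hk : 2 ≤ k) : ∃ j, k ≤ baseX j ∧ baseX j ≤ k ^ 2 := by
  have hex : ∃ j, k ≤ baseX j := by
    refine ⟨k, ?_⟩
    unfold baseX
    have h1 : k < 2 ^ k := Nat.lt_two_pow_self
    have h2 : 2 ^ k < 2 ^ (2 ^ k) := Nat.pow_lt_pow_right (by norm_num) h1
    omega
  classical
  refine ⟨Nat.find hex, Nat.find_spec hex, ?_⟩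
  rcases Nat.eq_zero_or_pos (Nat.find hex) with h0 | h0
  · rw [h0]
    have : baseX 0 = 2 := by simp [baseX]
    rw [this]
    nlinarith
  · obtain ⟨i, hi⟩ : ∃ i, Nat.find hex = i + 1 := ⟨Nat.find hex - 1, by omega⟩
    have h1 : ¬ k ≤ baseX i := Nat.find_min hex (by omega)
    push Not at h1
    rw [hi]
    have h2 : baseX (i + 1) = baseX i ^ 2 := by
      unfold baseX
      rw [← pow_mul, pow_succ]
    rw [h2]
    exact Nat.pow_le_pow_left h1.le 2

lemma mix_base_ge {k : ℕ} (hk : 2 ≤ k) :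
    ENNReal.ofReal (1 / (32 * (k : ℝ) ^ 2 * Real.log k ^ 2)) ≤ mix baseX k := by
  obtain ⟨j, hj1, hj2⟩ := exists_baseX hk
  have hk0 : (0 : ℝ) < k := by exact_mod_cast (by omega : 0 < k)
  have hk2 : (2 : ℝ) ≤ k := by exact_mod_cast hk
  have hlog2 : (0.69 : ℝ) < Real.log 2 := by have := Real.log_two_gt_d9; linarith
  have hlogk : Real.log 2 ≤ Real.log k := Real.log_le_log (by norm_num) hk2
  have hlogpos : 0 < Real.log k := by linarith
  have hlogX : Real.log (baseX j) ≤ 2 * Real.log k := by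
    have : Real.log (baseX j) ≤ Real.log ((k : ℝ) ^ 2) := by
      apply Real.log_le_log
      · exact_mod_cast one_le_baseX j
      · exact_mod_cast hj2
    rwa [Real.log_pow, Nat.cast_ofNat] at this
  have hlogX' : Real.log (baseX j) = (2 : ℝ) ^ j * Real.log 2 := by
    unfold baseX
    push_cast
    rw [Real.log_pow]
    push_cast
    ring
  have hpow : (2 : ℝ) ^ j ≤ 4 * Real.log k := by
    rw [hlogX'] at hlogX
    have h0 : (0 : ℝ) < 2 ^ j := by positivity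
    nlinarith
  have hH : hr (baseX j) ≤ 4 * Real.log k := by
    have := hr_le (X := baseX j)
    linarith
  have hH1 : 1 ≤ hr (baseX j) := one_le_hr (one_le_baseX j)
  refine le_trans ?_ (ENNReal.le_tsum j)
  unfold nu
  rw [if_pos ⟨by omega, hj1⟩]
  have h2 : ((2 : ℝ≥0∞)⁻¹ ^ (j + 1)) = ENNReal.ofReal ((2 : ℝ)⁻¹ ^ (j + 1)) := by
    rw [ENNReal.ofReal_pow (by norm_num), ENNReal.ofReal_inv_of_pos (by norm_num)]
    simp
  rw [h2, ← ENNReal.ofReal_mul (by positivity)]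
  apply ENNReal.ofReal_le_ofReal
  have h3 : 1 / (8 * Real.log k) ≤ (2 : ℝ)⁻¹ ^ (j + 1) := by
    rw [inv_pow, ← one_div]
    apply one_div_le_one_div_of_le (by positivity)
    rw [pow_succ]
    linarith
  calc 1 / (32 * (k : ℝ) ^ 2 * Real.log k ^ 2)
      = 1 / (8 * Real.log k) * (1 / ((k : ℝ) ^ 2 * (4 * Real.log k))) := by
        field_simp
        ring
    _ ≤ (2 : ℝ)⁻¹ ^ (j + 1) * (1 / ((k : ℝ) ^ 2 * hr (baseX j))) := by
        gcongr

lemma sum_tail_nu {R X : ℕ} (hR : 1 ≤ R) (hX : 8 * R ^ 2 ≤ X) :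
    (1 : ℝ) / 2 ≤ ∑ k ∈ Finset.Ico R (X + 1), 1 / (k : ℝ) / hr X := by
  have hRX : R ≤ X + 1 := by nlinarith
  have hX1 : 1 ≤ X := by nlinarith
  rw [← Finset.sum_div, sum_Ico_inv hR hRX]
  simp only [Nat.add_sub_cancel]
  have h1 : 1 ≤ hr X := one_le_hr hX1
  rw [le_div_iff₀ (by linarith)]
  have h2 : hr (R - 1) ≤ 1 + Real.log R := by
    refine (hr_mono (by omega : R - 1 ≤ R)).trans hr_le
  have h3 : Real.log (8 * (R : ℝ) ^ 2) ≤ hr X := by
    refine le_trans ?_ (log_le_hr hX1)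
    apply Real.log_le_log
    · have : (0 : ℝ) < R := by exact_mod_cast hR
      positivity
    · exact_mod_cast hX
  have hR0 : (0 : ℝ) < R := by exact_mod_cast hR
  rw [Real.log_mul (by norm_num) (by positivity), Real.log_pow] at h3
  have h4 : (2 : ℝ) ≤ Real.log 8 := by
    have : Real.log 8 = 3 * Real.log 2 := by
      rw [show (8 : ℝ) = 2 ^ 3 by norm_num, Real.log_pow]; norm_num
    have h5 := Real.log_two_gt_d9
    linarith
  push_cast at h3
  linarith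

/-- The offspring law used for the two-sided result. -/
lemma exists_offspring2 (f : ℕ → ℝ) (hf : Tendsto f atTop atTop) :
    ∃ μ : PMF ℕ, IsCritical μ ∧
      (∀ k l : ℕ, 1 ≤ k → k ≤ l → (μ l).toReal ≤ (μ k).toReal) ∧
      (∀ k : ℕ, 2 ≤ k → 1 / (64 * (k : ℝ) ^ 2 * Real.log k ^ 2) ≤ (μ k).toReal) ∧
      (∀ M : ℕ, 1 ≤ M → ∑ k ∈ Finset.range M, (k : ℝ) ^ 2 * (μ k).toReal ≤ M / hr M) ∧
      ∀ J : ℕ, ∃ N₀ : ℕ, ∀ n : ℕ, N₀ ≤ n → ∃ j : ℕ, J ≤ j ∧ (16 : ℝ) ^ (j + 1) ≤ f n ∧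
        (8 : ℝ) ^ (j + 1) ≤ Real.log (Real.log n) ∧
        ∃ s : Finset ℕ, (∀ k ∈ s, 2 * n ^ 3 ≤ k) ∧
          1 / (2 : ℝ) ^ (j + 3) ≤ ∑ k ∈ s, (k : ℝ) * (μ k).toReal := by
  have hloglog : Tendsto (fun n : ℕ => Real.log (Real.log n)) atTop atTop :=
    Real.tendsto_log_atTop.comp (Real.tendsto_log_atTop.comp tendsto_natCast_atTop_atTop)
  have hN : ∀ j : ℕ, ∃ N : ℕ, j ≤ N ∧ 1 ≤ N ∧ ∀ n, N ≤ n → (16 : ℝ) ^ (j + 1) ≤ f n ∧
      (8 : ℝ) ^ (j + 1) ≤ Real.log (Real.log n) := by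
    intro j
    obtain ⟨N, hN⟩ := (tendsto_atTop_atTop.1 hf) ((16 : ℝ) ^ (j + 1))
    obtain ⟨N', hN'⟩ := (tendsto_atTop_atTop.1 hloglog) ((8 : ℝ) ^ (j + 1))
    exact ⟨max (max N N') (max j 1), by simp, by simp, fun n hn =>
      ⟨hN n (by omega), hN' n (by omega)⟩⟩
  choose N hNj hN1 hNf using hN
  set X : ℕ → ℕ := fun j => 8 * (2 * N (j + 1) ^ 3) ^ 2 with hXdef
  have hX1 : ∀ j, 1 ≤ X j := by
    intro j
    have h1 : 1 ≤ N (j + 1) ^ 3 := Nat.one_le_pow _ _ (hN1 _)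
    have h2 : 1 ≤ (2 * N (j + 1) ^ 3) ^ 2 := Nat.one_le_pow _ _ (by omega)
    simp only [hXdef]
    omega
  set w : ℕ → ℝ≥0∞ := fun k => (mix baseX k + mix X k) / 2 with hw
  have hwmean : ∑' k : ℕ, (k : ℝ≥0∞) * w k = 1 := by
    have : ∀ k : ℕ, (k : ℝ≥0∞) * w k
        = ((k : ℝ≥0∞) * mix baseX k + (k : ℝ≥0∞) * mix X k) * 2⁻¹ := by
      intro k
      simp only [hw, div_eq_mul_inv]
      ring
    simp_rw [this]
    rw [ENNReal.tsum_mul_right, ENNReal.tsum_add, tsum_mul_mix _ one_le_baseX,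
      tsum_mul_mix _ hX1]
    rw [one_add_one_eq_two]
    exact ENNReal.mul_inv_cancel (by norm_num) (by norm_num)
  obtain ⟨μ, hμ, hmean⟩ := exists_pmf_of_weights w (by simp [hw, mix_zero]) hwmean
  have hge1 : ∀ k, 1 ≤ k → mix baseX k * 2⁻¹ ≤ μ k := by
    intro k hk
    rw [hμ k hk]
    simp only [hw, div_eq_mul_inv]
    gcongr
    exact le_self_add
  have hge2 : ∀ k, 1 ≤ k → mix X k * 2⁻¹ ≤ μ k := by
    intro k hk
    rw [hμ k hk]
    simp only [hw, div_eq_mul_inv]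
    gcongr
    exact le_add_self
  have hlow : ∀ k : ℕ, 2 ≤ k → 1 / (64 * (k : ℝ) ^ 2 * Real.log k ^ 2) ≤ (μ k).toReal := by
    intro k hk
    have h1 : ENNReal.ofReal (1 / (64 * (k : ℝ) ^ 2 * Real.log k ^ 2)) ≤ μ k := by
      refine le_trans ?_ (hge1 k (by omega))
      refine le_trans (le_of_eq ?_) (mul_le_mul_left (mix_base_ge hk) (2 : ℝ≥0∞)⁻¹)
      have h2 : (2 : ℝ≥0∞)⁻¹ = ENNReal.ofReal (2 : ℝ)⁻¹ := by
        rw [ENNReal.ofReal_inv_of_pos (by norm_num)]; simp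
      rw [h2, ← ENNReal.ofReal_mul (by positivity)]
      congr 1
      rw [← one_div (2 : ℝ), div_mul_div_comm]
      congr 1 <;> ring
    have h2 := ENNReal.toReal_mono (PMF.apply_ne_top μ k) h1
    rwa [ENNReal.toReal_ofReal (by positivity)] at h2
  refine ⟨μ, ⟨hmean, ?_⟩, ?_, hlow, ?_, ?_⟩
  · intro h1
    have h2 := (PMF.apply_eq_one_iff μ 1).1 h1
    have h3 : (2 : ℕ) ∉ μ.support := by rw [h2]; simp
    rw [PMF.mem_support_iff, not_not] at h3
    have h4 := hlow 2 (by norm_num)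
    rw [h3] at h4
    have h5 : (0 : ℝ) < Real.log 2 := Real.log_pos (by norm_num)
    have h6 : 0 < 1 / (64 * ((2 : ℕ) : ℝ) ^ 2 * Real.log ((2 : ℕ) : ℝ) ^ 2) := by
      push_cast
      positivity
    rw [ENNReal.toReal_zero] at h4
    linarith
  · intro k l hk hkl
    apply ENNReal.toReal_mono (PMF.apply_ne_top μ k)
    rw [hμ k hk, hμ l (by omega)]
    simp only [hw]
    gcongr
    · exact mix_anti _ hk hkl
    · exact mix_anti _ hk hkl
  · intro M hM
    have h1 : ∑ k ∈ Finset.range M, (k : ℝ≥0∞) ^ 2 * μ k ≤ ENNReal.ofReal (M / hr M) := by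
      have e : ∀ k ∈ Finset.range M, (k : ℝ≥0∞) ^ 2 * μ k
          = ((k : ℝ≥0∞) ^ 2 * mix baseX k + (k : ℝ≥0∞) ^ 2 * mix X k) * 2⁻¹ := by
        intro k _
        rcases Nat.eq_zero_or_pos k with rfl | hk
        · simp
        · rw [hμ k hk]
          simp only [hw, div_eq_mul_inv]
          ring
      rw [Finset.sum_congr rfl e, ← Finset.sum_mul, Finset.sum_add_distrib]
      calc (∑ k ∈ Finset.range M, (k : ℝ≥0∞) ^ 2 * mix baseX k
            + ∑ k ∈ Finset.range M, (k : ℝ≥0∞) ^ 2 * mix X k) * 2⁻¹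
          ≤ (ENNReal.ofReal (M / hr M) + ENNReal.ofReal (M / hr M)) * 2⁻¹ := by
            gcongr
            · exact sum_sq_mix_le _ one_le_baseX hM
            · exact sum_sq_mix_le _ hX1 hM
        _ = ENNReal.ofReal (M / hr M) := by
            rw [← two_mul, mul_comm, ← mul_assoc, ENNReal.inv_mul_cancel (by norm_num) (by norm_num),
              one_mul]
    have h2 := ENNReal.toReal_mono ENNReal.ofReal_ne_top h1
    have hM1 : 1 ≤ hr M := one_le_hr hM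
    rw [ENNReal.toReal_ofReal (by positivity), ENNReal.toReal_sum] at h2
    · refine le_trans (le_of_eq ?_) h2
      refine Finset.sum_congr rfl fun k _ => ?_
      rw [ENNReal.toReal_mul, ENNReal.toReal_pow, ENNReal.toReal_natCast]
    · intro k _
      exact ENNReal.mul_ne_top (ENNReal.pow_ne_top (ENNReal.natCast_ne_top k))
        (PMF.apply_ne_top μ k)
  · intro J
    refine ⟨N J, fun n hn => ?_⟩
    have hJn : J ≤ n := (hNj J).trans hn
    set j := Nat.findGreatest (fun j => N j ≤ n) n with hj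
    have hj1 : N j ≤ n := Nat.findGreatest_spec (P := fun j => N j ≤ n) hJn hn
    have hJj : J ≤ j := Nat.le_findGreatest (P := fun j => N j ≤ n) hJn hn
    have hj2 : n < N (j + 1) := by
      by_contra hcon
      push Not at hcon
      have hle : j + 1 ≤ n := (hNj (j + 1)).trans hcon
      have := Nat.le_findGreatest (P := fun j => N j ≤ n) hle hcon
      omega
    refine ⟨j, hJj, (hNf j n hj1).1, (hNf j n hj1).2, Finset.Ico (2 * n ^ 3) (X j + 1), ?_, ?_⟩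
    · intro k hk
      exact (Finset.mem_Ico.1 hk).1
    · have hn1 : 1 ≤ n := (hN1 j).trans hj1
      have hR : 1 ≤ 2 * n ^ 3 := by
        have : 1 ≤ n ^ 3 := Nat.one_le_pow _ _ hn1
        omega
      have hX : 8 * (2 * n ^ 3) ^ 2 ≤ X j := by
        simp only [hXdef]
        have : n ^ 3 ≤ N (j + 1) ^ 3 := Nat.pow_le_pow_left hj2.le 3
        have h2 : (2 * n ^ 3) ^ 2 ≤ (2 * N (j + 1) ^ 3) ^ 2 := Nat.pow_le_pow_left (by omega) 2
        omega
      have hs := sum_tail_nu hR hX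
      have hXr : 1 ≤ hr (X j) := one_le_hr (hX1 j)
      have hterm : ∀ k ∈ Finset.Ico (2 * n ^ 3) (X j + 1),
          (1 / 2 : ℝ) ^ (j + 2) * (1 / (k : ℝ) / hr (X j)) ≤ (k : ℝ) * (μ k).toReal := by
        intro k hk
        rw [Finset.mem_Ico] at hk
        have hk1 : 1 ≤ k := by omega
        have h1 : (2 : ℝ≥0∞)⁻¹ ^ (j + 1) * nu (X j) k * 2⁻¹ ≤ μ k := by
          refine le_trans ?_ (hge2 k hk1)
          gcongr
          exact ENNReal.le_tsum j
        have h2 := ENNReal.toReal_mono (PMF.apply_ne_top μ k) h1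
        unfold nu at h2
        rw [if_pos ⟨hk1, by omega⟩, ENNReal.toReal_mul, ENNReal.toReal_mul, ENNReal.toReal_pow,
          ENNReal.toReal_inv, ENNReal.toReal_ofReal (by positivity)] at h2
        have hk0 : (0 : ℝ) < k := by exact_mod_cast hk1
        have h3 : (2 : ℝ≥0∞).toReal = 2 := by simp
        rw [h3] at h2
        calc (1 / 2 : ℝ) ^ (j + 2) * (1 / (k : ℝ) / hr (X j))
            = (k : ℝ) * ((2 : ℝ)⁻¹ ^ (j + 1) * (1 / ((k : ℝ) ^ 2 * hr (X j))) * 2⁻¹) := by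
              rw [pow_succ, one_div (2 : ℝ)]
              field_simp
          _ ≤ _ := mul_le_mul_of_nonneg_left h2 hk0.le
      calc 1 / (2 : ℝ) ^ (j + 3) = (1 / 2 : ℝ) ^ (j + 2) * (1 / 2) := by
            rw [← pow_succ, one_div, one_div, inv_pow]
        _ ≤ (1 / 2 : ℝ) ^ (j + 2) * ∑ k ∈ Finset.Ico (2 * n ^ 3) (X j + 1), 1 / (k : ℝ) / hr (X j) := by
            gcongr
        _ = ∑ k ∈ Finset.Ico (2 * n ^ 3) (X j + 1), (1 / 2 : ℝ) ^ (j + 2) * (1 / (k : ℝ) / hr (X j)) := by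
            rw [Finset.mul_sum]
        _ ≤ _ := Finset.sum_le_sum hterm

end Pool.Agent.Work.MP_d1698a_pr
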