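import Pool.Agent.Work.MP_d1698a_pr.Basic
import Pool.Agent.Work.MP_d1698a_pr.Lower

set_option autoImplicit false

open MeasureTheory ProbabilityTheory Filter Set
open scoped ENNReal Topology

namespace Pool.Agent.Work.MP_d1698a_pr

lemma tree_eq (ω : List ℕ → ℕ) :
    tree ω = {[]} ∪ ⋃ i ∈ Finset.range (ω []), List.cons i '' tree (sub i ω) := by
  ext v
  simp only [mem_union, mem_singleton_iff, mem_iUnion, mem_image, exists_prop, Finset.mem_range]
  cases v with
  | nil => simp [nil_mem_tree]
  | cons i u =>
    rw [cons_mem_tree]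
    constructor
    · rintro ⟨h1, h2⟩
      exact Or.inr ⟨i, h1, u, h2, rfl⟩
    · rintro (h | ⟨j, hj, w, hw, hjw⟩)
      · exact absurd h (List.cons_ne_nil _ _)
      · rw [List.cons.injEq] at hjw
        obtain ⟨rfl, rfl⟩ := hjw
        exact ⟨hj, hw⟩

lemma encard_biUnion_cons (ω : List ℕ → ℕ) (k : ℕ) :
    (⋃ i ∈ Finset.range k, List.cons i '' tree (sub i ω)).encard
      = ∑ i ∈ Finset.range k, numVertices (sub i ω) := by
  induction k with
  | zero => simp
  | succ k ih =>
    rw [Finset.sum_range_succ, ← ih, Finset.range_add_one, Finset.set_biUnion_insert,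
      union_comm, Set.encard_union_eq]
    · congr 1
      unfold numVertices
      exact (List.cons_injective (a := k)).encard_image _
    · rw [Set.disjoint_left]
      intro v hv hv'
      simp only [mem_iUnion, mem_image, exists_prop, Finset.mem_range] at hv hv'
      obtain ⟨i, hi, w, _, rfl⟩ := hv
      obtain ⟨w', _, hww⟩ := hv'
      rw [List.cons.injEq] at hww
      omega

lemma numVertices_eq (ω : List ℕ → ℕ) :
    numVertices ω = 1 + ∑ i ∈ Finset.range (ω []), numVertices (sub i ω) := by
  rw [← encard_biUnion_cons]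
  conv_lhs => rw [numVertices, tree_eq]
  rw [Set.encard_union_eq, Set.encard_singleton]
  rw [Set.disjoint_left]
  intro v hv hv'
  simp only [mem_singleton_iff] at hv
  subst hv
  simp at hv'

lemma one_le_numVertices (ω : List ℕ → ℕ) : 1 ≤ numVertices ω := by
  rw [numVertices_eq]
  exact le_self_add

/-- probability that the tree has `n` vertices -/
noncomputable def prog (μ : PMF ℕ) (n : ℕ) : ℝ :=
  (gw μ).real {ω | numVertices ω = (n : ℕ∞)}

/-- the generating series of the total progeny -/
noncomputable def progSeries (μ : PMF ℕ) : PowerSeries ℝ := PowerSeries.mk (prog μ)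

lemma sum_eq_natCast_iff {k n : ℕ} (N : ℕ → ℕ∞) :
    ∑ i ∈ Finset.range k, N i = (n : ℕ∞) ↔
      ∃ l ∈ (Finset.range k).finsuppAntidiag n, ∀ i < k, N i = ((l i : ℕ) : ℕ∞) := by
  classical
  constructor
  · intro h
    have hfin : ∀ i < k, N i ≠ ⊤ := by
      intro i hi htop
      have : N i ≤ ∑ i ∈ Finset.range k, N i :=
        Finset.single_le_sum (f := N) (fun _ _ => zero_le) (Finset.mem_range.2 hi)
      rw [htop, h] at this
      exact absurd this (by simp)
    refine ⟨Finsupp.onFinset (Finset.range k) (fun i => if i < k then (N i).toNat else 0) ?_, ?_, ?_⟩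
    · intro i hi
      by_contra hcon
      rw [Finset.mem_range] at hcon
      simp [hcon] at hi
    · rw [Finset.mem_finsuppAntidiag]
      constructor
      · have h1 : ((∑ i ∈ Finset.range k, (if i < k then (N i).toNat else 0) : ℕ) : ℕ∞) = n := by
          rw [← h]
          push_cast
          refine Finset.sum_congr rfl fun i hi => ?_
          rw [Finset.mem_range] at hi
          rw [if_pos hi]
          exact ENat.natCast_toNat (hfin i hi)
        have h2 : (∑ i ∈ Finset.range k, (if i < k then (N i).toNat else 0) : ℕ) = n := by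
          exact_mod_cast h1
        rw [← h2]
        refine Finset.sum_congr rfl fun i _ => ?_
        simp [Finsupp.onFinset_apply]
      · exact Finsupp.support_onFinset_subset
    · intro i hi
      simp only [Finsupp.onFinset_apply, if_pos hi]
      exact (ENat.natCast_toNat (hfin i hi)).symm
  · rintro ⟨l, hl, h⟩
    rw [Finset.mem_finsuppAntidiag] at hl
    rw [← hl.1]
    push_cast
    refine Finset.sum_congr rfl fun i hi => ?_
    exact h i (by simpa using hi)

lemma measure_root_and_sum (μ : PMF ℕ) (k n : ℕ) :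
    (gw μ).real {ω | ω [] = k ∧ ∑ i ∈ Finset.range k, numVertices (sub i ω) = (n : ℕ∞)}
      = (μ k).toReal * PowerSeries.coeff n ((progSeries μ) ^ k) := by
  classical
  have hset : {ω : List ℕ → ℕ | ω [] = k ∧
        ∑ i ∈ Finset.range k, numVertices (sub i ω) = (n : ℕ∞)}
      = ⋃ l ∈ (Finset.range k).finsuppAntidiag n,
        {ω | ω [] = k ∧ ∀ i < k, sub i ω ∈ {ω' | numVertices ω' = ((l i : ℕ) : ℕ∞)}} := by
    ext ω
    simp only [mem_ofPred_eq, mem_iUnion, exists_prop]
    rw [sum_eq_natCast_iff (fun i => numVertices (sub i ω))]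
    constructor
    · rintro ⟨h1, l, hl, h2⟩
      exact ⟨l, hl, h1, h2⟩
    · rintro ⟨l, hl, h1, h2⟩
      exact ⟨h1, l, hl, h2⟩
  rw [hset, measureReal_biUnion_finset]
  · rw [PowerSeries.coeff_pow, Finset.mul_sum]
    refine Finset.sum_congr rfl fun l _ => ?_
    rw [measureReal_def, branching μ k _ (fun i _ => measurableSet_numVertices_eq _),
      ENNReal.toReal_mul, ENNReal.toReal_prod]
    congr 1
    refine Finset.prod_congr rfl fun i _ => ?_
    rw [progSeries, PowerSeries.coeff_mk, prog, measureReal_def]
  · intro l hl l' hl' hne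
    rw [Function.onFun, Set.disjoint_left]
    rintro ω ⟨_, h1⟩ ⟨_, h2⟩
    apply hne
    rw [Finset.mem_coe, Finset.mem_finsuppAntidiag] at hl hl'
    ext i
    by_cases hi : i < k
    · have h3 := h1 i hi
      have h4 := h2 i hi
      simp only [mem_ofPred_eq] at h3 h4
      rw [h3] at h4
      exact_mod_cast h4
    · have h3 : i ∉ l.support := fun hc => hi (by simpa using hl.2 hc)
      have h4 : i ∉ l'.support := fun hc => hi (by simpa using hl'.2 hc)
      rw [Finsupp.notMem_support_iff] at h3 h4
      rw [h3, h4]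
  · intro l _
    have : {ω : List ℕ → ℕ | ω [] = k ∧ ∀ i < k, sub i ω ∈ {ω' | numVertices ω' = ((l i : ℕ) : ℕ∞)}}
        = {ω | ω [] = k} ∩ ⋂ i ∈ Finset.range k,
          (sub i) ⁻¹' {ω' | numVertices ω' = ((l i : ℕ) : ℕ∞)} := by
      ext ω; simp
    rw [this]
    refine MeasurableSet.inter ?_ ?_
    · have h : Measurable fun ω : List ℕ → ℕ => ω [] := by fun_prop
      exact h (measurableSet_singleton k)
    · exact MeasurableSet.biInter (Finset.countable_toSet _) fun i _ =>
        measurable_sub i (measurableSet_numVertices_eq _)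

lemma prog_zero (μ : PMF ℕ) : prog μ 0 = 0 := by
  unfold prog
  have : {ω : List ℕ → ℕ | numVertices ω = ((0 : ℕ) : ℕ∞)} = ∅ := by
    ext ω
    simp only [mem_ofPred_eq, mem_empty_iff_false, iff_false]
    intro h
    have := one_le_numVertices ω
    rw [h] at this
    exact absurd this (by simp)
  rw [this]
  simp

lemma prog_succ (μ : PMF ℕ) (n : ℕ) :
    prog μ (n + 1) = ∑ k ∈ Finset.range (n + 1),
      (μ k).toReal * PowerSeries.coeff n ((progSeries μ) ^ k) := by
  unfold prog
  have hset : {ω : List ℕ → ℕ | numVertices ω = ((n + 1 : ℕ) : ℕ∞)}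
      = ⋃ k ∈ Finset.range (n + 1),
        {ω | ω [] = k ∧ ∑ i ∈ Finset.range k, numVertices (sub i ω) = (n : ℕ∞)} := by
    ext ω
    simp only [mem_ofPred_eq, mem_iUnion, exists_prop, Finset.mem_range]
    rw [numVertices_eq]
    have key : (1 + ∑ i ∈ Finset.range (ω []), numVertices (sub i ω) = ((n + 1 : ℕ) : ℕ∞))
        ↔ ∑ i ∈ Finset.range (ω []), numVertices (sub i ω) = (n : ℕ∞) := by
      push_cast
      rw [add_comm (1 : ℕ∞)]
      exact (ENat.add_left_injective_of_ne_top (n := 1) (by simp)).eq_iff
    rw [key]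
    constructor
    · intro h
      refine ⟨ω [], ?_, rfl, h⟩
      have h1 : ((ω [] : ℕ) : ℕ∞) ≤ (n : ℕ∞) := by
        rw [← h]
        calc ((ω [] : ℕ) : ℕ∞) = ∑ i ∈ Finset.range (ω []), (1 : ℕ∞) := by simp
          _ ≤ _ := Finset.sum_le_sum fun i _ => one_le_numVertices _
      have h2 : ω [] ≤ n := by exact_mod_cast h1
      omega
    · rintro ⟨k, _, hk, h⟩
      rw [hk]; exact h
  rw [hset, measureReal_biUnion_finset]
  · exact Finset.sum_congr rfl fun k _ => measure_root_and_sum μ k n
  · intro k _ k' _ hne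
    rw [Function.onFun, Set.disjoint_left]
    rintro ω ⟨h1, _⟩ ⟨h2, _⟩
    exact hne (h1.symm.trans h2)
  · intro k _
    have hset : {ω : List ℕ → ℕ | ω [] = k ∧
          ∑ i ∈ Finset.range k, numVertices (sub i ω) = (n : ℕ∞)}
        = ⋃ l ∈ (Finset.range k).finsuppAntidiag n,
          ({ω | ω [] = k} ∩ ⋂ i ∈ Finset.range k,
          (sub i) ⁻¹' {ω' | numVertices ω' = ((l i : ℕ) : ℕ∞)}) := by
      ext ω
      simp only [mem_ofPred_eq, mem_iUnion, exists_prop, mem_inter_iff, mem_iInter, mem_preimage,
        Finset.mem_range]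
      rw [sum_eq_natCast_iff (fun i => numVertices (sub i ω))]
      constructor
      · rintro ⟨h1, l, hl, h2⟩
        exact ⟨l, hl, h1, h2⟩
      · rintro ⟨l, hl, h1, h2⟩
        exact ⟨h1, l, hl, h2⟩
    rw [hset]
    refine MeasurableSet.biUnion (Finset.countable_toSet _) fun l _ => ?_
    refine MeasurableSet.inter ?_ ?_
    · have h : Measurable fun ω : List ℕ → ℕ => ω [] := by fun_prop
      exact h (measurableSet_singleton k)
    · exact MeasurableSet.biInter (Finset.countable_toSet _) fun i _ =>
        measurable_sub i (measurableSet_numVertices_eq _)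

lemma progenySeries (μ : PMF ℕ) : ProgenySeries (fun k => (μ k).toReal) (progSeries μ) where
  m_nonneg := fun _ => ENNReal.toReal_nonneg
  F_nonneg := fun n => by
    rw [progSeries, PowerSeries.coeff_mk]; exact measureReal_nonneg
  F_zero := by rw [progSeries, PowerSeries.coeff_mk]; exact prog_zero μ
  F_succ := fun n => by
    conv_lhs => rw [progSeries, PowerSeries.coeff_mk]
    exact prog_succ μ n
  F_sum := fun N => by
    have h1 : ∑ n ∈ Finset.range N, PowerSeries.coeff n (progSeries μ)
        = (gw μ).real (⋃ n ∈ Finset.range N, {ω | numVertices ω = (n : ℕ∞)}) := by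
      rw [measureReal_biUnion_finset]
      · refine Finset.sum_congr rfl fun n _ => ?_
        rw [progSeries, PowerSeries.coeff_mk, prog]
      · intro a _ b _ hab
        rw [Function.onFun, Set.disjoint_left]
        intro ω h1 h2
        simp only [mem_ofPred_eq] at h1 h2
        rw [h1] at h2
        exact hab (by exact_mod_cast h2)
      · intro n _
        exact measurableSet_numVertices_eq n
    rw [h1]
    exact measureReal_le_one

end Pool.Agent.Work.MP_d1698a_pr
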