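import Pool.Agent.Work.MP_d1698a_pr.Offspring

set_option autoImplicit false

open MeasureTheory ProbabilityTheory Filter Set
open scoped ENNReal Topology

namespace Pool.Agent.Work.MP_d1698a_pr

lemma highProb_bound (μ : PMF ℕ) (hcrit : IsCritical μ) (f : ℕ → ℝ) (hpos : ∀ n, 0 < f n)
    (n : ℕ) (hn : 2 ≤ n) (k : ℕ) (hk1 : 2 * n ^ 7 ≤ k) (hk2 : 2 / f n ≤ k * (μ k).toReal)
    (h : ℕ) (hh : 7 * (f n * Real.log n) ≤ h) :
    highProb μ h ≤ 1 / (n : ℝ) ^ 7 := by
  have hn0 : (0 : ℝ) < n := by exact_mod_cast (by omega : 0 < n)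
  have hs1 : HasSum (fun k => (μ k).toReal) 1 := by
    have h1 := ENNReal.hasSum_toReal (f := fun k => μ k) (by rw [PMF.tsum_coe]; simp)
    rwa [← ENNReal.tsum_toReal_eq (fun k => PMF.apply_ne_top μ k), PMF.tsum_coe,
      ENNReal.toReal_one] at h1
  have hs2 : HasSum (fun k : ℕ => (k : ℝ) * (μ k).toReal) 1 := by
    have h1 := ENNReal.hasSum_toReal (f := fun k : ℕ => (k : ℝ≥0∞) * μ k)
      (by rw [hcrit.1]; simp)
    rw [← ENNReal.tsum_toReal_eq
      (fun k => ENNReal.mul_ne_top (ENNReal.natCast_ne_top k) (PMF.apply_ne_top μ k)), hcrit.1,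
      ENNReal.toReal_one] at h1
    simpa [ENNReal.toReal_mul] using h1
  refine iterate_bound (highProb μ) (highProb_nonneg μ) (highProb_le_one μ 0)
    (fun a b hab => highProb_anti μ hab) (k * (μ k).toReal / 2) (1 / (n : ℝ) ^ 7) ?_ h ?_
  · intro j hj
    rw [highProb_succ]
    refine step_bound (fun k => (μ k).toReal) (fun k => ENNReal.toReal_nonneg) hs1 hs2
      (highProb μ j) (highProb_nonneg μ j) (highProb_le_one μ j) k ?_
    have hk1' : 2 * (n : ℝ) ^ 7 ≤ k := by exact_mod_cast hk1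
    calc (2 : ℝ) = (2 * (n : ℝ) ^ 7) * (1 / (n : ℝ) ^ 7) := by field_simp
      _ ≤ k * highProb μ j := by
          apply mul_le_mul hk1' hj (by positivity) (by positivity)
  · rw [one_div, ← Real.exp_log (show (0 : ℝ) < (n : ℝ) ^ 7 by positivity), ← Real.exp_neg,
      Real.exp_le_exp, neg_le_neg_iff, Real.log_pow]
    have h1 : 1 / f n ≤ k * (μ k).toReal / 2 := by
      calc 1 / f n = (2 / f n) / 2 := by ring
        _ ≤ _ := by linarith
    have hlog : 0 ≤ Real.log n := Real.log_natCast_nonneg n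
    calc ((7 : ℕ) : ℝ) * Real.log n = (1 / f n) * (7 * (f n * Real.log n)) := by
          have := (hpos n).ne'
          field_simp
          push_cast
          ring
      _ ≤ (k * (μ k).toReal / 2) * h := by
          apply mul_le_mul h1 hh
          · have := hpos n
            positivity
          · have := ENNReal.toReal_nonneg (a := μ k)
            positivity

lemma prog_lower (μ : PMF ℕ) (hcrit : IsCritical μ)
    (hlow : ∀ k : ℕ, 1 ≤ k → 1 / ((k : ℝ) * (k + 1) * (k + 2)) ≤ (μ k).toReal)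
    (n : ℕ) (hn : 2 ≤ n) : 1 / ((n : ℝ) + 2) ^ 6 ≤ prog μ n := by
  obtain ⟨n, rfl⟩ : ∃ n', n = n' + 1 := ⟨n - 1, by omega⟩
  have hn1 : 1 ≤ n := by omega
  have hP := progenySeries μ
  set m : ℕ → ℝ := fun k => (μ k).toReal with hm
  have hm0 : ∀ k, 0 ≤ m k := fun k => ENNReal.toReal_nonneg
  have hs1 : HasSum m 1 := by
    have h1 := ENNReal.hasSum_toReal (f := fun k => μ k) (by rw [PMF.tsum_coe]; simp)
    rwa [← ENNReal.tsum_toReal_eq (fun k => PMF.apply_ne_top μ k), PMF.tsum_coe,
      ENNReal.toReal_one] at h1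
  have hs2 : HasSum (fun k : ℕ => (k : ℝ) * m k) 1 := by
    have h1 := ENNReal.hasSum_toReal (f := fun k : ℕ => (k : ℝ≥0∞) * μ k)
      (by rw [hcrit.1]; simp)
    rw [← ENNReal.tsum_toReal_eq
      (fun k => ENNReal.mul_ne_top (ENNReal.natCast_ne_top k) (PMF.apply_ne_top μ k)), hcrit.1,
      ENNReal.toReal_one] at h1
    simpa [ENNReal.toReal_mul] using h1
  have hpart : ∀ N, ∑ j ∈ Finset.range N, m j ≤ 1 := fun N =>
    sum_le_hasSum _ (fun k _ => hm0 k) hs1
  have hu := hP.u_ge hpart n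
  -- `m (n+1) ≤ 1 - ∑_{i<n} (1 - ∑_{j≤i} m j)`
  have hkey : m (n + 1) ≤ 1 - ∑ i ∈ Finset.range n, (1 - ∑ j ∈ Finset.range (i + 1), m j) := by
    have e1 : ∑ i ∈ Finset.range n, (1 - ∑ j ∈ Finset.range (i + 1), m j)
        = n - ∑ j ∈ Finset.range (n + 1), ((n : ℝ) - j) * m j := by
      have : ∀ N : ℕ, ∑ i ∈ Finset.range N, (1 - ∑ j ∈ Finset.range (i + 1), m j)
          = N - ∑ j ∈ Finset.range (N + 1), ((N : ℝ) - j) * m j := by
        intro N
        induction N with
        | zero => simp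
        | succ N ih =>
          rw [Finset.sum_range_succ, ih]
          rw [Finset.sum_range_succ (fun j => (((N + 1 : ℕ) : ℝ) - j) * m j) (N + 1)]
          have : ∑ j ∈ Finset.range (N + 1), (((N + 1 : ℕ) : ℝ) - j) * m j
              = ∑ j ∈ Finset.range (N + 1), ((N : ℝ) - j) * m j
                + ∑ j ∈ Finset.range (N + 1), m j := by
            rw [← Finset.sum_add_distrib]
            refine Finset.sum_congr rfl fun j _ => ?_
            push_cast
            ring
          rw [this]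
          push_cast
          ring
      exact this n
    rw [e1]
    -- the series `∑ (j - min j n) m j`
    have hs3 : HasSum (fun j : ℕ => ((j : ℝ) - n) * m j) (1 - n * 1) := by
      have := hs2.sub (hs1.mul_left (n : ℝ))
      refine this.congr_fun ?_ |> fun h => h
      intro j
      ring
    have hsplit := hs3.summable.sum_add_tsum_nat_add (n + 1)
    rw [hs3.tsum_eq] at hsplit
    have htail : m (n + 1) ≤ ∑' i : ℕ, (((i + (n + 1) : ℕ) : ℝ) - n) * m (i + (n + 1)) := by
      have hsum' : Summable fun i : ℕ => (((i + (n + 1) : ℕ) : ℝ) - n) * m (i + (n + 1)) :=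
        (summable_nat_add_iff (f := fun j : ℕ => ((j : ℝ) - n) * m j) (n + 1)).2 hs3.summable
      have h0 := hsum'.le_tsum 0 (fun i _ => mul_nonneg (by push_cast; linarith) (hm0 _))
      simp only [zero_add] at h0
      refine le_trans (le_of_eq ?_) h0
      push_cast
      ring
    have hneg : ∑ j ∈ Finset.range (n + 1), ((n : ℝ) - j) * m j
        = - ∑ j ∈ Finset.range (n + 1), ((j : ℝ) - n) * m j := by
      rw [← Finset.sum_neg_distrib]
      refine Finset.sum_congr rfl fun j _ => by ring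
    rw [hneg]
    linarith
  have hu2 : 1 / (((n + 1 : ℕ) : ℝ) + 2) ^ 3 ≤ ProgenySeries.u (progSeries μ) n := by
    refine le_trans ?_ (hkey.trans hu)
    refine le_trans ?_ (hlow (n + 1) (by omega))
    apply one_div_le_one_div_of_le (by positivity)
    push_cast
    have : (0 : ℝ) ≤ n := Nat.cast_nonneg n
    calc ((n : ℝ) + 1) * (n + 1 + 1) * (n + 1 + 2) ≤ (n + 1 + 2) * (n + 1 + 2) * (n + 1 + 2) := by
          gcongr <;> linarith
      _ = (n + 1 + 2) ^ 3 := by ring
  have hc := hP.coeff_ge n hn1 (1 / (((n + 1 : ℕ) : ℝ) + 2) ^ 3) ?_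
  · rw [progSeries, PowerSeries.coeff_mk] at hc
    refine le_trans ?_ hc
    calc 1 / (((n + 1 : ℕ) : ℝ) + 2) ^ 6
        = 1 / (((n + 1 : ℕ) : ℝ) + 2) ^ 3 * (1 / (((n + 1 : ℕ) : ℝ) + 2) ^ 3) := by
          rw [div_mul_div_comm]
          congr 1 <;> ring
      _ ≤ _ := by
          refine mul_le_mul_of_nonneg_left hu2 (by positivity)
  · intro k hk1 hk2
    refine le_trans ?_ (hlow k hk1)
    have hk0 : (0 : ℝ) < k := by exact_mod_cast hk1
    apply one_div_le_one_div_of_le (by positivity)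
    have hk2' : (k : ℝ) ≤ n := by exact_mod_cast hk2
    push_cast
    calc (k : ℝ) * (k + 1) * (k + 2) ≤ (n + 1 + 2) * (n + 1 + 2) * (n + 1 + 2) := by
          gcongr <;> linarith
      _ = (n + 1 + 2) ^ 3 := by ring

/-- For every `f : ℕ → (0, ∞)` with `f(n) → ∞` there is a critical offspring distribution for which
`H(T_n) / (f(n) ln n)` is tight. -/
theorem tight_all (f : ℕ → ℝ) (hpos : ∀ n, 0 < f n) (hf : Tendsto f atTop atTop) :
    ∃ μ : PMF ℕ, IsCritical μ ∧ HeightTight μ f := by
  obtain ⟨μ, hcrit, hlow, N₀, hN₀⟩ := exists_offspring f hf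
  refine ⟨μ, hcrit, ?_⟩
  intro ε hε
  -- from `N` on the conditional probability is at most `64 / n < ε`
  obtain ⟨N, hN⟩ := exists_nat_gt (64 / ε)
  set M : ℕ := max 2 (max N₀ N) with hM
  set K : ℝ := 7 + ∑ n ∈ Finset.range M, |(n : ℝ) / (f n * Real.log n)| with hK
  have hK7 : 7 ≤ K := by
    rw [hK]
    have : 0 ≤ ∑ n ∈ Finset.range M, |(n : ℝ) / (f n * Real.log n)| :=
      Finset.sum_nonneg fun _ _ => abs_nonneg _
    linarith
  refine ⟨K, ?_⟩
  intro n hn1 hpn
  have hmeasN := measurableSet_numVertices_eq n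
  have hcond : ∀ A : Set (List ℕ → ℕ), (condLaw μ n).real A
      = (prog μ n)⁻¹ * (gw μ).real ({ω | numVertices ω = (n : ℕ∞)} ∩ A) := by
    intro A
    unfold condLaw prog
    rw [measureReal_def, ProbabilityTheory.cond_apply hmeasN, ENNReal.toReal_mul,
      ENNReal.toReal_inv, measureReal_def, measureReal_def]
  rw [hcond]
  by_cases hnM : n < M
  · -- small `n`: the event is empty
    have hempty : {ω : List ℕ → ℕ | numVertices ω = (n : ℕ∞)}
        ∩ {ω | K < |(height ω : ℝ) / (f n * Real.log n)|} = ∅ := by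
      ext ω
      simp only [mem_inter_iff, mem_ofPred_eq, mem_empty_iff_false, iff_false, not_and, not_lt]
      intro hω
      have h1 := height_lt_of_numVertices hω
      have h2 : |(height ω : ℝ) / (f n * Real.log n)| ≤ |(n : ℝ) / (f n * Real.log n)| := by
        rw [abs_div, abs_div]
        have h3 : |(height ω : ℝ)| ≤ |(n : ℝ)| := by
          rw [abs_of_nonneg (Nat.cast_nonneg _), abs_of_nonneg (Nat.cast_nonneg _)]
          exact_mod_cast h1.le
        gcongr
      have h4 : |(n : ℝ) / (f n * Real.log n)|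
          ≤ ∑ n ∈ Finset.range M, |(n : ℝ) / (f n * Real.log n)| :=
        Finset.single_le_sum (f := fun n : ℕ => |(n : ℝ) / (f n * Real.log n)|)
          (fun _ _ => abs_nonneg _) (Finset.mem_range.2 hnM)
      rw [hK]
      linarith
    rw [hempty]
    simpa using hε
  · push Not at hnM
    have hn2 : 2 ≤ n := (le_max_left _ _).trans hnM
    have hnN0 : N₀ ≤ n := (le_max_left _ _).trans ((le_max_right _ _).trans hnM)
    have hnN : N ≤ n := (le_max_right _ _).trans ((le_max_right _ _).trans hnM)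
    have hn0 : (0 : ℝ) < n := by exact_mod_cast (by omega : 0 < n)
    have hlogpos : 0 < Real.log n := Real.log_pos (by exact_mod_cast (by omega : 1 < n))
    have hfl : 0 < f n * Real.log n := mul_pos (hpos n) hlogpos
    obtain ⟨k, hk1, hk2⟩ := hN₀ n hnN0
    set h : ℕ := ⌈7 * (f n * Real.log n)⌉₊ with hh
    have hhigh := highProb_bound μ hcrit f hpos n hn2 k hk1 hk2 h (Nat.le_ceil _)
    have hlower := prog_lower μ hcrit hlow n hn2
    have hsub : {ω : List ℕ → ℕ | numVertices ω = (n : ℕ∞)}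
        ∩ {ω | K < |(height ω : ℝ) / (f n * Real.log n)|} ⊆ (lowSet h)ᶜ := by
      rintro ω ⟨h1, h2⟩
      simp only [mem_ofPred_eq] at h1 h2
      rw [abs_of_nonneg (by positivity), lt_div_iff₀ hfl] at h2
      obtain ⟨v, hv, hvl⟩ := exists_mem_of_height h1
      intro hlowω
      have h3 := hlowω v hv
      rw [hvl] at h3
      have h4 : 7 * (f n * Real.log n) ≤ (height ω : ℝ) := by
        refine le_trans ?_ h2.le
        exact mul_le_mul_of_nonneg_right hK7 hfl.le
      have h5 : h ≤ height ω := Nat.ceil_le.2 h4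
      omega
    have hmeas : (gw μ).real ({ω : List ℕ → ℕ | numVertices ω = (n : ℕ∞)}
        ∩ {ω | K < |(height ω : ℝ) / (f n * Real.log n)|}) ≤ 1 / (n : ℝ) ^ 7 :=
      (measureReal_mono hsub).trans hhigh
    have hprogpos : 0 < prog μ n := lt_of_lt_of_le (by positivity) hlower
    have hinv : (prog μ n)⁻¹ ≤ ((n : ℝ) + 2) ^ 6 := by
      rw [inv_le_comm₀ hprogpos (by positivity), ← one_div]
      exact hlower
    have hn2' : (2 : ℝ) ≤ n := by exact_mod_cast hn2
    calc (prog μ n)⁻¹ * (gw μ).real ({ω : List ℕ → ℕ | numVertices ω = (n : ℕ∞)}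
        ∩ {ω | K < |(height ω : ℝ) / (f n * Real.log n)|})
        ≤ ((n : ℝ) + 2) ^ 6 * (1 / (n : ℝ) ^ 7) := by
          apply mul_le_mul hinv hmeas measureReal_nonneg (by positivity)
      _ ≤ (2 * (n : ℝ)) ^ 6 * (1 / (n : ℝ) ^ 7) := by
          gcongr
          linarith
      _ = 64 / n := by
          field_simp
          norm_num
      _ < ε := by
          have hNn : (N : ℝ) ≤ n := by exact_mod_cast hnN
          rw [div_lt_iff₀ hn0]
          rw [div_lt_iff₀ hε] at hN
          nlinarith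

end Pool.Agent.Work.MP_d1698a_pr
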